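import Mathlib

/-!
Almost sure convergence of monotone sequences with controlled variance.
-/

open Finset MeasureTheory ProbabilityTheory Filter Topology

namespace Pool.Agent.Lib.MP_6ef346_pr

/-- the deterministic sandwich -/
lemma det_sandwich (ℓ e : ℕ → ℝ) (hℓ : Monotone ℓ) (he : Monotone e) (he0 : e 0 = 0)
    (he1 : ∀ n, e (n + 1) ≤ e n + 1) (hinf : Tendsto e atTop atTop) (nk : ℕ → ℕ)
    (h1 : ∀ k : ℕ, (k : ℝ) ^ 2 ≤ e (nk k)) (h2 : ∀ k n : ℕ, n < nk k → e n < (k : ℝ) ^ 2)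
    (δ : ℝ) (hδ : 0 < δ) (hδ1 : δ ≤ 1)
    (hev : ∀ᶠ k : ℕ in atTop, |ℓ (nk k) - e (nk k)| < δ * (k : ℝ) ^ 2) :
    ∀ᶠ n in atTop, (1 - 2 * δ) * e n ≤ ℓ n ∧ ℓ n ≤ (1 + 2 * δ) * e n := by
  have h3 : ∀ k : ℕ, e (nk k) ≤ (k : ℝ) ^ 2 + 1 := by
    intro k
    rcases Nat.eq_zero_or_pos (nk k) with h | h
    · rw [h, he0]; positivity
    · have h4 := h2 k (nk k - 1) (by omega)
      have h5 := he1 (nk k - 1)
      rw [show nk k - 1 + 1 = nk k by omega] at h5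
      linarith
  obtain ⟨K, hK⟩ := eventually_atTop.mp hev
  obtain ⟨K', hK'⟩ := exists_nat_ge (12 / δ)
  have he_nonneg : ∀ n, 0 ≤ e n := fun n => by rw [← he0]; exact he (Nat.zero_le n)
  filter_upwards [hinf.eventually_ge_atTop (((max K K' + 1 : ℕ) : ℝ) ^ 2)] with n hn
  set k := ⌊Real.sqrt (e n)⌋₊ with hk
  have hk1 : (k : ℝ) ≤ Real.sqrt (e n) := Nat.floor_le (Real.sqrt_nonneg _)
  have hk2 : Real.sqrt (e n) < k + 1 := Nat.lt_floor_add_one _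
  have hsq : Real.sqrt (e n) ^ 2 = e n := Real.sq_sqrt (he_nonneg n)
  have hk3 : (k : ℝ) ^ 2 ≤ e n := by
    rw [← hsq]; exact pow_le_pow_left₀ (by positivity) hk1 2
  have hk4 : e n < ((k + 1 : ℕ) : ℝ) ^ 2 := by
    rw [← hsq]; push_cast
    exact pow_lt_pow_left₀ hk2 (Real.sqrt_nonneg _) (by norm_num)
  have hkK : max K K' + 1 ≤ k := by
    rw [hk]
    apply Nat.le_floor
    exact Real.le_sqrt_of_sq_le hn
  have hkK1 : K ≤ k := by have := le_max_left K K'; omega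
  have hkK2 : K' ≤ k := by have := le_max_right K K'; omega
  have hkR : 12 / δ ≤ (k : ℝ) := hK'.trans (by exact_mod_cast hkK2)
  have hkpos : (0 : ℝ) < k := lt_of_lt_of_le (by positivity) hkR
  rw [div_le_iff₀ hδ] at hkR
  have hk1' : (1 : ℝ) ≤ k := by
    have : 1 ≤ k := by omega
    exact_mod_cast this
  -- `3 k ≤ (δ / 4) k ^ 2`
  have hη : 3 * (k : ℝ) ≤ δ / 4 * (k : ℝ) ^ 2 := by nlinarith
  have hn1 : nk k ≤ n := by
    by_contra hcon
    push Not at hcon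
    exact absurd (h2 k n hcon) (not_lt.mpr hk3)
  have hn2 : n ≤ nk (k + 1) := by
    by_contra hcon
    push Not at hcon
    have := (h1 (k + 1)).trans (he hcon.le)
    exact absurd hk4 (not_lt.mpr this)
  have g1 := hK k hkK1
  have g2 := hK (k + 1) (by omega)
  rw [abs_lt] at g1 g2
  have g3 := h1 k
  have g4 := h3 (k + 1)
  have g5 := hℓ hn1
  have g6 := hℓ hn2
  push_cast at hk4 g2 g4
  have hkk : ((k : ℝ) + 1) ^ 2 ≤ (1 + δ / 4) * (k : ℝ) ^ 2 := by nlinarith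
  constructor
  · have g7 : (1 - δ) * (k : ℝ) ^ 2 ≤ ℓ n := by linarith
    refine le_trans ?_ g7
    rcases le_total (1 - 2 * δ) 0 with h | h
    · have a1 : (1 - 2 * δ) * e n ≤ 0 := mul_nonpos_of_nonpos_of_nonneg h (he_nonneg n)
      have a2 : 0 ≤ (1 - δ) * (k : ℝ) ^ 2 := mul_nonneg (by linarith) (sq_nonneg _)
      linarith
    · have a1 : (1 - 2 * δ) * e n ≤ (1 - 2 * δ) * ((1 + δ / 4) * (k : ℝ) ^ 2) :=
        mul_le_mul_of_nonneg_left (hk4.le.trans hkk) h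
      have a2 : (1 - 2 * δ) * (1 + δ / 4) ≤ 1 - δ := by nlinarith
      have a3 := mul_le_mul_of_nonneg_right a2 (sq_nonneg (k : ℝ))
      linarith
  · have g7 : ℓ n ≤ (1 + δ) * ((k : ℝ) + 1) ^ 2 + 1 := by linarith
    have a1 : (1 + δ) * ((k : ℝ) + 1) ^ 2 ≤ (1 + δ) * ((1 + δ / 4) * (k : ℝ) ^ 2) :=
      mul_le_mul_of_nonneg_left hkk (by linarith)
    have a2 : (1 : ℝ) ≤ δ / 4 * (k : ℝ) ^ 2 := by linarith
    have a3 : (1 + δ) * (1 + δ / 4) + δ / 4 ≤ 1 + 2 * δ := by nlinarith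
    have a4 := mul_le_mul_of_nonneg_right a3 (sq_nonneg (k : ℝ))
    have a5 : (1 + 2 * δ) * (k : ℝ) ^ 2 ≤ (1 + 2 * δ) * e n :=
      mul_le_mul_of_nonneg_left hk3 (by linarith)
    linarith

/-- almost sure convergence -/
theorem as_of_var {Ω : Type*} [MeasurableSpace Ω] {μ : Measure Ω} [IsProbabilityMeasure μ]
    (L : ℕ → Ω → ℝ) (hL : ∀ ω, Monotone fun n => L n ω) (hmem : ∀ n, MemLp (L n) 2 μ)
    (hvar : ∀ n, Var[L n; μ] ≤ ∫ ω, L n ω ∂μ) (h0 : ∫ ω, L 0 ω ∂μ = 0)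
    (h1 : ∀ n, ∫ ω, L (n + 1) ω ∂μ ≤ (∫ ω, L n ω ∂μ) + 1)
    (hinf : Tendsto (fun n => ∫ ω, L n ω ∂μ) atTop atTop) :
    ∀ᵐ ω ∂μ, Tendsto (fun n => L n ω / ∫ ω, L n ω ∂μ) atTop (𝓝 1) := by
  classical
  set e : ℕ → ℝ := fun n => ∫ ω, L n ω ∂μ with he
  have hint : ∀ n, Integrable (L n) μ := fun n => (hmem n).integrable (by norm_num)
  have hmono : Monotone e := by
    intro a b hab
    exact integral_mono (hint a) (hint b) fun ω => hL ω hab
  have hex : ∀ k : ℕ, ∃ n, (k : ℝ) ^ 2 ≤ e n := fun k =>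
    (hinf.eventually_ge_atTop ((k : ℝ) ^ 2)).exists
  let nk : ℕ → ℕ := fun k => Nat.find (hex k)
  have hnk1 : ∀ k : ℕ, (k : ℝ) ^ 2 ≤ e (nk k) := fun k => Nat.find_spec (hex k)
  have hnk2 : ∀ k n : ℕ, n < nk k → e n < (k : ℝ) ^ 2 := fun k n hn =>
    not_le.mp (Nat.find_min (hex k) hn)
  have hnk3 : ∀ k : ℕ, e (nk k) ≤ (k : ℝ) ^ 2 + 1 := by
    intro k
    rcases Nat.eq_zero_or_pos (nk k) with h | h
    · rw [h, show e 0 = 0 from h0]; positivity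
    · have h4 := hnk2 k (nk k - 1) (by omega)
      have h5 := h1 (nk k - 1)
      rw [show nk k - 1 + 1 = nk k by omega] at h5
      change e (nk k) ≤ e (nk k - 1) + 1 at h5
      linarith
  -- Borel-Cantelli for a fixed `δ`
  have hBC : ∀ δ : ℝ, 0 < δ → δ ≤ 1 → ∀ᵐ ω ∂μ, ∀ᶠ n in atTop,
      (1 - 2 * δ) * e n ≤ L n ω ∧ L n ω ≤ (1 + 2 * δ) * e n := by
    intro δ hδ hδ1
    let s : ℕ → Set Ω := fun k => {ω | δ * ((k + 1 : ℕ) : ℝ) ^ 2 ≤
      |L (nk (k + 1)) ω - ∫ ω, L (nk (k + 1)) ω ∂μ|}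
    have hs : ∀ k, μ (s k) ≤ ENNReal.ofReal (2 / δ ^ 2 * (1 / ((k : ℝ) + 1) ^ 2)) := by
      intro k
      have hc : 0 < δ * ((k + 1 : ℕ) : ℝ) ^ 2 := by positivity
      refine (meas_ge_le_variance_div_sq (hmem (nk (k + 1))) hc).trans ?_
      apply ENNReal.ofReal_le_ofReal
      have h2 : Var[L (nk (k + 1)); μ] ≤ ((k + 1 : ℕ) : ℝ) ^ 2 + 1 :=
        (hvar _).trans (hnk3 (k + 1))
      rw [div_le_iff₀ (by positivity)]
      refine h2.trans ?_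
      push_cast
      have h3 : 2 / δ ^ 2 * (1 / ((k : ℝ) + 1) ^ 2) * (δ * ((k : ℝ) + 1) ^ 2) ^ 2 =
          2 * ((k : ℝ) + 1) ^ 2 := by
        field_simp
      rw [h3]
      have h4 : (1 : ℝ) ≤ ((k : ℝ) + 1) ^ 2 := by
        have : (0 : ℝ) ≤ k := by positivity
        nlinarith
      linarith
    have hsum : ∑' k, μ (s k) ≠ ⊤ := by
      have hsm : Summable fun k : ℕ => 2 / δ ^ 2 * (1 / ((k : ℝ) + 1) ^ 2) := by
        apply Summable.mul_left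
        have h2 : Summable fun k : ℕ => 1 / ((k : ℕ) : ℝ) ^ 2 :=
          Real.summable_one_div_nat_pow.mpr (by norm_num)
        have h3 := (summable_nat_add_iff 1).mpr h2
        refine h3.congr fun k => ?_
        push_cast
        rfl
      refine ne_top_of_le_ne_top ?_ (ENNReal.tsum_le_tsum hs)
      exact hsm.tsum_ofReal_ne_top
    filter_upwards [ae_eventually_notMem hsum] with ω hω
    apply det_sandwich (fun n => L n ω) e (hL ω) hmono h0 h1 hinf nk hnk1 hnk2 δ hδ hδ1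
    obtain ⟨K, hK⟩ := eventually_atTop.mp hω
    refine eventually_atTop.mpr ⟨K + 1, fun k hk => ?_⟩
    have h2 := hK (k - 1) (by omega)
    simp only [s, Set.mem_ofPred_eq, not_le] at h2
    rw [show k - 1 + 1 = k by omega] at h2
    exact h2
  have hall : ∀ᵐ ω ∂μ, ∀ j : ℕ, ∀ᶠ n in atTop,
      (1 - 2 * (1 / ((j : ℝ) + 1))) * e n ≤ L n ω ∧ L n ω ≤ (1 + 2 * (1 / ((j : ℝ) + 1))) * e n := by
    rw [ae_all_iff]
    intro j
    apply hBC
    · positivity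
    · rw [div_le_one (by positivity)]
      have : (0 : ℝ) ≤ j := by positivity
      linarith
  filter_upwards [hall] with ω hω
  rw [Metric.tendsto_atTop']
  intro η hη
  obtain ⟨j, hj⟩ := exists_nat_gt (4 / η)
  have h3 := (hω j).and (hinf.eventually_gt_atTop 0)
  obtain ⟨N, hN⟩ := eventually_atTop.mp h3
  refine ⟨N, fun n hn => ?_⟩
  obtain ⟨⟨h4, h5⟩, h6⟩ := hN n hn.le
  have hj1 : 2 * (1 / ((j : ℝ) + 1)) < η := by
    rw [div_lt_iff₀ hη] at hj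
    rw [mul_one_div, div_lt_iff₀ (by positivity)]
    nlinarith
  rw [Real.dist_eq, abs_lt]
  constructor
  · have : 1 - 2 * (1 / ((j : ℝ) + 1)) ≤ L n ω / e n := by
      rw [le_div_iff₀ h6]; exact h4
    linarith
  · have : L n ω / e n ≤ 1 + 2 * (1 / ((j : ℝ) + 1)) := by
      rw [div_le_iff₀ h6]; exact h5
    linarith

end Pool.Agent.Lib.MP_6ef346_pr
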