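import Mathlib

/-!
Definitions used in the statement of the result.
-/

open Finset
open scoped NNReal ENNReal

namespace Pool.Agent.Lib.MP_6ef346_pr

/-- The length of the longest strictly increasing subsequence of `x 0, …, x (n-1)`: the largest
`k` such that some set `s` of `k` indices, all smaller than `n`, is such that `x` is strictly
increasing on `s`. -/
noncomputable def lis (x : ℕ → ℕ) (n : ℕ) : ℕ :=
  sSup {k : ℕ | ∃ s : Finset ℕ, s ⊆ range n ∧ s.card = k ∧ StrictMonoOn x s}

/-- The function `f_t = inf_{x ≥ 0} (x + ∑ᵢ t pᵢ / (t pᵢ + x))`. The infimum is taken in `[0, ∞]`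
(at `x = 0` the sum may be infinite); it is finite, and `fRate p t` is its value as a real
number. -/
noncomputable def fRate (p : ℕ → ℝ) (t : ℝ) : ℝ :=
  (⨅ x : ℝ≥0, ((x : ℝ≥0∞) + ∑' i, ENNReal.ofReal (t * p i / (t * p i + (x : ℝ))))).toReal

end Pool.Agent.Lib.MP_6ef346_pr
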