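import Pool.Agent.Lib.MP_6ef346_pr.Mean

/-!
The deterministic dynamics (discrete Hammersley process, seen through its height function).
-/

open Finset

namespace Pool.Agent.Lib.MP_6ef346_pr

/-- events: nothing, a source, a letter. -/
inductive Ev
  | nul : Ev
  | src : Ev
  | el : ℕ → Ev
  deriving DecidableEq

open Ev

/-- one step of the height function. -/
def step : Ev → (ℕ → ℕ) → (ℕ → ℕ)
  | nul, h => h
  | src, h => fun j => max (h j) (h 0 + 1)
  | el i, h => fun j => if i < j then max (h j) (h i + 1) else h j

lemma step_nul (h : ℕ → ℕ) : step nul h = h := rfl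

/-- run a list of events. -/
def run (h : ℕ → ℕ) (l : List Ev) : ℕ → ℕ := l.foldl (fun h e => step e h) h

@[simp] lemma run_nil (h : ℕ → ℕ) : run h [] = h := rfl

@[simp] lemma run_cons (h : ℕ → ℕ) (e : Ev) (l : List Ev) : run h (e :: l) = run (step e h) l := rfl

lemma run_append (h : ℕ → ℕ) (l l' : List Ev) : run h (l ++ l') = run (run h l) l' := by
  simp [run, List.foldl_append]

lemma run_snoc (h : ℕ → ℕ) (l : List Ev) (e : Ev) : run h (l ++ [e]) = step e (run h l) := by
  simp [run_append]

lemma le_step (e : Ev) (h : ℕ → ℕ) (j : ℕ) : h j ≤ step e h j := by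
  cases e with
  | nul => exact le_rfl
  | src => exact le_max_left _ _
  | el i =>
    simp only [step]
    split_ifs
    · exact le_max_left _ _
    · exact le_rfl

lemma step_mono (e : Ev) {h h' : ℕ → ℕ} (hh : ∀ j, h j ≤ h' j) (j : ℕ) : step e h j ≤ step e h' j := by
  cases e with
  | nul => exact hh j
  | src => exact max_le_max (hh j) (by have := hh 0; omega)
  | el i =>
    simp only [step]
    split_ifs
    · exact max_le_max (hh j) (by have := hh i; omega)
    · exact hh j

lemma step_monotone (e : Ev) {h : ℕ → ℕ} (hh : Monotone h) : Monotone (step e h) := by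
  intro a b hab
  cases e with
  | nul => exact hh hab
  | src => exact max_le_max (hh hab) le_rfl
  | el i =>
    simp only [step]
    have h1 := hh hab
    split_ifs with h2 h3 h3
    · exact max_le_max h1 le_rfl
    · omega
    · exact h1.trans (le_max_left _ _)
    · exact h1

lemma run_mono (l : List Ev) {h h' : ℕ → ℕ} (hh : ∀ j, h j ≤ h' j) (j : ℕ) :
    run h l j ≤ run h' l j := by
  induction l generalizing h h' with
  | nil => exact hh j
  | cons e l ih => exact ih (step_mono e hh)

lemma run_monotone (l : List Ev) {h : ℕ → ℕ} (hh : Monotone h) : Monotone (run h l) := by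
  induction l generalizing h with
  | nil => exact hh
  | cons e l ih => exact ih (step_monotone e hh)

lemma le_run (h : ℕ → ℕ) (l : List Ev) (j : ℕ) : h j ≤ run h l j := by
  induction l generalizing h with
  | nil => exact le_rfl
  | cons e l ih => exact (le_step e h j).trans (ih (step e h))

/-- structure of a step at a cut. -/
lemma step_cases (e : Ev) (j : ℕ) : (∀ h : ℕ → ℕ, step e h j = h j) ∨
    ∃ c ≤ j, ∀ h : ℕ → ℕ, step e h j = max (h j) (h c + 1) := by
  cases e with
  | nul => exact Or.inl fun h => rfl
  | src => exact Or.inr ⟨0, Nat.zero_le _, fun h => rfl⟩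
  | el i =>
    by_cases hij : i < j
    · exact Or.inr ⟨i, hij.le, fun h => by simp [step, hij]⟩
    · exact Or.inl fun h => by simp [step, hij]

lemma step_add (e : Ev) (h : ℕ → ℕ) (c j : ℕ) : step e (fun k => c + h k) j = c + step e h j := by
  rcases step_cases e j with h1 | ⟨d, _, h1⟩
  · rw [h1, h1]
  · rw [h1, h1]; omega

lemma run_add (h : ℕ → ℕ) (l : List Ev) (c j : ℕ) : run (fun k => c + h k) l j = c + run h l j := by
  induction l generalizing h with
  | nil => rfl
  | cons e l ih =>
    rw [run_cons, run_cons, ← ih]
    congr 1
    funext k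
    exact step_add e h c k

/-- filters replace some events by `nul`. -/
def IsFilt (φ : Ev → Ev) : Prop := ∀ e, φ e = e ∨ φ e = nul

lemma step_filt_le {φ : Ev → Ev} (hφ : IsFilt φ) (e : Ev) (h : ℕ → ℕ) (j : ℕ) :
    step (φ e) h j ≤ step e h j := by
  rcases hφ e with h1 | h1
  · rw [h1]
  · rw [h1]; exact le_step e h j

lemma run_filt_le {φ : Ev → Ev} (hφ : IsFilt φ) (l : List Ev) (h : ℕ → ℕ) (j : ℕ) :
    run h (l.map φ) j ≤ run h l j := by
  induction l generalizing h with
  | nil => exact le_rfl
  | cons e l ih =>
    rw [List.map_cons, run_cons, run_cons]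
    exact (ih _).trans (run_mono l (step_filt_le hφ e h) j)

/-- subadditivity -/
lemma run_append_le (l l' : List Ev) (j : ℕ) :
    run (fun _ => 0) (l ++ l') j ≤ run (fun _ => 0) l j + run (fun _ => 0) l' j := by
  rw [run_append]
  have hm : Monotone (run (fun _ => 0) l) := run_monotone l (fun _ _ _ => le_rfl)
  -- only cuts `≤ j` matter
  have key : ∀ (l' : List Ev) (j' : ℕ), j' ≤ j →
      run (run (fun _ => 0) l) l' j' ≤ run (fun _ => 0) l j + run (fun _ => 0) l' j' := by
    intro l'
    induction l' using List.reverseRecOn with
    | nil => intro j' hj'; simpa using hm hj'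
    | append_singleton l' e ih =>
      intro j' hj'
      rw [run_snoc, run_snoc]
      rcases step_cases e j' with h1 | ⟨c, hc, h1⟩
      · rw [h1, h1]; exact ih j' hj'
      · rw [h1, h1]
        have h2 := ih j' hj'
        have h3 := ih c (hc.trans hj')
        omega
  exact key l' j le_rfl

lemma run_filt_nul_set (φ : Ev → Ev) (hφ : φ nul = nul) (l : List Ev) (k : ℕ) :
    (l.set k nul).map φ = (l.map φ).set k nul := by
  rw [List.map_set, hφ]

/-- The self-bounding property. -/
lemma run_SB_aux (l : List Ev) : ∀ j : ℕ,
    (∀ k, run (fun _ => 0) (l.set k nul) j ≤ run (fun _ => 0) l j ∧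
      run (fun _ => 0) l j ≤ run (fun _ => 0) (l.set k nul) j + 1) ∧
    ∑ k ∈ range l.length, ((run (fun _ => 0) l j : ℝ) - run (fun _ => 0) (l.set k nul) j) ≤
      run (fun _ => 0) l j := by
  induction l using List.reverseRecOn with
  | nil => intro j; simp
  | append_singleton l e ih =>
    intro j
    have hm : Monotone (run (fun _ => 0) l) := run_monotone l (fun _ _ _ => le_rfl)
    constructor
    · intro k
      rcases lt_trichotomy k l.length with hk | hk | hk
      · rw [List.set_append_left _ _ hk, run_snoc, run_snoc]
        constructor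
        · exact step_mono e (fun i => ((ih i).1 k).1) j
        · rcases step_cases e j with h1 | ⟨c, hc, h1⟩
          · rw [h1, h1]; exact ((ih j).1 k).2
          · rw [h1, h1]
            have := ((ih j).1 k).2
            have := ((ih c).1 k).2
            omega
      · subst hk
        rw [List.set_append_right _ _ le_rfl, Nat.sub_self]
        simp only [List.set_cons_zero]
        rw [run_snoc, run_snoc]
        refine ⟨le_step e _ j, ?_⟩
        rcases step_cases e j with h1 | ⟨c, hc, h1⟩
        · rw [h1]; simp [step]
        · rw [h1]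
          have := hm hc
          simp only [step]
          omega
      · rw [List.set_eq_of_length_le (by simp; omega)]
        exact ⟨le_rfl, Nat.le_succ _⟩
    · rw [List.length_append, List.length_singleton, sum_range_succ]
      have hlast : (l ++ [e]).set l.length nul = l ++ [nul] := by
        rw [List.set_append_right _ _ le_rfl, Nat.sub_self]
        rfl
      have hset : ∀ k ∈ range l.length, (l ++ [e]).set k nul = l.set k nul ++ [e] := by
        intro k hk
        exact List.set_append_left _ _ (mem_range.mp hk)
      rw [hlast, sum_congr rfl (fun k hk => by rw [hset k hk])]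
      simp only [run_snoc]
      rcases step_cases e j with h1 | ⟨c, hc, h1⟩
      · simp only [h1, step_nul]
        have := (ih j).2
        linarith
      · simp only [h1, step_nul]
        by_cases hcase : run (fun _ => 0) l c + 1 ≤ run (fun _ => 0) l j
        · rw [max_eq_left hcase]
          have h2 : ∑ k ∈ range l.length, ((run (fun _ => 0) l j : ℝ) -
              ((max (run (fun _ => 0) (l.set k nul) j) (run (fun _ => 0) (l.set k nul) c + 1) : ℕ) : ℝ))
              ≤ ∑ k ∈ range l.length, ((run (fun _ => 0) l j : ℝ) -
                run (fun _ => 0) (l.set k nul) j) := by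
            refine sum_le_sum fun k _ => ?_
            have : (run (fun _ => 0) (l.set k nul) j : ℝ) ≤
              ((max (run (fun _ => 0) (l.set k nul) j) (run (fun _ => 0) (l.set k nul) c + 1) : ℕ) : ℝ) := by
              exact_mod_cast le_max_left _ _
            linarith
          have := (ih j).2
          linarith
        · push Not at hcase
          rw [max_eq_right (by omega)]
          have h2 : ∑ k ∈ range l.length, (((run (fun _ => 0) l c + 1 : ℕ) : ℝ) -
              ((max (run (fun _ => 0) (l.set k nul) j) (run (fun _ => 0) (l.set k nul) c + 1) : ℕ) : ℝ))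
              ≤ ∑ k ∈ range l.length, ((run (fun _ => 0) l c : ℝ) -
                run (fun _ => 0) (l.set k nul) c) := by
            refine sum_le_sum fun k _ => ?_
            have : ((run (fun _ => 0) (l.set k nul) c + 1 : ℕ) : ℝ) ≤
              ((max (run (fun _ => 0) (l.set k nul) j) (run (fun _ => 0) (l.set k nul) c + 1) : ℕ) : ℝ) := by
              exact_mod_cast le_max_right _ _
            push_cast at this ⊢
            linarith
          have h3 := (ih c).2
          have h4 : (run (fun _ => 0) l c : ℝ) ≤ run (fun _ => 0) l j := by exact_mod_cast hm hc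
          push_cast at h2 ⊢
          linarith

lemma run_SB (φ : Ev → Ev) (hφ : φ nul = nul) (j : ℕ) :
    SB nul (fun l : List Ev => (run (fun _ => 0) (l.map φ) j : ℝ)) := by
  intro l
  have h := run_SB_aux (l.map φ) j
  simp only [run_filt_nul_set φ hφ]
  constructor
  · intro k
    have h1 := h.1 k
    have h2 : (run (fun _ => 0) ((l.map φ).set k nul) j : ℝ) ≤ run (fun _ => 0) (l.map φ) j := by
      exact_mod_cast h1.1
    have h3 : (run (fun _ => 0) (l.map φ) j : ℝ) ≤ run (fun _ => 0) ((l.map φ).set k nul) j + 1 := by
      exact_mod_cast h1.2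
    constructor <;> linarith
  · have := h.2
    rwa [List.length_map] at this

end Pool.Agent.Lib.MP_6ef346_pr
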