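import Pool.Agent.Lib.MP_6ef346_pr.Dyn
import Pool.Agent.Lib.MP_6ef346_pr.Defs

/-!
Longest increasing subsequences and exit points.
-/

open Finset

namespace Pool.Agent.Lib.MP_6ef346_pr

open Ev

/-! ### Filters -/

/-- keep the letters. -/
def fL : Ev → Ev
  | el i => el i
  | _ => nul

/-- keep the sources. -/
def fS : Ev → Ev
  | src => src
  | _ => nul

/-- keep the letters `≥ j`. -/
def fG (j : ℕ) : Ev → Ev
  | el i => if j ≤ i then el i else nul
  | _ => nul

/-- keep the letters `< j`. -/
def fB (j : ℕ) : Ev → Ev
  | el i => if i < j then el i else nul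
  | _ => nul

lemma fL_filt : IsFilt fL := by
  intro e; cases e <;> simp [fL]

lemma fS_filt : IsFilt fS := by
  intro e; cases e <;> simp [fS]

lemma fG_filt (j : ℕ) : IsFilt (fG j) := by
  intro e
  cases e with
  | nul => simp [fG]
  | src => simp [fG]
  | el i => simp only [fG]; split_ifs <;> simp

lemma fB_filt (j : ℕ) : IsFilt (fB j) := by
  intro e
  cases e with
  | nul => simp [fB]
  | src => simp [fB]
  | el i => simp only [fB]; split_ifs <;> simp

/-! ### Longest increasing subsequence -/

/-- the event list of a sequence of letters. -/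
def evs (x : ℕ → ℕ) (n : ℕ) : List Ev := (List.range n).map fun i => el (x i)

lemma evs_succ (x : ℕ → ℕ) (n : ℕ) : evs x (n + 1) = evs x n ++ [el (x n)] := by
  simp [evs, List.range_succ]

lemma evs_length (x : ℕ → ℕ) (n : ℕ) : (evs x n).length = n := by simp [evs]

lemma chain_le (x : ℕ → ℕ) (n : ℕ) : ∀ (j : ℕ) (s : Finset ℕ), s ⊆ range n → StrictMonoOn x s →
    (∀ i ∈ s, x i < j) → s.card ≤ run (fun _ => 0) (evs x n) j := by
  induction n with
  | zero =>
    intro j s hs _ _
    have : s = ∅ := by simpa using hs
    simp [this]
  | succ n ih =>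
    intro j s hs hx hj
    rw [evs_succ, run_snoc]
    by_cases hn : n ∈ s
    · have hnj := hj n hn
      have h1 : (s.erase n).card ≤ run (fun _ => 0) (evs x n) (x n) := by
        apply ih
        · intro i hi
          have h2 := hs (mem_of_mem_erase hi)
          have h3 := ne_of_mem_erase hi
          simp only [mem_range] at h2 ⊢
          omega
        · exact hx.mono (by exact_mod_cast erase_subset n s)
        · intro i hi
          have h2 := hs (mem_of_mem_erase hi)
          have h3 := ne_of_mem_erase hi
          simp only [mem_range] at h2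
          exact hx (mem_coe.mpr (mem_of_mem_erase hi)) (mem_coe.mpr hn) (by omega)
      have h2 := card_erase_add_one hn
      simp only [step, if_pos hnj]
      have := le_max_right (run (fun _ => 0) (evs x n) j) (run (fun _ => 0) (evs x n) (x n) + 1)
      omega
    · refine (ih j s ?_ hx hj).trans (le_step _ _ _)
      intro i hi
      have h2 := hs hi
      have h3 : i ≠ n := fun h => hn (h ▸ hi)
      simp only [mem_range] at h2 ⊢
      omega

lemma exists_chain (x : ℕ → ℕ) (n : ℕ) : ∀ j : ℕ, ∃ s : Finset ℕ, s ⊆ range n ∧ StrictMonoOn x s ∧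
    (∀ i ∈ s, x i < j) ∧ s.card = run (fun _ => 0) (evs x n) j := by
  induction n with
  | zero => intro j; exact ⟨∅, by simp, by simp [StrictMonoOn], by simp, by simp [evs]⟩
  | succ n ih =>
    intro j
    rw [evs_succ, run_snoc]
    have hsub : range n ⊆ range (n + 1) := range_subset_range.mpr (Nat.le_succ n)
    simp only [step]
    by_cases hj : x n < j
    · rw [if_pos hj]
      rcases le_total (run (fun _ => 0) (evs x n) (x n) + 1) (run (fun _ => 0) (evs x n) j) with h | h
      · rw [max_eq_left h]
        obtain ⟨s, h1, h2, h3, h4⟩ := ih j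
        exact ⟨s, h1.trans hsub, h2, h3, h4⟩
      · rw [max_eq_right h]
        obtain ⟨s, h1, h2, h3, h4⟩ := ih (x n)
        have hns : n ∉ s := fun hn => by simpa using h1 hn
        refine ⟨insert n s, ?_, ?_, ?_, ?_⟩
        · intro i hi
          rcases mem_insert.mp hi with rfl | hi
          · simp
          · exact hsub (h1 hi)
        · intro a ha b hb hab
          rw [mem_coe, mem_insert] at ha hb
          rcases ha with rfl | ha
          · rcases hb with rfl | hb
            · exact absurd hab (lt_irrefl _)
            · have := mem_range.mp (h1 hb)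
              omega
          · rcases hb with rfl | hb
            · exact h3 a ha
            · exact h2 ha hb hab
        · intro i hi
          rcases mem_insert.mp hi with rfl | hi
          · exact hj
          · exact (h3 i hi).trans hj
        · rw [card_insert_of_notMem hns, h4]
    · rw [if_neg hj]
      obtain ⟨s, h1, h2, h3, h4⟩ := ih j
      exact ⟨s, h1.trans hsub, h2, h3, h4⟩

lemma lis_bddAbove (x : ℕ → ℕ) (n : ℕ) :
    BddAbove {k : ℕ | ∃ s : Finset ℕ, s ⊆ range n ∧ s.card = k ∧ StrictMonoOn x s} := by
  refine ⟨n, ?_⟩
  rintro k ⟨s, h1, rfl, -⟩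
  simpa using card_le_card h1

lemma le_lis (x : ℕ → ℕ) (n : ℕ) (s : Finset ℕ) (h1 : s ⊆ range n) (h2 : StrictMonoOn x s) :
    s.card ≤ lis x n := le_csSup (lis_bddAbove x n) ⟨s, h1, rfl, h2⟩

lemma lis_attained (x : ℕ → ℕ) (n : ℕ) :
    ∃ s : Finset ℕ, s ⊆ range n ∧ s.card = lis x n ∧ StrictMonoOn x s := by
  have := Nat.sSup_mem (s := {k : ℕ | ∃ s : Finset ℕ, s ⊆ range n ∧ s.card = k ∧ StrictMonoOn x s})
    ⟨0, ∅, by simp, by simp, by simp [StrictMonoOn]⟩ (lis_bddAbove x n)
  exact this

lemma lis_le (x : ℕ → ℕ) (n : ℕ) : lis x n ≤ n := by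
  obtain ⟨s, h1, h2, -⟩ := lis_attained x n
  rw [← h2]
  simpa using card_le_card h1

lemma run_le_lis (x : ℕ → ℕ) (n j : ℕ) : run (fun _ => 0) (evs x n) j ≤ lis x n := by
  obtain ⟨s, h1, h2, -, h4⟩ := exists_chain x n j
  rw [← h4]
  exact le_lis x n s h1 h2

lemma lis_eq_run (x : ℕ → ℕ) (n j : ℕ) (hj : ∀ i < n, x i < j) :
    lis x n = run (fun _ => 0) (evs x n) j := by
  apply le_antisymm _ (run_le_lis x n j)
  obtain ⟨s, h1, h2, h3⟩ := lis_attained x n
  rw [← h2]
  exact chain_le x n j s h1 h3 fun i hi => hj i (mem_range.mp (h1 hi))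

lemma lis_mono (x : ℕ → ℕ) {n n' : ℕ} (h : n ≤ n') : lis x n ≤ lis x n' := by
  obtain ⟨s, h1, h2, h3⟩ := lis_attained x n
  rw [← h2]
  exact le_lis x n' s (h1.trans (range_subset_range.mpr h)) h3

lemma lis_succ_le (x : ℕ → ℕ) (n : ℕ) : lis x (n + 1) ≤ lis x n + 1 := by
  obtain ⟨s, h1, h2, h3⟩ := lis_attained x (n + 1)
  rw [← h2]
  have h4 : (s.erase n).card ≤ lis x n := by
    apply le_lis
    · intro i hi
      have h5 := h1 (mem_of_mem_erase hi)
      have h6 := ne_of_mem_erase hi
      simp only [mem_range] at h5 ⊢
      omega
    · exact h3.mono (by exact_mod_cast erase_subset n s)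
  have h5 := pred_card_le_card_erase (s := s) (a := n)
  omega

/-! ### Exit points -/

/-- number of sources. -/
def ns (l : List Ev) : ℕ := run (fun _ => 0) (l.map fS) 0

lemma run_zero_eq (h0 : ℕ → ℕ) (l : List Ev) : run h0 l 0 = h0 0 + ns l := by
  unfold ns
  induction l using List.reverseRecOn with
  | nil => simp
  | append_singleton l e ih =>
    rw [List.map_append, List.map_singleton, run_snoc, run_snoc]
    cases e with
    | nul => simp only [fS, step_nul]; exact ih
    | src => simp only [fS, step]; omega
    | el i => simp only [fS, step, Nat.not_lt_zero, if_false]; exact ih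

lemma ns_append (l l' : List Ev) : ns (l ++ l') = ns l + ns l' := by
  have h1 := run_zero_eq (fun _ => 0) (l ++ l')
  rw [run_append, run_zero_eq (run (fun _ => 0) l) l', run_zero_eq] at h1
  omega

lemma ns_take_mono (l : List Ev) {z z' : ℕ} (h : z ≤ z') : ns (l.take z) ≤ ns (l.take z') := by
  have : l.take z' = l.take z ++ (l.drop z).take (z' - z) := by
    conv_lhs => rw [show z' = z + (z' - z) by omega, List.take_add]
  rw [this, ns_append]
  omega

lemma run_drop_anti (l : List Ev) {z z' : ℕ} (h : z ≤ z') (j : ℕ) :
    run (fun _ => 0) ((l.drop z').map fL) j ≤ run (fun _ => 0) ((l.drop z).map fL) j := by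
  have : l.drop z = (l.drop z).take (z' - z) ++ l.drop z' := by
    have h1 : l.drop z' = (l.drop z).drop (z' - z) := by
      rw [List.drop_drop]; congr 1; omega
    rw [h1, List.take_append_drop]
  rw [this, List.map_append, run_append]
  exact run_mono _ (fun _ => Nat.zero_le _) j

lemma run_fG_anti (l : List Ev) {j j' : ℕ} (h : j ≤ j') (m : ℕ) :
    run (fun _ => 0) (l.map (fG j')) m ≤ run (fun _ => 0) (l.map (fG j)) m := by
  have : l.map (fG j') = (l.map (fG j)).map (fG j') := by
    rw [List.map_map]
    congr 1
    funext e
    cases e with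
    | nul => rfl
    | src => rfl
    | el i =>
      simp only [fG, Function.comp]
      by_cases h1 : j ≤ i
      · simp [h1]
      · have h2 : ¬ j' ≤ i := by omega
        simp [h1, h2]
  rw [this]
  exact run_filt_le (fG_filt j') _ _ _

/-- The exit decomposition. -/
theorem exit_decomp (h0 : ℕ → ℕ) (h00 : h0 0 = 0) (l : List Ev) : ∀ j' : ℕ,
    (∃ z ≤ l.length, run h0 l j' ≤ ns (l.take z) + run (fun _ => 0) ((l.drop z).map fL) j') ∨
    (∃ j ≤ j', run h0 l j' ≤ h0 j + run (fun _ => 0) (l.map (fG j)) j') := by
  induction l using List.reverseRecOn with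
  | nil => intro j'; exact Or.inr ⟨j', le_rfl, by simp⟩
  | append_singleton l e ih =>
    -- transfer of the unchanged value
    have keep : ∀ j', (∃ z ≤ (l ++ [e]).length, run h0 l j' ≤ ns ((l ++ [e]).take z) +
          run (fun _ => 0) (((l ++ [e]).drop z).map fL) j') ∨
        (∃ j ≤ j', run h0 l j' ≤ h0 j + run (fun _ => 0) ((l ++ [e]).map (fG j)) j') := by
      intro j'
      rcases ih j' with ⟨z, hz, h1⟩ | ⟨j, hj, h1⟩
      · left
        refine ⟨z, by simp; omega, h1.trans ?_⟩
        rw [List.take_append_of_le_length hz, List.drop_append_of_le_length hz, List.map_append,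
          List.map_singleton, run_snoc]
        have := le_step (fL e) (run (fun _ => 0) ((l.drop z).map fL)) j'
        omega
      · right
        refine ⟨j, hj, h1.trans ?_⟩
        rw [List.map_append, List.map_singleton, run_snoc]
        have := le_step (fG j e) (run (fun _ => 0) (l.map (fG j))) j'
        omega
    intro j'
    rw [run_snoc]
    cases e with
    | nul => exact keep j'
    | src =>
      simp only [step]
      rcases le_total (run h0 l 0 + 1) (run h0 l j') with h | h
      · rw [max_eq_left h]; exact keep j'
      · rw [max_eq_right h]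
        left
        refine ⟨(l ++ [src]).length, le_rfl, ?_⟩
        rw [List.take_length, ns_append, run_zero_eq, h00]
        have : ns [src] = 1 := by simp [ns, fS, step]
        omega
    | el i =>
      simp only [step]
      split_ifs with hij
      · rcases le_total (run h0 l i + 1) (run h0 l j') with h | h
        · rw [max_eq_left h]; exact keep j'
        · rw [max_eq_right h]
          rcases ih i with ⟨z, hz, h1⟩ | ⟨j, hj, h1⟩
          · left
            refine ⟨z, by simp; omega, ?_⟩
            rw [List.take_append_of_le_length hz, List.drop_append_of_le_length hz, List.map_append,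
              List.map_singleton, run_snoc]
            simp only [fL, step, if_pos hij]
            have := le_max_right (run (fun _ => 0) ((l.drop z).map fL) j')
              (run (fun _ => 0) ((l.drop z).map fL) i + 1)
            omega
          · right
            refine ⟨j, by omega, ?_⟩
            rw [List.map_append, List.map_singleton, run_snoc]
            simp only [fG, if_pos hj, step, if_pos hij]
            have := le_max_right (run (fun _ => 0) (l.map (fG j)) j')
              (run (fun _ => 0) (l.map (fG j)) i + 1)
            omega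
      · exact keep j'

/-- superadditivity -/
lemma le_run_fG (h : ℕ → ℕ) (hh : Monotone h) (l : List Ev) (j : ℕ) : ∀ j' : ℕ, j ≤ j' →
    h j + run (fun _ => 0) (l.map (fG j)) j' ≤ run h l j' := by
  induction l using List.reverseRecOn with
  | nil => intro j' hj'; simpa using hh hj'
  | append_singleton l e ih =>
    intro j' hj'
    rw [List.map_append, List.map_singleton, run_snoc, run_snoc]
    cases e with
    | nul => exact ih j' hj'
    | src =>
      simp only [fG, step_nul]
      exact (ih j' hj').trans (le_step _ _ _)
    | el i =>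
      simp only [fG]
      split_ifs with hji
      · simp only [step]
        split_ifs with hij
        · have h1 := ih j' hj'
          have h2 := ih i hji
          omega
        · exact ih j' hj'
      · simp only [step_nul]
        exact (ih j' hj').trans (le_step _ _ _)

end Pool.Agent.Lib.MP_6ef346_pr
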