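import Pool.Agent.Lib.MP_6ef346_pr.Rate

/-!
The main theorem.
-/

open Finset MeasureTheory ProbabilityTheory Filter Topology

namespace Pool.Agent.Lib.MP_6ef346_pr

open Ev

set_option linter.unusedSectionVars false

section
variable {Ω : Type*} [MeasurableSpace Ω] {μ : Measure Ω} [IsProbabilityMeasure μ]
  {X : ℕ → Ω → ℕ} (hX : ∀ k, Measurable (X k)) (hind : iIndepFun X μ)
  {p : ℕ → ℝ} (hlaw : ∀ k i, μ.real (X k ⁻¹' {i}) = p i)

lemma LL_mono (ω : Ω) : Monotone fun n => LL X n ω := by
  intro a b hab
  simp only [LL]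
  exact_mod_cast lis_mono _ hab

include hX hlaw in
lemma p_tsum : ∑' i, p i = 1 := by
  have h1 : Tendsto (fun m => ∫ ω, (if m ≤ X 0 ω then (1 : ℝ) else 0) ∂μ) atTop (𝓝 0) := by
    have h2 : Tendsto (fun m => ∫ ω, (if m ≤ X 0 ω then (1 : ℝ) else 0) ∂μ) atTop
        (𝓝 (∫ _ω, (0 : ℝ) ∂μ)) := by
      apply tendsto_integral_of_dominated_convergence (fun _ => 1)
      · intro m
        exact ((measurable_of_countable (fun k : ℕ => if m ≤ k then (1 : ℝ) else 0)).comp
          (hX 0)).aestronglyMeasurable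
      · exact integrable_const _
      · intro m
        refine Eventually.of_forall fun ω => ?_
        split_ifs <;> simp
      · refine Eventually.of_forall fun ω => ?_
        apply tendsto_const_nhds.congr'
        filter_upwards [eventually_gt_atTop (X 0 ω)] with m hm
        rw [if_neg (by omega)]
    simpa using h2
  have h3 : Tendsto (fun m => ∑ i ∈ range m, p i) atTop (𝓝 (∑' i, p i)) :=
    (p_summable (μ := μ) hX hlaw).hasSum.tendsto_sum_nat
  have h4 : Tendsto (fun m => ∑ i ∈ range m, p i) atTop (𝓝 (1 - 0)) := by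
    have h5 := (tendsto_const_nhds (x := (1 : ℝ))).sub h1
    refine h5.congr fun m => ?_
    rw [integral_ind_ge (μ := μ) hX hlaw m 0]
    ring
  rw [sub_zero] at h4
  exact tendsto_nhds_unique h3 h4

include hX hind hlaw in
/-- infinite support -/
lemma main_infinite (hinf : {i | p i ≠ 0}.Infinite) :
    ∀ᵐ ω ∂μ, Tendsto (fun n : ℕ => LL X n ω / fRate p n) atTop (𝓝 1) := by
  classical
  have hp := p_nonneg (μ := μ) (X := X) hlaw
  have hs := p_summable (μ := μ) hX hlaw
  have hs1 := p_tsum_le (μ := μ) hX hlaw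
  -- the rate tends to infinity
  have hfinf : Tendsto (fun n : ℕ => fRate p n) atTop atTop := by
    rw [tendsto_atTop]
    intro B
    obtain ⟨N, hN⟩ := exists_nat_gt (B + 1)
    obtain ⟨A, hA1, hA2⟩ := hinf.exists_subset_card_eq (N + 1)
    have hA0 : A.Nonempty := by
      rw [← Finset.card_pos, hA2]; omega
    obtain ⟨i0, hi0, hi1⟩ := A.exists_min_image p hA0
    have hc : 0 < p i0 := lt_of_le_of_ne (hp i0) (Ne.symm (hA1 hi0))
    have h1 : Tendsto (fun n : ℕ => ((N + 1 : ℕ) : ℝ) * (n * p i0 / (n * p i0 + ((N + 1 : ℕ) : ℝ))))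
        atTop (𝓝 (((N + 1 : ℕ) : ℝ) * 1)) := by
      apply Tendsto.const_mul
      have h2 : Tendsto (fun n : ℕ => (n : ℝ) * p i0) atTop atTop :=
        tendsto_natCast_atTop_atTop.atTop_mul_const hc
      have h3 : Tendsto (fun n : ℕ => 1 - ((N + 1 : ℕ) : ℝ) * ((n : ℝ) * p i0 + ((N + 1 : ℕ) : ℝ))⁻¹)
          atTop (𝓝 (1 - ((N + 1 : ℕ) : ℝ) * 0)) := by
        apply tendsto_const_nhds.sub
        apply Tendsto.const_mul
        exact (tendsto_atTop_add_const_right _ _ h2).inv_tendsto_atTop
      rw [mul_zero, sub_zero] at h3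
      refine h3.congr fun n => ?_
      have : 0 < (n : ℝ) * p i0 + ((N + 1 : ℕ) : ℝ) := by positivity
      field_simp
      ring
    have h2 : ∀ᶠ n : ℕ in atTop, B <
        ((N + 1 : ℕ) : ℝ) * (n * p i0 / (n * p i0 + ((N + 1 : ℕ) : ℝ))) :=
      h1.eventually (lt_mem_nhds (by push_cast; linarith))
    filter_upwards [h2, eventually_gt_atTop 0] with n h3 h4
    have h5 := fRate_ge hp hs A (p i0) hc hi1 n h4
    rw [hA2] at h5
    linarith
  set e : ℕ → ℝ := fun n => ∫ ω, LL X n ω ∂μ with he
  have hL : ∀ ε : ℝ, 0 < ε → ε ≤ 1 → ∃ C : ℝ, ∀ᶠ n : ℕ in atTop, (1 - ε) * fRate p n - C ≤ e n := by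
    intro ε h1 h2
    obtain ⟨C, hC⟩ := le_mean (μ := μ) hX hind hlaw ε h1 h2
    refine ⟨C, ?_⟩
    filter_upwards [eventually_gt_atTop 0] with n hn
    exact hC n hn (fRate p n) fun α hα => fRate_le hp hs n hn α hα
  have heinf : Tendsto e atTop atTop := by
    obtain ⟨C, hC⟩ := hL (1 / 2) (by norm_num) (by norm_num)
    have h1 : Tendsto (fun n : ℕ => (1 - 1 / 2) * fRate p n - C) atTop atTop := by
      apply tendsto_atTop_add_const_right
      exact hfinf.const_mul_atTop (by norm_num)
    exact tendsto_atTop_mono' _ hC h1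
  have hratio : Tendsto (fun n => e n / fRate p n) atTop (𝓝 1) := by
    apply ratio_tendsto e (fun n => fRate p n) (fun n => (2 * Real.sqrt n + 1) / n) hfinf
    · have h1 : Tendsto (fun n : ℕ => 2 * (Real.sqrt n)⁻¹ + (n : ℝ)⁻¹) atTop (𝓝 (2 * 0 + 0)) := by
        apply Tendsto.add
        · apply Tendsto.const_mul
          exact (Real.tendsto_sqrt_atTop.comp tendsto_natCast_atTop_atTop).inv_tendsto_atTop
        · exact tendsto_natCast_atTop_atTop.inv_tendsto_atTop
      rw [mul_zero, add_zero] at h1
      apply h1.congr'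
      filter_upwards [eventually_gt_atTop 0] with n hn
      have hnR : (0 : ℝ) < n := by exact_mod_cast hn
      have hsq : 0 < Real.sqrt n := Real.sqrt_pos.mpr hnR
      have h2 : (n : ℝ) = Real.sqrt n * Real.sqrt n := (Real.mul_self_sqrt hnR.le).symm
      rw [add_div, one_div]
      congr 1
      rw [eq_div_iff hnR.ne']
      nth_rewrite 2 [h2]
      field_simp
    · filter_upwards [eventually_gt_atTop 0] with n hn
      have hnR : (0 : ℝ) < n := by exact_mod_cast hn
      obtain ⟨α, hα, h1⟩ := exists_near hp hs n hn 1 one_pos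
      have h2 := mean_le (μ := μ) hX hind hlaw n α hα
      have h3 := fRate_le_sqrt hp hs hs1 n hn
      have h4 : 0 ≤ ∑' i, p i / (p i + α) := tsum_nonneg fun i => by
        have := hp i
        positivity
      have h5 : α ≤ (2 * Real.sqrt n + 1) / n := by
        rw [le_div_iff₀ hnR]
        unfold VV at h1
        linarith
      have hf0 : 0 ≤ fRate p n := ENNReal.toReal_nonneg
      have h6 : (1 + α) * VV p n α ≤ (1 + (2 * Real.sqrt n + 1) / n) * (fRate p n + 1) :=
        mul_le_mul (by linarith) h1 (VV_nonneg hp hs n α hα) (by positivity)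
      exact h2.trans h6
    · exact hL
  have has := as_of_var (μ := μ) (LL X) (fun ω => LL_mono ω) (fun n => LL_memLp hX n)
    (fun n => var_le hX hind hlaw n)
    (by
      have : ∀ ω, LL X 0 ω = 0 := by
        intro ω
        have := LL_le (X := X) 0 ω
        have := LL_nonneg (X := X) 0 ω
        simp only [Nat.cast_zero] at *
        linarith
      simp [this])
    (fun n => by
      rw [← sub_le_iff_le_add', ← integral_sub (LL_integrable hX (n + 1)) (LL_integrable hX n)]
      have h1 : ∫ ω, (LL X (n + 1) ω - LL X n ω) ∂μ ≤ ∫ _ω, (1 : ℝ) ∂μ := by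
        apply integral_mono ((LL_integrable hX (n + 1)).sub (LL_integrable hX n))
          (integrable_const _)
        intro ω
        have h2 := lis_succ_le (fun k => X k ω) n
        have h3 : LL X (n + 1) ω ≤ LL X n ω + 1 := by
          simp only [LL]
          exact_mod_cast h2
        change LL X (n + 1) ω - LL X n ω ≤ 1
        linarith
      simpa using h1)
    heinf
  filter_upwards [has] with ω hω
  have h1 := hω.mul hratio
  rw [mul_one] at h1
  apply h1.congr'
  filter_upwards [heinf.eventually_gt_atTop 0] with n hn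
  have : (∫ ω, LL X n ω ∂μ) ≠ 0 := hn.ne'
  simp only [he]
  field_simp

include hX hind hlaw in
/-- finite support -/
lemma main_finite (hfin : {i | p i ≠ 0}.Finite) :
    ∀ᵐ ω ∂μ, Tendsto (fun n : ℕ => LL X n ω / fRate p n) atTop (𝓝 1) := by
  classical
  have hp := p_nonneg (μ := μ) (X := X) hlaw
  have hs := p_summable (μ := μ) hX hlaw
  set S : Finset ℕ := hfin.toFinset with hS
  have hSmem : ∀ i, i ∈ S ↔ p i ≠ 0 := fun i => by simp [hS]
  have hSne : S.Nonempty := by
    by_contra hcon
    rw [Finset.not_nonempty_iff_eq_empty] at hcon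
    have h1 : ∀ i, p i = 0 := by
      intro i
      by_contra h
      have := (hSmem i).mpr h
      rw [hcon] at this
      simp at this
    have h2 := p_tsum (μ := μ) hX hlaw
    simp [h1] at h2
  set K := S.card with hK
  have hK0 : 0 < K := Finset.card_pos.mpr hSne
  have hKR : (0 : ℝ) < K := by exact_mod_cast hK0
  obtain ⟨i0, hi0, hi1⟩ := S.exists_min_image p hSne
  have hc : 0 < p i0 := lt_of_le_of_ne (hp i0) (Ne.symm ((hSmem i0).mp hi0))
  -- the rate tends to `K`
  have hfK : Tendsto (fun n : ℕ => fRate p n) atTop (𝓝 K) := by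
    have h1 : Tendsto (fun n : ℕ => (K : ℝ) * (n * p i0 / (n * p i0 + (K : ℝ)))) atTop
        (𝓝 ((K : ℝ) * 1)) := by
      apply Tendsto.const_mul
      have h2 : Tendsto (fun n : ℕ => (n : ℝ) * p i0) atTop atTop :=
        tendsto_natCast_atTop_atTop.atTop_mul_const hc
      have h3 : Tendsto (fun n : ℕ => 1 - (K : ℝ) * ((n : ℝ) * p i0 + (K : ℝ))⁻¹)
          atTop (𝓝 (1 - (K : ℝ) * 0)) := by
        apply tendsto_const_nhds.sub
        apply Tendsto.const_mul
        exact (tendsto_atTop_add_const_right _ _ h2).inv_tendsto_atTop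
      rw [mul_zero, sub_zero] at h3
      refine h3.congr fun n => ?_
      have : 0 < (n : ℝ) * p i0 + (K : ℝ) := by positivity
      field_simp
      ring
    rw [mul_one] at h1
    refine tendsto_of_tendsto_of_tendsto_of_le_of_le' h1 tendsto_const_nhds ?_ ?_
    · filter_upwards [eventually_gt_atTop 0] with n hn
      exact fRate_ge hp hs S (p i0) hc hi1 n hn
    · filter_upwards [eventually_gt_atTop 0] with n hn
      have hnR : (0 : ℝ) < n := by exact_mod_cast hn
      apply le_of_forall_pos_le_add
      intro η hη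
      have h2 := fRate_le hp hs n hn (η / n) (by positivity)
      refine h2.trans ?_
      unfold VV
      have h3 : ∑' i, p i / (p i + η / n) = ∑ i ∈ S, p i / (p i + η / n) := by
        apply tsum_eq_sum
        intro i hi
        have : p i = 0 := by
          by_contra h
          exact hi ((hSmem i).mpr h)
        rw [this]; simp
      rw [h3]
      have h4 : ∑ i ∈ S, p i / (p i + η / n) ≤ ∑ i ∈ S, (1 : ℝ) := by
        apply sum_le_sum
        intro i _
        have := hp i
        have h5 : 0 < η / n := by positivity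
        rw [div_le_one (by linarith)]
        linarith
      rw [sum_const, nsmul_eq_mul, mul_one] at h4
      have h5 : η / n * n = η := by field_simp
      rw [h5]
      linarith
  -- the length is at most `K`
  have hup : ∀ᵐ ω ∂μ, ∀ n, LL X n ω ≤ K := by
    have h1 : ∀ᵐ ω ∂μ, ∀ k : ℕ, X k ω ∈ S := by
      rw [ae_all_iff]
      intro k
      have h2 : ∀ i, i ∉ S → μ (X k ⁻¹' {i}) = 0 := by
        intro i hi
        have h3 : p i = 0 := by
          by_contra h
          exact hi ((hSmem i).mpr h)
        have h4 := hlaw k i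
        rw [h3, Measure.real, ENNReal.toReal_eq_zero_iff] at h4
        rcases h4 with h4 | h4
        · exact h4
        · exact absurd h4 (measure_ne_top μ _)
      rw [ae_iff]
      have h3 : {ω | ¬ X k ω ∈ S} ⊆ ⋃ i ∈ {i : ℕ | i ∉ S}, X k ⁻¹' {i} := by
        intro ω hω
        simp only [Set.mem_iUnion]
        exact ⟨X k ω, hω, rfl⟩
      refine measure_mono_null h3 ?_
      rw [measure_biUnion_null_iff (Set.to_countable _)]
      intro i hi
      exact h2 i hi
    filter_upwards [h1] with ω hω
    intro n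
    obtain ⟨s, hs1, hs2, hs3⟩ := lis_attained (fun k => X k ω) n
    have h2 : s.card ≤ S.card := by
      apply Finset.card_le_card_of_injOn (fun k => X k ω)
      · intro k _
        exact hω k
      · exact hs3.injOn
    simp only [LL]
    rw [← hs2]
    exact_mod_cast h2
  -- the mean length is close to `K`
  set Λ : ℝ := ∑ i ∈ S, 1 / p i with hΛ
  have hΛ0 : 0 ≤ Λ := sum_nonneg fun i _ => by
    have := hp i
    positivity
  obtain ⟨m, hm⟩ := S.exists_nat_subset_range
  have hs0 : 0 + ∑ i ∈ range m, p i ≤ 1 := by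
    rw [zero_add]; exact p_sum_le (μ := μ) hX hlaw m
  have hmean : ∀ n : ℕ, 0 < n → 2 * Λ ≤ n → (K : ℝ) * (1 - 4 * Λ / n) ≤ ∫ ω, LL X n ω ∂μ := by
    intro n hn hn2
    have hnR : (0 : ℝ) < n := by exact_mod_cast hn
    have h1 := greedy_mean p hp m hs0 Λ hΛ0 n hn (1 / 2) (by norm_num) S
      (fun i hi => ⟨mem_range.mp (hm hi), lt_of_le_of_ne (hp i) (Ne.symm ((hSmem i).mp hi)),
        single_le_sum (f := fun i => 1 / p i) (fun j _ => by
          have := hp j
          positivity) hi⟩)
      (by linarith)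
    rw [← integral_ZZ hX hind hlaw m hp hs0 n (fun l => (run (fun _ => 0) l m : ℝ))] at h1
    have h2 : ∫ ω, (run (fun _ => 0) (ZZ m (fun k => X k ω) n) m : ℝ) ∂μ ≤ ∫ ω, LL X n ω ∂μ := by
      apply integral_mono (integrable_ZZ hX m n (fun l => (run (fun _ => 0) l m : ℝ)))
        (LL_integrable hX n)
      intro ω
      simp only [LL]
      exact_mod_cast run_ZZ_le m (fun k => X k ω) n
    have h3 : Λ / ((1 / 2) ^ 2 * n) = 4 * Λ / n := by field_simp; norm_num
    rw [h3] at h1
    exact h1.trans h2
  -- the bad event is null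
  have hnull : μ.real {ω | ∀ n, LL X n ω < K} ≤ 0 := by
    have h1 : ∀ᶠ n : ℕ in atTop, μ.real {ω | ∀ n, LL X n ω < K} ≤ K * (4 * Λ) * (n : ℝ)⁻¹ := by
      obtain ⟨N, hN⟩ := exists_nat_ge (2 * Λ)
      filter_upwards [eventually_gt_atTop 0, eventually_ge_atTop N] with n hn hnN
      have h2 : 2 * Λ ≤ n := hN.trans (by exact_mod_cast hnN)
      have h3 := hmean n hn h2
      have h4 : μ.real {ω | ∀ n, LL X n ω < K} ≤ μ.real {ω | 1 ≤ K - LL X n ω} := by
        apply measureReal_mono
        · intro ω hω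
          have h5 := hω n
          simp only [LL] at h5
          have h6 : lis (fun k => X k ω) n < K := by exact_mod_cast h5
          have h7 : (lis (fun k => X k ω) n : ℝ) + 1 ≤ K := by exact_mod_cast h6
          change 1 ≤ (K : ℝ) - LL X n ω
          simp only [LL]
          linarith
        · exact measure_ne_top μ _
      have h5 : 1 * μ.real {ω | 1 ≤ K - LL X n ω} ≤ ∫ ω, (K - LL X n ω) ∂μ := by
        apply mul_meas_ge_le_integral_of_nonneg
        · filter_upwards [hup] with ω hω
          have := hω n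
          simp only [Pi.zero_apply]
          linarith
        · exact (integrable_const _).sub (LL_integrable hX n)
      rw [integral_sub (integrable_const _) (LL_integrable hX n)] at h5
      simp only [integral_const, probReal_univ, smul_eq_mul, one_mul] at h5
      have hnR : (0 : ℝ) < n := by exact_mod_cast hn
      have h6 : (K : ℝ) * (1 - 4 * Λ / n) = K - K * (4 * Λ) * (n : ℝ)⁻¹ := by
        field_simp
      rw [h6] at h3
      linarith
    have h2 : Tendsto (fun n : ℕ => K * (4 * Λ) * (n : ℝ)⁻¹) atTop (𝓝 (K * (4 * Λ) * 0)) :=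
      Tendsto.const_mul _ tendsto_natCast_atTop_atTop.inv_tendsto_atTop
    rw [mul_zero] at h2
    exact ge_of_tendsto h2 h1
  have hex : ∀ᵐ ω ∂μ, ∃ n, (K : ℝ) ≤ LL X n ω := by
    rw [ae_iff]
    have h1 : {ω | ¬ ∃ n, (K : ℝ) ≤ LL X n ω} = {ω | ∀ n, LL X n ω < K} := by
      ext ω
      simp
    rw [h1]
    have h2 : μ.real {ω | ∀ n, LL X n ω < K} = 0 := le_antisymm hnull measureReal_nonneg
    rw [Measure.real, ENNReal.toReal_eq_zero_iff] at h2
    rcases h2 with h2 | h2
    · exact h2
    · exact absurd h2 (measure_ne_top μ _)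
  filter_upwards [hup, hex] with ω h1 h2
  obtain ⟨N, hN⟩ := h2
  have h3 : Tendsto (fun n : ℕ => LL X n ω) atTop (𝓝 K) := by
    apply tendsto_const_nhds.congr'
    filter_upwards [eventually_ge_atTop N] with n hn
    exact le_antisymm (hN.trans (LL_mono ω hn)) (h1 n)
  have h4 := h3.div hfK hKR.ne'
  rwa [div_self hKR.ne'] at h4

include hX hind hlaw in
/-- **The main theorem.** -/
theorem main_theorem :
    ∀ᵐ ω ∂μ, Tendsto (fun n : ℕ => (lis (fun k => X k ω) n : ℝ) / fRate p n) atTop (𝓝 1) := by
  rcases Set.finite_or_infinite {i | p i ≠ 0} with h | h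
  · exact main_finite hX hind hlaw h
  · exact main_infinite hX hind hlaw h

end

end Pool.Agent.Lib.MP_6ef346_pr
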