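import Pool.Agent.Lib.MP_6ef346_pr.Thin

/-!
The lower bound for the mean over a finite alphabet, uniformly in the alphabet.
-/

open Finset

namespace Pool.Agent.Lib.MP_6ef346_pr

open Ev

/-- the case in which all letters can be collected. -/
lemma caseI (ε : ℝ) (hε : 0 < ε) (hε1 : ε ≤ 1) (m : ℕ) (p : ℕ → ℝ) (hp : ∀ i, 0 ≤ p i)
    (hs0 : 0 + ∑ i ∈ range m, p i ≤ 1) (n : ℕ) (hn0 : 0 < n) (f : ℝ)
    (hf : ∀ α : ℝ, 0 < α → f ≤ α * n + ∑ i ∈ range m, p i / (p i + α))
    (hcost : (1 + ε) * ∑ i ∈ range m, 1 / p i ≤ n) :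
    (1 - ε) * f - 4 / ε ^ 3 ≤
      (iid (evM 0 p m le_rfl hp hs0) n).E (fun l => (run (fun _ => 0) l m : ℝ)) := by
  classical
  have hnR : (0 : ℝ) < n := by exact_mod_cast hn0
  set δ₂ : ℝ := (ε / 2) ^ 2 * ε with hδ₂
  have hδ₂0 : 0 < δ₂ := by positivity
  set Λ : ℝ := δ₂ * n with hΛ
  set B := (range m).filter (fun i => 0 < p i) with hB
  set A := B.filter (fun i => 1 / p i ≤ Λ) with hA
  have hBmem : ∀ i ∈ B, i < m ∧ 0 < p i := by
    intro i hi
    simpa [hB] using hi
  have hBsum : ∑ i ∈ B, 1 / p i ≤ ∑ i ∈ range m, 1 / p i := by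
    apply sum_le_sum_of_subset_of_nonneg (filter_subset _ _)
    intro i _ _
    have := hp i
    positivity
  have hS0 : 0 ≤ ∑ i ∈ range m, 1 / p i := sum_nonneg fun i _ => by
    have := hp i
    positivity
  have hcost2 : ∑ i ∈ range m, 1 / p i ≤ (1 - ε / 2) * n := by
    have h1 : (1 : ℝ) ≤ (1 - ε / 2) * (1 + ε) := by nlinarith
    calc ∑ i ∈ range m, 1 / p i = 1 * ∑ i ∈ range m, 1 / p i := by ring
      _ ≤ ((1 - ε / 2) * (1 + ε)) * ∑ i ∈ range m, 1 / p i := mul_le_mul_of_nonneg_right h1 hS0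
      _ = (1 - ε / 2) * ((1 + ε) * ∑ i ∈ range m, 1 / p i) := by ring
      _ ≤ (1 - ε / 2) * n := mul_le_mul_of_nonneg_left hcost (by linarith)
  have hfB : f ≤ B.card := by
    have h1 : ∀ α : ℝ, 0 < α → f ≤ α * n + B.card := by
      intro α hα
      refine (hf α hα).trans (add_le_add le_rfl ?_)
      have h2 : ∑ i ∈ range m, p i / (p i + α) ≤ ∑ i ∈ range m, if 0 < p i then (1 : ℝ) else 0 := by
        apply sum_le_sum
        intro i _
        split_ifs with h
        · rw [div_le_one (by linarith)]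
          linarith
        · have : p i = 0 := le_antisymm (not_lt.mp h) (hp i)
          rw [this]
          simp
      refine h2.trans (le_of_eq ?_)
      rw [sum_boole]
    by_contra hcon
    push Not at hcon
    have h2 := h1 ((f - B.card) / (2 * n)) (by
      have : 0 < f - B.card := by linarith
      positivity)
    have h3 : (f - B.card) / (2 * n) * n = (f - B.card) / 2 := by field_simp
    rw [h3] at h2
    linarith
  have hcardA : (B.card : ℝ) - 1 / δ₂ ≤ A.card := by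
    have h1 : B.card = A.card + (B.filter (fun i => ¬ 1 / p i ≤ Λ)).card := by
      rw [hA, card_filter_add_card_filter_not]
    have h2 : ((B.filter (fun i => ¬ 1 / p i ≤ Λ)).card : ℝ) * Λ ≤ n := by
      calc ((B.filter (fun i => ¬ 1 / p i ≤ Λ)).card : ℝ) * Λ =
          ∑ i ∈ B.filter (fun i => ¬ 1 / p i ≤ Λ), Λ := by rw [sum_const, nsmul_eq_mul]
        _ ≤ ∑ i ∈ B.filter (fun i => ¬ 1 / p i ≤ Λ), 1 / p i := by
            apply sum_le_sum
            intro i hi
            exact (not_le.mp (mem_filter.mp hi).2).le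
        _ ≤ ∑ i ∈ B, 1 / p i := by
            apply sum_le_sum_of_subset_of_nonneg (filter_subset _ _)
            intro i hi _
            have := hp i
            positivity
        _ ≤ (1 - ε / 2) * n := hBsum.trans hcost2
        _ ≤ n := by nlinarith
    have h3 : ((B.filter (fun i => ¬ 1 / p i ≤ Λ)).card : ℝ) ≤ 1 / δ₂ := by
      rw [le_div_iff₀ hδ₂0]
      have h4 : ((B.filter (fun i => ¬ 1 / p i ≤ Λ)).card : ℝ) * δ₂ * n ≤ 1 * n := by
        rw [hΛ] at h2
        linarith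
      exact le_of_mul_le_mul_right h4 hnR
    have h5 : (B.card : ℝ) = A.card + ((B.filter (fun i => ¬ 1 / p i ≤ Λ)).card : ℝ) := by
      exact_mod_cast h1
    linarith
  have hΛ0 : 0 ≤ Λ := by positivity
  have h1 := greedy_mean p hp m hs0 Λ hΛ0 n hn0 (ε / 2) (by positivity) A
    (fun i hi => by
      rw [hA, mem_filter] at hi
      exact ⟨(hBmem i hi.1).1, (hBmem i hi.1).2, hi.2⟩)
    (by
      refine le_trans ?_ (hBsum.trans hcost2)
      apply sum_le_sum_of_subset_of_nonneg (filter_subset _ _)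
      intro i hi _
      have := hp i
      positivity)
  have h2 : Λ / ((ε / 2) ^ 2 * n) = ε := by
    rw [hΛ, hδ₂]
    field_simp
  rw [h2] at h1
  refine le_trans ?_ h1
  have h3 : 1 / δ₂ = 4 / ε ^ 3 := by rw [hδ₂]; field_simp; norm_num
  rw [h3] at hcardA
  have h4 : f - 4 / ε ^ 3 ≤ A.card := by linarith
  have h5 : (f - 4 / ε ^ 3) * (1 - ε) ≤ (A.card : ℝ) * (1 - ε) :=
    mul_le_mul_of_nonneg_right h4 (by linarith)
  have h6 : 0 ≤ 4 / ε ^ 3 := by positivity
  have h7 : 4 / ε ^ 3 * (1 - ε) ≤ 4 / ε ^ 3 := mul_le_of_le_one_right h6 (by linarith)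
  linarith

/-- the critical intensity -/
lemma exists_alpha (m : ℕ) (p : ℕ → ℝ) (hp : ∀ i, 0 ≤ p i) (hs0 : ∑ i ∈ range m, p i ≤ 1)
    (T : ℝ) (hT3 : 3 < T) (hT : T < ∑ i ∈ range m, 1 / p i) :
    ∃ α : ℝ, 0 < α ∧ α ^ 2 * T ≤ 3 ∧ (1 + 2 * α) * ∑ i ∈ range m, p i / (p i + α) ^ 2 = T := by
  set G : ℝ → ℝ := fun α => (1 + 2 * α) * ∑ i ∈ range m, p i / (p i + α) ^ 2 with hG
  have hcont : ContinuousOn G (Set.Icc 0 1) := by
    apply ContinuousOn.mul (by fun_prop)
    apply continuousOn_finsetSum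
    intro i _
    rcases (hp i).eq_or_lt with h | h
    · rw [← h]
      simp only [zero_div]
      exact continuousOn_const
    · apply ContinuousOn.div (by fun_prop) (by fun_prop)
      intro x hx
      have := hx.1
      positivity
  have hG0 : G 0 = ∑ i ∈ range m, 1 / p i := by
    simp only [hG, mul_zero, add_zero, one_mul]
    apply sum_congr rfl
    intro i _
    rcases (hp i).eq_or_lt with h | h
    · rw [← h]; simp
    · field_simp
  have hG1 : G 1 ≤ 3 := by
    simp only [hG]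
    have : ∑ i ∈ range m, p i / (p i + 1) ^ 2 ≤ 1 := by
      refine le_trans (sum_le_sum fun i _ => ?_) hs0
      have := hp i
      rw [div_le_iff₀ (by positivity)]
      have h1 : 1 ≤ (p i + 1) ^ 2 := by nlinarith
      nlinarith
    linarith
  have hmem : T ∈ G '' Set.Icc 0 1 := by
    apply intermediate_value_Icc' (by norm_num) hcont
    exact ⟨by linarith, by rw [hG0]; exact hT.le⟩
  obtain ⟨α, ⟨hα0, hα1⟩, hα⟩ := hmem
  have hαpos : 0 < α := by
    rcases hα0.eq_or_lt with h | h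
    · rw [← h, hG0] at hα
      linarith
    · exact h
  refine ⟨α, hαpos, ?_, hα⟩
  rw [← hα]
  simp only [hG]
  have h1 : α ^ 2 * ∑ i ∈ range m, p i / (p i + α) ^ 2 ≤ 1 := by
    rw [mul_sum]
    refine le_trans (sum_le_sum fun i _ => ?_) hs0
    have := hp i
    rw [← mul_div_assoc, div_le_iff₀ (by positivity)]
    have h2 : α ^ 2 ≤ (p i + α) ^ 2 := pow_le_pow_left₀ hαpos.le (by linarith) 2
    nlinarith
  have h3 : 0 ≤ α ^ 2 * ∑ i ∈ range m, p i / (p i + α) ^ 2 := by
    have : 0 ≤ ∑ i ∈ range m, p i / (p i + α) ^ 2 := sum_nonneg fun i _ => by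
      have := hp i
      positivity
    positivity
  calc α ^ 2 * ((1 + 2 * α) * ∑ i ∈ range m, p i / (p i + α) ^ 2) =
      (1 + 2 * α) * (α ^ 2 * ∑ i ∈ range m, p i / (p i + α) ^ 2) := by ring
    _ ≤ 3 * 1 := mul_le_mul (by linarith) h1 h3 (by norm_num)
    _ = 3 := by norm_num

lemma arith5 (ε α b n T : ℝ) (hε : 0 < ε) (hε1 : ε ≤ 1) (hα0 : 0 < α) (hα3 : α ≤ ε / 8)
    (hb : b = 1 / (1 + 2 * α)) (hT2 : n ≤ (1 + ε / 4) * (T + 1)) (hT : 0 ≤ T) :
    (1 - ε) * (α * n) ≤ (1 - ε / 4) * (b * α * T) + 2 := by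
  have hb0 : 0 < b := by rw [hb]; positivity
  have h6 : α * n ≤ α * ((1 + ε / 4) * (T + 1)) := mul_le_mul_of_nonneg_left hT2 hα0.le
  have h7 : α = (1 + 2 * α) * (b * α) := by rw [hb]; field_simp
  have hεε : ε ^ 2 ≤ ε := by
    have := mul_le_mul_of_nonneg_left hε1 hε.le
    linarith
  have h10 : (1 - ε) * ((1 + ε / 4) * (1 + ε / 4)) ≤ 1 - ε / 4 := by
    linarith [pow_pos hε 3, sq_nonneg ε]
  have h8 : (1 - ε) * ((1 + ε / 4) * (1 + 2 * α)) ≤ 1 - ε / 4 := by
    have h9 : (1 + ε / 4) * (1 + 2 * α) ≤ (1 + ε / 4) * (1 + ε / 4) :=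
      mul_le_mul_of_nonneg_left (by linarith) (by positivity)
    have h11 := mul_le_mul_of_nonneg_left h9 (show (0 : ℝ) ≤ 1 - ε by linarith)
    linarith
  have h9 : (1 - ε) * (α * n) ≤ (1 - ε) * (α * ((1 + ε / 4) * (T + 1))) :=
    mul_le_mul_of_nonneg_left h6 (by linarith)
  have h10 : (1 - ε) * (α * ((1 + ε / 4) * (T + 1))) =
      ((1 - ε) * ((1 + ε / 4) * (1 + 2 * α))) * (b * α * T) + (1 - ε) * (α * (1 + ε / 4)) := by
    have h12 : (1 - ε) * (α * ((1 + ε / 4) * (T + 1))) =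
      (1 - ε) * (1 + ε / 4) * T * α + (1 - ε) * (α * (1 + ε / 4)) := by ring
    have h13 : (1 - ε) * (1 + ε / 4) * T * α = (1 - ε) * (1 + ε / 4) * T * ((1 + 2 * α) * (b * α)) := by
      rw [← h7]
    rw [h12, h13]
    ring
  have h11 : ((1 - ε) * ((1 + ε / 4) * (1 + 2 * α))) * (b * α * T) ≤
      (1 - ε / 4) * (b * α * T) := mul_le_mul_of_nonneg_right h8 (by positivity)
  have h12 : (1 - ε) * (α * (1 + ε / 4)) ≤ 2 := by
    have h14 : α * (1 + ε / 4) ≤ 1 * 2 :=
      mul_le_mul (by linarith) (by linarith) (by positivity) (by norm_num)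
    have h13 : 0 ≤ α * (1 + ε / 4) := by positivity
    have h15 : 0 ≤ ε * (α * (1 + ε / 4)) := by positivity
    linarith
  linarith

/-- **The lower bound for the mean over finite alphabets.** -/
theorem thmB (ε : ℝ) (hε : 0 < ε) (hε1 : ε ≤ 1) : ∃ C : ℝ, ∀ (m : ℕ) (p : ℕ → ℝ)
    (hp : ∀ i, 0 ≤ p i) (hs0 : 0 + ∑ i ∈ range m, p i ≤ 1) (n : ℕ) (f : ℝ),
    (∀ α : ℝ, 0 < α → f ≤ α * n + ∑ i ∈ range m, p i / (p i + α)) →
    (1 - ε) * f - C ≤
      (iid (evM 0 p m le_rfl hp hs0) n).E (fun l => (run (fun _ => 0) l m : ℝ)) := by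
  obtain ⟨C₁, hC₁⟩ := thmA (ε / 4) (by positivity) (by linarith)
  obtain ⟨T₀, hT₀⟩ := exists_nat_gt (192 / ε ^ 2)
  have hT₀R : (0 : ℝ) < T₀ := lt_trans (by positivity) hT₀
  have hε2 : ε ^ 2 ≤ 1 := by nlinarith
  have hT₀3 : (3 : ℝ) < T₀ := by
    have h1 : (192 : ℝ) ≤ 192 / ε ^ 2 := by
      rw [le_div_iff₀ (by positivity)]
      linarith
    linarith
  refine ⟨max (4 / (ε / 4) ^ 3) (max (C₁ + 2) (2 * (T₀ + 1) + 1)), ?_⟩
  intro m p hp hs0 n f hf
  set E := (iid (evM 0 p m le_rfl hp hs0) n).E (fun l => (run (fun _ => 0) l m : ℝ)) with hE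
  have hE0 : 0 ≤ E := Mean.nonneg _ fun l => by positivity
  have hs0' : ∑ i ∈ range m, p i ≤ 1 := by linarith
  have hm1 := le_max_left (4 / (ε / 4) ^ 3) (max (C₁ + 2) (2 * ((T₀ : ℝ) + 1) + 1))
  have hm2 := (le_max_left (C₁ + 2) (2 * ((T₀ : ℝ) + 1) + 1)).trans
    (le_max_right (4 / (ε / 4) ^ 3) (max (C₁ + 2) (2 * ((T₀ : ℝ) + 1) + 1)))
  have hm3 := (le_max_right (C₁ + 2) (2 * ((T₀ : ℝ) + 1) + 1)).trans
    (le_max_right (4 / (ε / 4) ^ 3) (max (C₁ + 2) (2 * ((T₀ : ℝ) + 1) + 1)))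
  set CC := max (4 / (ε / 4) ^ 3) (max (C₁ + 2) (2 * ((T₀ : ℝ) + 1) + 1)) with hCC
  clear_value CC
  have hnnR : (0 : ℝ) ≤ n := by positivity
  -- the trivial bound
  have hftriv : f ≤ n + 1 := by
    have h1 := hf 1 one_pos
    have h2 : ∑ i ∈ range m, p i / (p i + 1) ≤ 1 := by
      refine le_trans (sum_le_sum fun i _ => ?_) hs0'
      have := hp i
      rw [div_le_iff₀ (by positivity)]
      nlinarith
    linarith
  set T : ℕ := ⌊(n : ℝ) / (1 + ε / 4)⌋₊ with hT
  have hT1 : (1 + ε / 4) * T ≤ n := by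
    have h1 : (T : ℝ) ≤ (n : ℝ) / (1 + ε / 4) := Nat.floor_le (by positivity)
    rw [le_div_iff₀ (by positivity)] at h1
    linarith
  have hT2 : (n : ℝ) ≤ (1 + ε / 4) * (T + 1) := by
    have h1 : (n : ℝ) / (1 + ε / 4) < T + 1 := Nat.lt_floor_add_one _
    rw [div_lt_iff₀ (by positivity)] at h1
    linarith
  clear_value T
  rcases le_or_gt T T₀ with hcase | hcase
  · -- small `n`
    have hTT : (T : ℝ) ≤ T₀ := by exact_mod_cast hcase
    have h1 : (n : ℝ) ≤ 2 * (T₀ + 1) := by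
      refine hT2.trans ?_
      apply mul_le_mul (by linarith) (by linarith) (by positivity) (by norm_num)
    have h2 : (1 - ε) * f ≤ n + 1 := by
      rcases le_total 0 f with h | h
      · nlinarith
      · nlinarith
    linarith
  · have hTT : (T₀ : ℝ) < T := by exact_mod_cast hcase
    have hTR : (0 : ℝ) < T := by linarith
    have hT0 : 0 < T := by exact_mod_cast hTR
    have hn0 : 0 < n := by
      have : (0 : ℝ) < n := lt_of_lt_of_le (by positivity) hT1
      exact_mod_cast this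
    rcases le_or_gt (∑ i ∈ range m, 1 / p i) T with hc | hc
    · have h1 := caseI (ε / 4) (by positivity) (by linarith) m p hp hs0 n hn0 f hf
        (le_trans (mul_le_mul_of_nonneg_left hc (by positivity)) hT1)
      rcases le_total 0 f with h | h
      · have : (1 - ε) * f ≤ (1 - ε / 4) * f := mul_le_mul_of_nonneg_right (by linarith) h
        linarith
      · have : (1 - ε) * f ≤ 0 := mul_nonpos_of_nonneg_of_nonpos (by linarith) h
        have h4 : 0 ≤ 4 / (ε / 4) ^ 3 := by positivity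
        linarith
    · obtain ⟨α, hα0, hα1, hα2⟩ := exists_alpha m p hp hs0' T (by linarith) hc
      have hα3 : α ≤ ε / 8 := by
        by_contra hcon
        push Not at hcon
        have h1 : (ε / 8) ^ 2 ≤ α ^ 2 := pow_le_pow_left₀ (by positivity) hcon.le 2
        have h2 : (ε / 8) ^ 2 * T ≤ 3 := (mul_le_mul_of_nonneg_right h1 hTR.le).trans hα1
        have h3 : (ε / 8) ^ 2 * (192 / ε ^ 2) = 3 := by field_simp; norm_num
        have h4 : (ε / 8) ^ 2 * (192 / ε ^ 2) < (ε / 8) ^ 2 * T :=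
          mul_lt_mul_of_pos_left (hT₀.trans hTT) (by positivity)
        linarith
      set b : ℝ := 1 / (1 + 2 * α) with hb
      have hb0 : 0 < b := by positivity
      have hb1 : b ≤ 1 := by rw [hb, div_le_one (by positivity)]; linarith
      have hbq : ∀ i, 0 ≤ b * p i := fun i => mul_nonneg hb0.le (hp i)
      have hsum : 2 * (b * α) + ∑ i ∈ range m, b * p i ≤ 1 := by
        have : 2 * (b * α) + ∑ i ∈ range m, b * p i = b * (2 * α + ∑ i ∈ range m, p i) := by
          rw [← mul_sum]; ring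
        rw [this, hb, one_div, inv_mul_le_iff₀ (by positivity)]
        linarith
      have hsum0 : 0 + ∑ i ∈ range m, b * p i ≤ 1 := by
        have : 0 ≤ b * α := by positivity
        linarith
      have hrho : ∀ i, rho (fun i => b * p i) (b * α) i = p i / (p i + α) := by
        intro i
        unfold rho
        rw [← mul_add, mul_div_mul_left _ _ hb0.ne']
      have hsg : ∀ i, sg (fun i => b * p i) (b * α) i = (1 + 2 * α) * (p i / (p i + α) ^ 2) := by
        intro i
        unfold sg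
        have h1 : 0 < p i + α := by have := hp i; linarith
        rw [← mul_add, mul_pow, hb]
        field_simp
      have hTsum : (T : ℝ) = ∑ i ∈ range m, sg (fun i => b * p i) (b * α) i := by
        simp only [hsg]
        rw [← mul_sum, hα2]
      have h1 := hC₁ m (fun i => b * p i) (b * α) T n (by positivity) hbq hsum hsum0 hTsum hT0 hT1
      have h2 := mean_thin_le b hb0.le hb1 p m hp hs0 hbq hsum0 n
      have hFF : FF (b * α) (fun i => b * p i) m T = b * α * T + ∑ i ∈ range m, p i / (p i + α) := by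
        unfold FF
        simp only [hrho]
      rw [hFF] at h1
      set R := ∑ i ∈ range m, p i / (p i + α) with hR
      have hR0 : 0 ≤ R := sum_nonneg fun i _ => by have := hp i; positivity
      have h3 : (1 - ε / 4) * (b * α * T + R) - C₁ ≤ E := h1.trans h2
      have h4 := hf α hα0
      have h5 : (1 - ε) * (α * n) ≤ (1 - ε / 4) * (b * α * T) + 2 :=
        arith5 ε α b n T hε hε1 hα0 hα3 hb hT2 hTR.le
      have h6 : (1 - ε) * f ≤ (1 - ε) * (α * n + R) := mul_le_mul_of_nonneg_left h4 (by linarith)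
      have h7 : (1 - ε) * R ≤ (1 - ε / 4) * R := mul_le_mul_of_nonneg_right (by linarith) hR0
      linarith

end Pool.Agent.Lib.MP_6ef346_pr
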