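import Pool.Agent.Lib.MP_6ef346_pr.Stat2

/-!
The greedy strategy: wait for prescribed letters in increasing order.
-/

open Finset

namespace Pool.Agent.Lib.MP_6ef346_pr

open Ev

/-- remaining letters. -/
def grem : List ℕ → List Ev → List ℕ
  | as, [] => as
  | [], _ :: _ => []
  | (a :: as), (e :: l) => if e = el a then grem as l else grem (a :: as) l

@[simp] lemma grem_nil (as : List ℕ) : grem as [] = as := by cases as <;> rfl
@[simp] lemma grem_nil_left (l : List Ev) : grem [] l = [] := by cases l <;> rfl
lemma grem_cons (a : ℕ) (as : List ℕ) (e : Ev) (l : List Ev) :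
    grem (a :: as) (e :: l) = if e = el a then grem as l else grem (a :: as) l := rfl

lemma greedy_path (l : List Ev) : ∀ (h : ℕ → ℕ) (C as : List ℕ),
    (∀ j, (C.filter (· < j)).length ≤ h j) → (∀ c ∈ C, ∀ a ∈ as, c < a) →
    as.Pairwise (· < ·) → grem as l = [] →
    ∀ j, ((C ++ as).filter (· < j)).length ≤ run h l j := by
  induction l with
  | nil =>
    intro h C as h1 _ _ h4 j
    rw [grem_nil] at h4
    subst h4
    simpa using h1 j
  | cons e l ih =>
    intro h C as h1 h2 h3 h4 j
    rw [run_cons]
    cases as with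
    | nil =>
      rw [List.append_nil]
      exact (h1 j).trans ((le_step e h j).trans (le_run _ l j))
    | cons a as =>
      rw [grem_cons] at h4
      by_cases he : e = el a
      · rw [if_pos he] at h4
        subst he
        have h5 := ih (step (el a) h) (C ++ [a]) as ?_ ?_ ?_ h4 j
        · simpa using h5
        · intro j
          rw [List.filter_append, List.length_append]
          simp only [step]
          by_cases haj : a < j
          · rw [if_pos haj]
            have h6 : (C.filter (· < a)).length = C.length := by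
              rw [List.filter_eq_self.mpr]
              intro c hc
              simpa using h2 c hc a (by simp)
            have h7 := h1 a
            have h8 : (C.filter (· < j)).length ≤ C.length := List.length_filter_le _ _
            have h9 : ([a].filter (· < j)).length = 1 := by simp [haj]
            omega
          · rw [if_neg haj]
            have h9 : ([a].filter (· < j)).length = 0 := by simp [haj]
            have := h1 j
            omega
        · intro c hc b hb
          rw [List.mem_append, List.mem_singleton] at hc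
          rcases hc with hc | rfl
          · exact h2 c hc b (by simp [hb])
          · exact (List.pairwise_cons.mp h3).1 b hb
        · exact (List.pairwise_cons.mp h3).2
      · rw [if_neg he] at h4
        exact ih (step e h) C (a :: as) (fun j => (h1 j).trans (le_step e h j)) h2 h3 h4 j

/-- total expected waiting time -/
noncomputable def Wc (q : ℕ → ℝ) (as : List ℕ) : ℝ := (as.map fun a => 1 / q a).sum

lemma Wc_nonneg {q : ℕ → ℝ} (as : List ℕ) (h : ∀ a ∈ as, 0 < q a) : 0 ≤ Wc q as := by
  unfold Wc
  apply List.sum_nonneg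
  intro x hx
  obtain ⟨a, ha, rfl⟩ := List.mem_map.mp hx
  have := h a ha
  positivity

lemma evM_two (q : ℕ → ℝ) (hq : ∀ i, 0 ≤ q i) (m : ℕ) (hs0 : 0 + ∑ i ∈ range m, q i ≤ 1)
    (a : ℕ) (ha : a < m) (X Y : ℝ) :
    (evM 0 q m le_rfl hq hs0).E (fun e => if e = el a then X else Y) = q a * X + (1 - q a) * Y := by
  rw [evM_E]
  simp only [zero_mul, el.injEq, reduceCtorEq, if_false, sub_zero, zero_add]
  have : ∑ i ∈ range m, q i * (if i = a then X else Y) =
      q a * X + (∑ i ∈ range m, q i - q a) * Y := by
    have h1 : ∀ i, q i * (if i = a then X else Y) = q i * Y + (if i = a then q i * (X - Y) else 0) := by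
      intro i; split_ifs <;> ring
    simp only [h1, sum_add_distrib, ← sum_mul]
    rw [sum_ite_eq' (range m) a (fun i => q i * (X - Y)), if_pos (mem_range.mpr ha)]
    ring
  rw [this]
  ring

open Classical in
theorem greedy_prob (q : ℕ → ℝ) (hq : ∀ i, 0 ≤ q i) (m : ℕ) (hs0 : 0 + ∑ i ∈ range m, q i ≤ 1)
    (Λ : ℝ) (hΛ : 0 ≤ Λ) (t : ℕ) : ∀ (as : List ℕ) (y : ℝ), (∀ a ∈ as, a < m ∧ 0 < q a ∧ 1 / q a ≤ Λ) →
    0 ≤ y + t - Wc q as →
    (iid (evM 0 q m le_rfl hq hs0) t).E (fun l => if grem as l ≠ [] then 1 else 0) *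
      (y + t - Wc q as) ^ 2 ≤ y ^ 2 + Λ * t := by
  induction t with
  | zero =>
    intro as y has hy
    have h0 := Wc_nonneg as fun a ha => (has a ha).2.1
    cases as with
    | nil =>
      simp [iid]
      positivity
    | cons a as =>
      simp only [iid, List.replicate_zero, listM_nil, grem_nil, ne_eq, reduceCtorEq,
        not_false_eq_true, if_true, one_mul, Nat.cast_zero, mul_zero, add_zero] at hy ⊢
      nlinarith
  | succ t ih =>
    intro as y has hy
    cases as with
    | nil =>
      simp only [grem_nil_left, ne_eq, not_true_eq_false, if_false, Mean.const, zero_mul]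
      positivity
    | cons a as =>
      obtain ⟨ham, hqa, hqΛ⟩ := has a (by simp)
      have hqa1 : q a ≤ 1 := by
        have : q a ≤ ∑ i ∈ range m, q i := single_le_sum (f := q) (fun i _ => hq i) (mem_range.mpr ham)
        linarith
      rw [iid_succ]
      have h1 : (fun e => (iid (evM 0 q m le_rfl hq hs0) t).E
          (fun l => if grem (a :: as) (e :: l) ≠ [] then (1 : ℝ) else 0)) =
          fun e => if e = el a then (iid (evM 0 q m le_rfl hq hs0) t).E
            (fun l => if grem as l ≠ [] then (1 : ℝ) else 0) else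
            (iid (evM 0 q m le_rfl hq hs0) t).E
            (fun l => if grem (a :: as) l ≠ [] then (1 : ℝ) else 0) := by
        funext e
        split_ifs with he
        · simp only [grem_cons, if_pos he]
        · simp only [grem_cons, if_neg he]
      rw [h1, evM_two q hq m hs0 a ham]
      set p1 := (iid (evM 0 q m le_rfl hq hs0) t).E
            (fun l => if grem as l ≠ [] then (1 : ℝ) else 0)
      set p2 := (iid (evM 0 q m le_rfl hq hs0) t).E
            (fun l => if grem (a :: as) l ≠ [] then (1 : ℝ) else 0)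
      have hW : Wc q (a :: as) = 1 / q a + Wc q as := by simp [Wc]
      have i1 := ih as (y + 1 - 1 / q a) (fun b hb => has b (by simp [hb]))
        (by rw [hW] at hy; push_cast at hy; linarith)
      have i2 := ih (a :: as) (y + 1) has (by push_cast at hy; linarith)
      have e1 : y + 1 - 1 / q a + t - Wc q as = y + ((t + 1 : ℕ) : ℝ) - Wc q (a :: as) := by
        rw [hW]; push_cast; ring
      have e2 : y + 1 + t - Wc q (a :: as) = y + ((t + 1 : ℕ) : ℝ) - Wc q (a :: as) := by
        push_cast; ring
      rw [e1] at i1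
      rw [e2] at i2
      set D := y + ((t + 1 : ℕ) : ℝ) - Wc q (a :: as)
      calc (q a * p1 + (1 - q a) * p2) * D ^ 2 = q a * (p1 * D ^ 2) + (1 - q a) * (p2 * D ^ 2) := by ring
        _ ≤ q a * ((y + 1 - 1 / q a) ^ 2 + Λ * t) + (1 - q a) * ((y + 1) ^ 2 + Λ * t) := by
            have : 0 ≤ 1 - q a := by linarith
            gcongr
        _ = y ^ 2 - 1 + 1 / q a + Λ * t := by
            field_simp
            ring
        _ ≤ y ^ 2 + Λ * ((t + 1 : ℕ) : ℝ) := by
            push_cast
            linarith

open Classical in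
/-- Greedy lower bound for the mean length. -/
theorem greedy_mean (q : ℕ → ℝ) (hq : ∀ i, 0 ≤ q i) (m : ℕ) (hs0 : 0 + ∑ i ∈ range m, q i ≤ 1)
    (Λ : ℝ) (hΛ : 0 ≤ Λ) (T : ℕ) (hT : 0 < T) (θ : ℝ) (hθ : 0 < θ) (A : Finset ℕ)
    (hA : ∀ a ∈ A, a < m ∧ 0 < q a ∧ 1 / q a ≤ Λ) (hW : ∑ a ∈ A, 1 / q a ≤ (1 - θ) * T) :
    (A.card : ℝ) * (1 - Λ / (θ ^ 2 * T)) ≤
      (iid (evM 0 q m le_rfl hq hs0) T).E (fun l => (run (fun _ => 0) l m : ℝ)) := by
  set as := A.sort (· ≤ ·) with has
  have hWc : Wc q as = ∑ a ∈ A, 1 / q a := by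
    unfold Wc
    rw [has, ← Finset.sum_map_toList A (fun a => 1 / q a)]
    exact ((Finset.sort_perm_toList A (· ≤ ·)).map _).sum_eq
  have hTR : (0 : ℝ) < T := by exact_mod_cast hT
  have hD : θ * T ≤ 0 + T - Wc q as := by rw [hWc]; linarith
  have hmem : ∀ a ∈ as, a < m ∧ 0 < q a ∧ 1 / q a ≤ Λ := fun a ha => hA a (by simpa [has] using ha)
  have h1 := greedy_prob q hq m hs0 Λ hΛ T as 0 hmem (le_trans (by positivity) hD)
  set p := (iid (evM 0 q m le_rfl hq hs0) T).E (fun l => if grem as l ≠ [] then (1 : ℝ) else 0) with hp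
  have hp0 : 0 ≤ p := Mean.nonneg _ fun l => by split_ifs <;> norm_num
  have h2 : p ≤ Λ / (θ ^ 2 * T) := by
    rw [le_div_iff₀ (by positivity)]
    have h3 : (θ * T) ^ 2 ≤ (0 + T - Wc q as) ^ 2 := by
      apply pow_le_pow_left₀ (by positivity) hD
    have h4 : p * (θ * T) ^ 2 ≤ Λ * T := by
      calc p * (θ * T) ^ 2 ≤ p * (0 + T - Wc q as) ^ 2 := by gcongr
        _ ≤ 0 ^ 2 + Λ * T := h1
        _ = Λ * T := by ring
    have h5 : p * (θ ^ 2 * T) * T ≤ Λ * T := by nlinarith
    exact le_of_mul_le_mul_right h5 hTR
  have hsorted : as.Pairwise (· < ·) := by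
    rw [has]; exact Finset.sortedLT_sort A |>.pairwise
  have h6 : (A.card : ℝ) * (1 - p) ≤
      (iid (evM 0 q m le_rfl hq hs0) T).E (fun l => (run (fun _ => 0) l m : ℝ)) := by
    have h7 : (A.card : ℝ) * (1 - p) = (iid (evM 0 q m le_rfl hq hs0) T).E (fun l =>
        (A.card : ℝ) * (1 - if grem as l ≠ [] then (1 : ℝ) else 0)) := by
      rw [Mean.smul, Mean.sub, Mean.const]
    rw [h7]
    apply Mean.mono
    intro l
    by_cases hl : grem as l = []
    · have h8 := greedy_path l (fun _ => 0) [] as (by simp) (by simp) hsorted hl m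
      have h9 : (as.filter (· < m)).length = A.card := by
        rw [List.filter_eq_self.mpr, has, Finset.length_sort]
        intro a ha
        simpa using (hmem a ha).1
      rw [List.nil_append, h9] at h8
      have h10 : (A.card : ℝ) ≤ (run (fun _ => 0) l m : ℝ) := by exact_mod_cast h8
      simpa [hl] using h10
    · simp [hl]
  refine le_trans ?_ h6
  have : (0 : ℝ) ≤ A.card := by positivity
  nlinarith

end Pool.Agent.Lib.MP_6ef346_pr
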