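import Pool.Agent.Lib.MP_6ef346_pr.Finite

/-!
The link with random variables.
-/

open Finset MeasureTheory ProbabilityTheory

namespace Pool.Agent.Lib.MP_6ef346_pr

open Ev

/-- the truncated list of events -/
def ZZ (m : ℕ) (x : ℕ → ℕ) (n : ℕ) : List Ev := (evs x n).map (fB m)

lemma ZZ_zero (m : ℕ) (x : ℕ → ℕ) : ZZ m x 0 = [] := rfl

lemma ZZ_succ (m : ℕ) (x : ℕ → ℕ) (n : ℕ) : ZZ m x (n + 1) = ZZ m x n ++ [fB m (el (x n))] := by
  simp [ZZ, evs_succ]

lemma ZZ_congr (m : ℕ) (x y : ℕ → ℕ) (n : ℕ) (h : ∀ k < n, x k = y k) : ZZ m x n = ZZ m y n := by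
  induction n with
  | zero => rfl
  | succ n ih =>
    rw [ZZ_succ, ZZ_succ, ih fun k hk => h k (by omega), h n (by omega)]

lemma ZZ_bdd (m n : ℕ) : ∀ F : List Ev → ℝ, ∃ C : ℝ, ∀ x : ℕ → ℕ, |F (ZZ m x n)| ≤ C := by
  induction n with
  | zero => intro F; exact ⟨|F []|, fun x => le_rfl⟩
  | succ n ih =>
    intro F
    have h1 : ∀ e : Ev, ∃ C : ℝ, ∀ x : ℕ → ℕ, |F (ZZ m x n ++ [e])| ≤ C :=
      fun e => ih fun l => F (l ++ [e])
    choose C hC using h1
    have hC0 : ∀ e, 0 ≤ C e := fun e => (abs_nonneg _).trans (hC e fun _ => 0)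
    refine ⟨C nul + ∑ i ∈ range m, C (el i), fun x => ?_⟩
    rw [ZZ_succ]
    have hs : 0 ≤ ∑ i ∈ range m, C (el i) := sum_nonneg fun i _ => hC0 _
    by_cases h : x n < m
    · have e1 : fB m (el (x n)) = el (x n) := by simp [fB, h]
      rw [e1]
      refine (hC (el (x n)) x).trans ?_
      have h2 : C (el (x n)) ≤ ∑ i ∈ range m, C (el i) :=
        single_le_sum (f := fun i => C (el i)) (fun i _ => hC0 _) (mem_range.mpr h)
      linarith [hC0 nul]
    · have e1 : fB m (el (x n)) = nul := by simp [fB, h]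
      rw [e1]
      refine (hC nul x).trans ?_
      linarith

/-- extension by zero -/
def ext0 (n : ℕ) (v : ↥(range n) → ℕ) (k : ℕ) : ℕ := if h : k ∈ range n then v ⟨k, h⟩ else 0

set_option linter.unusedSectionVars false

section
variable {Ω : Type*} [MeasurableSpace Ω] {μ : Measure Ω} [IsProbabilityMeasure μ]
  {X : ℕ → Ω → ℕ} (hX : ∀ k, Measurable (X k)) (hind : iIndepFun X μ)
  {p : ℕ → ℝ} (hlaw : ∀ k i, μ.real (X k ⁻¹' {i}) = p i)

omit [MeasurableSpace Ω] in
lemma ZZ_ext0 (m n : ℕ) (ω : Ω) :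
    ZZ m (fun k => X k ω) n = ZZ m (ext0 n (fun k : ↥(range n) => X k ω)) n := by
  apply ZZ_congr
  intro k hk
  simp [ext0, hk]

include hX in
lemma measurable_ZZ (m n : ℕ) (F : List Ev → ℝ) :
    Measurable (fun ω => F (ZZ m (fun k => X k ω) n)) := by
  have h1 : (fun ω => F (ZZ m (fun k => X k ω) n)) =
      (fun v : ↥(range n) → ℕ => F (ZZ m (ext0 n v) n)) ∘ (fun ω (k : ↥(range n)) => X k ω) := by
    funext ω
    simp only [Function.comp]
    rw [ZZ_ext0]
  rw [h1]
  exact (measurable_of_countable _).comp (measurable_pi_lambda _ fun k => hX k)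

include hX in
lemma integrable_ZZ (m n : ℕ) (F : List Ev → ℝ) :
    Integrable (fun ω => F (ZZ m (fun k => X k ω) n)) μ := by
  obtain ⟨C, hC⟩ := ZZ_bdd m n F
  exact Integrable.of_bound (measurable_ZZ hX m n F).aestronglyMeasurable C
    (Filter.Eventually.of_forall fun ω => by
      rw [Real.norm_eq_abs]
      exact hC _)

include hX hind in
lemma integral_ZZ_mul (m n : ℕ) (G : List Ev → ℝ) (ψ : ℕ → ℝ) :
    ∫ ω, G (ZZ m (fun k => X k ω) n) * ψ (X n ω) ∂μ =
      (∫ ω, G (ZZ m (fun k => X k ω) n) ∂μ) * ∫ ω, ψ (X n ω) ∂μ := by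
  have h1 := hind.indepFun_finset (range n) {n} (by simp) hX
  have h2 := h1.comp (φ := fun v : ↥(range n) → ℕ => G (ZZ m (ext0 n v) n))
    (ψ := fun v : ↥({n} : Finset ℕ) → ℕ => ψ (v ⟨n, mem_singleton_self n⟩))
    (measurable_of_countable _) (measurable_of_countable _)
  have h3 : (fun v : ↥(range n) → ℕ => G (ZZ m (ext0 n v) n)) ∘ (fun ω (k : ↥(range n)) => X k ω) =
      fun ω => G (ZZ m (fun k => X k ω) n) := by
    funext ω
    simp only [Function.comp]
    rw [ZZ_ext0]
  have h4 : (fun v : ↥({n} : Finset ℕ) → ℕ => ψ (v ⟨n, mem_singleton_self n⟩)) ∘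
      (fun ω (k : ↥({n} : Finset ℕ)) => X k ω) = fun ω => ψ (X n ω) := rfl
  rw [h3, h4] at h2
  exact h2.integral_fun_mul_eq_mul_integral (measurable_ZZ hX m n G).aestronglyMeasurable
    ((measurable_of_countable ψ).comp (hX n)).aestronglyMeasurable

include hX hlaw in
lemma integral_ind (n i : ℕ) : ∫ ω, (if X n ω = i then (1 : ℝ) else 0) ∂μ = p i := by
  have h1 : (fun ω => if X n ω = i then (1 : ℝ) else 0) =
      (X n ⁻¹' {i}).indicator (fun _ => (1 : ℝ)) := by
    funext ω
    simp [Set.indicator]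
  rw [h1, integral_indicator_const _ ((hX n) (measurableSet_singleton i)), hlaw]
  simp

include hX hlaw in
lemma integral_ind_ge (m n : ℕ) : ∫ ω, (if m ≤ X n ω then (1 : ℝ) else 0) ∂μ =
    1 - ∑ i ∈ range m, p i := by
  have h1 : (fun ω => if m ≤ X n ω then (1 : ℝ) else 0) =
      fun ω => 1 - ∑ i ∈ range m, (if X n ω = i then (1 : ℝ) else 0) := by
    funext ω
    rw [sum_ite_eq (range m) (X n ω) (fun _ => (1 : ℝ))]
    by_cases h : m ≤ X n ω
    · have : X n ω ∉ range m := by simp [h]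
      rw [if_pos h, if_neg this]; ring
    · have : X n ω ∈ range m := by simpa using h
      rw [if_neg h, if_pos this]; ring
  have hint : ∀ i : ℕ, Integrable (fun ω => if X n ω = i then (1 : ℝ) else 0) μ := by
    intro i
    exact Integrable.of_bound (((measurable_of_countable
      (fun k : ℕ => if k = i then (1 : ℝ) else 0)).comp (hX n))).aestronglyMeasurable 1
      (Filter.Eventually.of_forall fun ω => by
        split_ifs <;> simp)
  rw [h1, integral_sub (integrable_const _) (integrable_finsetSum _ fun i _ => hint i),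
    integral_finsetSum _ fun i _ => hint i]
  simp only [integral_ind hX hlaw]
  simp

include hX hind hlaw in
/-- The law of the truncated list. -/
theorem integral_ZZ (m : ℕ) (hp : ∀ i, 0 ≤ p i) (hs0 : 0 + ∑ i ∈ range m, p i ≤ 1) (n : ℕ) :
    ∀ F : List Ev → ℝ, ∫ ω, F (ZZ m (fun k => X k ω) n) ∂μ =
      (iid (evM 0 p m le_rfl hp hs0) n).E F := by
  induction n with
  | zero =>
    intro F
    simp [ZZ_zero, iid]
  | succ n ih =>
    intro F
    have h1 : (fun ω => F (ZZ m (fun k => X k ω) (n + 1))) = fun ω =>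
        ∑ i ∈ range m, F (ZZ m (fun k => X k ω) n ++ [el i]) * (if X n ω = i then (1 : ℝ) else 0) +
        F (ZZ m (fun k => X k ω) n ++ [nul]) * (if m ≤ X n ω then (1 : ℝ) else 0) := by
      funext ω
      rw [ZZ_succ]
      simp only [mul_ite, mul_one, mul_zero]
      rw [sum_ite_eq (range m) (X n ω) (fun i => F (ZZ m (fun k => X k ω) n ++ [el i]))]
      by_cases h : m ≤ X n ω
      · have h2 : X n ω ∉ range m := by simp [h]
        have h3 : ¬ X n ω < m := by omega
        rw [if_neg h2, if_pos h, zero_add]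
        simp [fB, h3]
      · have h2 : X n ω ∈ range m := by simpa using h
        have h3 : X n ω < m := by omega
        rw [if_pos h2, if_neg h, add_zero]
        simp [fB, h3]
    have hint1 : ∀ (e : Ev) (ψ : ℕ → ℝ), (∀ k, |ψ k| ≤ 1) →
        Integrable (fun ω => F (ZZ m (fun k => X k ω) n ++ [e]) * ψ (X n ω)) μ := by
      intro e ψ hψ
      apply (integrable_ZZ hX m n (fun l => F (l ++ [e]))).mul_bdd (c := 1)
      · exact ((measurable_of_countable ψ).comp (hX n)).aestronglyMeasurable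
      · exact Filter.Eventually.of_forall fun ω => by
          rw [Real.norm_eq_abs]
          exact hψ _
    have hi1 : ∀ i : ℕ, ∀ k : ℕ, |(if k = i then (1 : ℝ) else 0)| ≤ 1 := by
      intro i k; split_ifs <;> simp
    have hi2 : ∀ k : ℕ, |(if m ≤ k then (1 : ℝ) else 0)| ≤ 1 := by
      intro k; split_ifs <;> simp
    rw [h1, integral_add (integrable_finsetSum _ fun i _ => hint1 (el i) (fun k => if k = i then (1 : ℝ) else 0) (hi1 i))
      (hint1 nul (fun k => if m ≤ k then (1 : ℝ) else 0) hi2),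
      integral_finsetSum _ fun i _ => hint1 (el i) (fun k => if k = i then (1 : ℝ) else 0) (hi1 i)]
    have h4 : ∀ i, ∫ ω, F (ZZ m (fun k => X k ω) n ++ [el i]) * (if X n ω = i then (1 : ℝ) else 0) ∂μ =
        p i * (iid (evM 0 p m le_rfl hp hs0) n).E (fun l => F (l ++ [el i])) := by
      intro i
      rw [integral_ZZ_mul hX hind m n (fun l => F (l ++ [el i])) (fun k => if k = i then (1 : ℝ) else 0),
        integral_ind hX hlaw, ih (fun l => F (l ++ [el i]))]
      ring
    have h5 : ∫ ω, F (ZZ m (fun k => X k ω) n ++ [nul]) * (if m ≤ X n ω then (1 : ℝ) else 0) ∂μ =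
        (1 - ∑ i ∈ range m, p i) * (iid (evM 0 p m le_rfl hp hs0) n).E (fun l => F (l ++ [nul])) := by
      rw [integral_ZZ_mul hX hind m n (fun l => F (l ++ [nul])) (fun k => if m ≤ k then (1 : ℝ) else 0),
        integral_ind_ge hX hlaw, ih (fun l => F (l ++ [nul]))]
      ring
    rw [sum_congr rfl fun i _ => h4 i, h5, iid_add]
    have h6 : ∀ l : List Ev, (iid (evM 0 p m le_rfl hp hs0) 1).E (fun l' => F (l ++ l')) =
        ∑ i ∈ range m, p i * F (l ++ [el i]) + (1 - ∑ i ∈ range m, p i) * F (l ++ [nul]) := by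
      intro l
      have h7 : (iid (evM 0 p m le_rfl hp hs0) 1).E (fun l' => F (l ++ l')) =
          (evM 0 p m le_rfl hp hs0).E (fun e => F (l ++ [e])) := by
        rw [show (1 : ℕ) = 0 + 1 by norm_num, iid_succ]
        simp [iid]
      rw [h7, evM_E]
      ring
    simp only [h6]
    rw [Mean.add, Mean.sum, Mean.smul]
    congr 1
    exact sum_congr rfl fun i _ => (Mean.smul _ _ _).symm

end

end Pool.Agent.Lib.MP_6ef346_pr
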