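import Pool.Agent.Lib.MP_6ef346_pr.Sites

/-!
Strict margins for the exit points.
-/

open Finset

namespace Pool.Agent.Lib.MP_6ef346_pr

open Ev

lemma phi_plus (q a h : ℝ) (hq : 0 ≤ q) (ha : 0 < a) (hh : 0 ≤ h) :
    q / (q + a * (1 + h)) ≤ q / (q + a) - h * (a * (q / (q + a) ^ 2)) +
      h ^ 2 * (a * (q / (q + a) ^ 2)) := by
  have hD : 0 < q + a := by linarith
  have hD2 : 0 < q + a * (1 + h) := by nlinarith
  have e : q / (q + a) - h * (a * (q / (q + a) ^ 2)) + h ^ 2 * (a * (q / (q + a) ^ 2)) =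
      (q * (q + a) - h * a * q + h ^ 2 * a * q) / (q + a) ^ 2 := by
    field_simp
  rw [e, div_le_div_iff₀ hD2 (by positivity)]
  have : 0 ≤ q * (h ^ 2 * a * q + h ^ 3 * a ^ 2) := by positivity
  nlinarith

lemma phi_minus (q a h : ℝ) (hq : 0 ≤ q) (ha : 0 < a) (hh : 0 ≤ h) (hh2 : h ≤ 1 / 2) :
    q / (q + a * (1 - h)) ≤ q / (q + a) + (h + 2 * h ^ 2) * (a * (q / (q + a) ^ 2)) := by
  have hD : 0 < q + a := by linarith
  have hD2 : 0 < q + a * (1 - h) := by nlinarith
  have e : q / (q + a) + (h + 2 * h ^ 2) * (a * (q / (q + a) ^ 2)) =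
      (q * (q + a) + (h + 2 * h ^ 2) * a * q) / (q + a) ^ 2 := by
    field_simp
  rw [e, div_le_div_iff₀ hD2 (by positivity)]
  have h1 : 0 ≤ 2 * q + a * (1 - 2 * h) := by
    have : 0 ≤ a * (1 - 2 * h) := mul_nonneg ha.le (by linarith)
    linarith
  have : 0 ≤ q * h ^ 2 * a * (2 * q + a * (1 - 2 * h)) := by positivity
  nlinarith

/-- the density of particles -/
noncomputable def rho (q : ℕ → ℝ) (a : ℝ) (i : ℕ) : ℝ := q i / (q i + a)

/-- its derivative -/
noncomputable def sg (q : ℕ → ℝ) (a : ℝ) (i : ℕ) : ℝ := q i / (q i + a) ^ 2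

section
variable {q : ℕ → ℝ} {a : ℝ} (hq : ∀ i, 0 ≤ q i) (ha : 0 < a)
include hq ha

lemma rho_nonneg (i : ℕ) : 0 ≤ rho q a i := div_nonneg (hq i) (by have := hq i; linarith)

lemma rho_le_one (i : ℕ) : rho q a i ≤ 1 := by
  unfold rho
  rw [div_le_one (by have := hq i; linarith)]
  linarith

lemma sg_nonneg (i : ℕ) : 0 ≤ sg q a i := div_nonneg (hq i) (by have := ha; positivity)

lemma a_mul_sg (i : ℕ) : a * sg q a i = rho q a i * (1 - rho q a i) := by
  unfold sg rho
  have : 0 < q i + a := by have := hq i; linarith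
  field_simp
  ring

end

/-- exit margin on the source side -/
theorem margin_z (a : ℝ) (q : ℕ → ℝ) (m T : ℕ) (ha : 0 < a) (hq : ∀ i, 0 ≤ q i)
    (hs : 2 * a + ∑ i ∈ range m, q i ≤ 1) (hs0 : 0 + ∑ i ∈ range m, q i ≤ 1)
    (hT : (T : ℝ) = ∑ i ∈ range m, sg q a i) (hT0 : 0 < T) (z : ℕ) (hz : z ≤ T) :
    (iid (evM 0 q m le_rfl hq hs0) (T - z)).E (fun l => (run (fun _ => 0) l m : ℝ)) ≤
      a * T + ∑ i ∈ range m, rho q a i - a * z - a * z ^ 2 / (4 * T) := by
  have hTR : (0 : ℝ) < T := by exact_mod_cast hT0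
  have hzR : (z : ℝ) ≤ T := by exact_mod_cast hz
  set h : ℝ := z / (2 * T) with hh
  have h0 : 0 ≤ h := by positivity
  have h1 : h ≤ 1 / 2 := by
    rw [hh, div_le_iff₀ (by positivity)]
    linarith
  have ha' : 0 < a * (1 + h) := by positivity
  have hs' : a * (1 + h) + ∑ i ∈ range m, q i ≤ 1 := by nlinarith
  refine (mean_upper q hq m hs0 (a * (1 + h)) ha' hs' (T - z)).trans ?_
  have h2 : ∑ i ∈ range m, q i / (q i + a * (1 + h)) ≤
      ∑ i ∈ range m, rho q a i - h * (a * T) + h ^ 2 * (a * T) := by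
    rw [hT, mul_sum, mul_sum, mul_sum, ← sum_sub_distrib, ← sum_add_distrib]
    exact sum_le_sum fun i _ => phi_plus (q i) a h (hq i) ha h0
  rw [Nat.cast_sub hz]
  have h3 : a * (z : ℝ) ^ 2 / (4 * T) = a * h * z - a * h ^ 2 * T := by
    rw [hh]; field_simp; ring
  rw [h3]
  nlinarith

/-- exit margin on the letters side -/
theorem margin_j (a : ℝ) (q : ℕ → ℝ) (m T : ℕ) (ha : 0 < a) (hq : ∀ i, 0 ≤ q i)
    (hs : 2 * a + ∑ i ∈ range m, q i ≤ 1)
    (hT : (T : ℝ) = ∑ i ∈ range m, sg q a i) (hT0 : 0 < T) (j : ℕ) (hj : j ≤ m)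
    (hs0 : 0 + ∑ i ∈ range m, qG q j i ≤ 1) :
    (iid (evM 0 (qG q j) m le_rfl (qG_nonneg hq j) hs0) T).E (fun l => (run (fun _ => 0) l m : ℝ)) ≤
      a * T + ∑ i ∈ range m, rho q a i - ∑ i ∈ range j, rho q a i -
        a * (∑ i ∈ range j, sg q a i) ^ 2 / (8 * T) := by
  have hTR : (0 : ℝ) < T := by exact_mod_cast hT0
  set w : ℝ := ∑ i ∈ range j, sg q a i with hw
  have hw0 : 0 ≤ w := sum_nonneg fun i _ => sg_nonneg hq ha i
  have hwT : w ≤ T := by
    rw [hT, hw]
    exact sum_le_sum_of_subset_of_nonneg (range_subset_range.mpr hj) fun i _ _ => sg_nonneg hq ha i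
  set h : ℝ := w / (4 * T) with hh
  have h0 : 0 ≤ h := by positivity
  have h1 : h ≤ 1 / 4 := by
    rw [hh, div_le_iff₀ (by positivity)]
    linarith
  have ha' : 0 < a * (1 - h) := mul_pos ha (by linarith)
  have hqs : ∑ i ∈ range m, qG q j i ≤ ∑ i ∈ range m, q i := sum_le_sum fun i _ => qG_le hq j i
  have hs' : a * (1 - h) + ∑ i ∈ range m, qG q j i ≤ 1 := by nlinarith
  refine (mean_upper (qG q j) (qG_nonneg hq j) m hs0 (a * (1 - h)) ha' hs' T).trans ?_
  have hsplit : ∀ g : ℕ → ℝ, ∑ i ∈ range m, (if j ≤ i then g i else 0) =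
      ∑ i ∈ range m, g i - ∑ i ∈ range j, g i := by
    intro g
    have e1 : ∀ i, (if j ≤ i then g i else 0) = g i - (if i < j then g i else 0) := by
      intro i
      by_cases hij : j ≤ i
      · have : ¬ i < j := by omega
        simp [hij, this]
      · have : i < j := by omega
        simp [this]
    simp only [e1, sum_sub_distrib]
    congr 1
    rw [← sum_filter]
    congr 1
    ext i
    simp only [mem_filter, mem_range]
    omega
  have h2 : ∑ i ∈ range m, qG q j i / (qG q j i + a * (1 - h)) ≤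
      (∑ i ∈ range m, rho q a i - ∑ i ∈ range j, rho q a i) +
        (h + 2 * h ^ 2) * (a * (T - w)) := by
    have h3 : ∑ i ∈ range m, qG q j i / (qG q j i + a * (1 - h)) ≤
        ∑ i ∈ range m, (if j ≤ i then rho q a i + (h + 2 * h ^ 2) * (a * sg q a i) else 0) := by
      apply sum_le_sum
      intro i _
      unfold qG
      split_ifs
      · exact phi_minus (q i) a h (hq i) ha h0 (by linarith)
      · simp
    refine h3.trans (le_of_eq ?_)
    rw [hsplit]
    simp only [sum_add_distrib, ← mul_sum]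
    rw [← hT]
    ring
  have h3 : a * w ^ 2 / (8 * T) = a * h * w - 2 * h ^ 2 * a * T := by
    rw [hh]; field_simp; ring
  rw [h3]
  have h4 : 0 ≤ 2 * h ^ 2 * a * w := by positivity
  nlinarith

/-- Cells. -/
lemma cells (f : ℕ → ℝ) (m M : ℕ) (F : ℝ) (hF : 0 < F) (hM : 0 < M)
    (hf : ∀ j ≤ m, 0 ≤ f j ∧ f j ≤ F) : ∃ lo hi : ℕ → ℕ,
    (∀ k, lo k ≤ m ∧ hi k ≤ m ∧ f (hi k) ≤ f (lo k) + F / M) ∧
    ∀ j ≤ m, ∃ k < M + 1, lo k ≤ j ∧ j ≤ hi k := by
  classical
  let S : ℕ → Finset ℕ := fun k => (range (m + 1)).filter fun j => ⌊f j * M / F⌋₊ = k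
  have hmem : ∀ k j, j ∈ S k ↔ j < m + 1 ∧ ⌊f j * M / F⌋₊ = k := by
    intro k j
    simp only [S, mem_filter, mem_range]
  clear_value S
  have hMR : (0 : ℝ) < M := by exact_mod_cast hM
  refine ⟨fun k => if h : (S k).Nonempty then (S k).min' h else 0,
    fun k => if h : (S k).Nonempty then (S k).max' h else 0, ?_, ?_⟩
  · intro k
    by_cases h : (S k).Nonempty
    · simp only [dif_pos h]
      have h1 := (hmem _ _).mp ((S k).min'_mem h)
      have h2 := (hmem _ _).mp ((S k).max'_mem h)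
      refine ⟨by omega, by omega, ?_⟩
      have h3 := hf ((S k).min' h) (by omega)
      have h4 : (k : ℝ) ≤ f ((S k).min' h) * M / F := by
        have := Nat.floor_le (a := f ((S k).min' h) * M / F)
          (div_nonneg (mul_nonneg h3.1 hMR.le) hF.le)
        rwa [h1.2] at this
      have h5 : f ((S k).max' h) * M / F < k + 1 := by
        have := Nat.lt_floor_add_one (f ((S k).max' h) * M / F)
        rwa [h2.2] at this
      rw [le_div_iff₀ hF] at h4
      rw [div_lt_iff₀ hF] at h5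
      have h6 : f ((S k).max' h) * M ≤ (f ((S k).min' h) + F / M) * M := by
        have : (f ((S k).min' h) + F / M) * M = f ((S k).min' h) * M + F := by
          field_simp
        rw [this]
        linarith
      exact le_of_mul_le_mul_right h6 hMR
    · simp only [dif_neg h]
      refine ⟨Nat.zero_le _, Nat.zero_le _, ?_⟩
      have : 0 ≤ F / M := by positivity
      linarith
  · intro j hj
    refine ⟨⌊f j * M / F⌋₊, ?_, ?_⟩
    · have h1 := hf j hj
      have h2 : f j * M / F ≤ M := by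
        rw [div_le_iff₀ hF]
        nlinarith [h1.2]
      have h3 := Nat.floor_le_of_le h2
      omega
    · have hj' : j ∈ S ⌊f j * M / F⌋₊ := (hmem _ _).mpr ⟨by omega, rfl⟩
      have hne : (S ⌊f j * M / F⌋₊).Nonempty := ⟨j, hj'⟩
      simp only [dif_pos hne]
      exact ⟨Finset.min'_le _ _ hj', Finset.le_max' _ _ hj'⟩

end Pool.Agent.Lib.MP_6ef346_pr
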