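import Mathlib

/-!
A small library of finite means (normalised positive linear functionals).
-/

open Finset

namespace Pool.Agent.Lib.MP_6ef346_pr

/-- A mean on `α`: a normalised monotone linear functional on all real functions. -/
structure Mean (α : Type) where
  /-- the functional -/
  E : (α → ℝ) → ℝ
  add' : ∀ f g : α → ℝ, E (fun x => f x + g x) = E f + E g
  smul' : ∀ (c : ℝ) (f : α → ℝ), E (fun x => c * f x) = c * E f
  mono' : ∀ f g : α → ℝ, (∀ x, f x ≤ g x) → E f ≤ E g
  one' : E (fun _ => 1) = 1

namespace Mean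

variable {α β : Type} (M : Mean α)

lemma mono {f g : α → ℝ} (h : ∀ x, f x ≤ g x) : M.E f ≤ M.E g := M.mono' f g h

lemma add (f g : α → ℝ) : M.E (fun x => f x + g x) = M.E f + M.E g := M.add' f g

lemma smul (c : ℝ) (f : α → ℝ) : M.E (fun x => c * f x) = c * M.E f := M.smul' c f

lemma const (c : ℝ) : M.E (fun _ => c) = c := by
  have h := M.smul' c (fun _ => 1)
  rw [M.one', mul_one] at h
  simpa using h

lemma neg (f : α → ℝ) : M.E (fun x => - f x) = - M.E f := by
  have h := M.smul' (-1) f
  simpa using h

lemma sub (f g : α → ℝ) : M.E (fun x => f x - g x) = M.E f - M.E g := by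
  have h := M.add' f (fun x => - g x)
  rw [M.neg] at h
  simpa [sub_eq_add_neg] using h

lemma add_const (f : α → ℝ) (c : ℝ) : M.E (fun x => f x + c) = M.E f + c := by
  rw [M.add f (fun _ => c), M.const]

lemma sub_const (f : α → ℝ) (c : ℝ) : M.E (fun x => f x - c) = M.E f - c := by
  rw [M.sub f (fun _ => c), M.const]

lemma const_add (f : α → ℝ) (c : ℝ) : M.E (fun x => c + f x) = c + M.E f := by
  rw [M.add (fun _ => c) f, M.const]

lemma nonneg {f : α → ℝ} (h : ∀ x, 0 ≤ f x) : 0 ≤ M.E f := by
  have := M.mono (f := fun _ => 0) h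
  rwa [M.const] at this

lemma le_const {f : α → ℝ} {c : ℝ} (h : ∀ x, f x ≤ c) : M.E f ≤ c := by
  have := M.mono h
  rwa [M.const] at this

lemma const_le {f : α → ℝ} {c : ℝ} (h : ∀ x, c ≤ f x) : c ≤ M.E f := by
  have := M.mono h
  rwa [M.const] at this

lemma sum {ι : Type*} (s : Finset ι) (f : ι → α → ℝ) :
    M.E (fun x => ∑ i ∈ s, f i x) = ∑ i ∈ s, M.E (f i) := by
  classical
  induction s using Finset.induction_on with
  | empty => simp [M.const]
  | insert a s ha ih =>
    rw [Finset.sum_insert ha, ← ih, ← M.add]
    congr 1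
    funext x
    rw [Finset.sum_insert ha]

lemma sq_le (f : α → ℝ) : (M.E f) ^ 2 ≤ M.E (fun x => f x ^ 2) := by
  have h : 0 ≤ M.E (fun x => (f x - M.E f) ^ 2) := M.nonneg fun x => sq_nonneg _
  have e : (fun x => (f x - M.E f) ^ 2) = fun x => (f x ^ 2 + (-2 * M.E f) * f x) + (M.E f) ^ 2 := by
    funext x; ring
  rw [e, M.add_const, M.add, M.smul] at h
  nlinarith

/-- variance -/
noncomputable def var (f : α → ℝ) : ℝ := M.E (fun x => (f x - M.E f) ^ 2)

lemma var_eq (f : α → ℝ) : M.var f = M.E (fun x => f x ^ 2) - (M.E f) ^ 2 := by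
  unfold var
  have e : (fun x => (f x - M.E f) ^ 2) = fun x => (f x ^ 2 + (-2 * M.E f) * f x) + (M.E f) ^ 2 := by
    funext x; ring
  rw [e, M.add_const, M.add, M.smul]
  ring

/-- The mean of the indicator of a predicate. -/
noncomputable def P (s : α → Prop) : ℝ := by
  classical
  exact M.E (fun x => if s x then 1 else 0)

lemma P_nonneg (s : α → Prop) : 0 ≤ M.P s := by
  unfold P
  exact M.nonneg fun x => by split_ifs <;> norm_num

lemma P_le_one (s : α → Prop) : M.P s ≤ 1 := by
  unfold P
  exact M.le_const fun x => by split_ifs <;> norm_num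

lemma P_mono {s t : α → Prop} (h : ∀ x, s x → t x) : M.P s ≤ M.P t := by
  unfold P
  apply M.mono
  intro x
  by_cases h1 : s x
  · simp [h1, h x h1]
  · simp only [h1, if_false]
    split_ifs <;> norm_num

lemma P_or (s t : α → Prop) : M.P (fun x => s x ∨ t x) ≤ M.P s + M.P t := by
  unfold P
  rw [← M.add]
  apply M.mono
  intro x
  by_cases h1 : s x <;> by_cases h2 : t x <;> simp [h1, h2]

lemma P_exists_lt (n : ℕ) (s : ℕ → α → Prop) :
    M.P (fun x => ∃ k < n, s k x) ≤ ∑ k ∈ range n, M.P (s k) := by
  induction n with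
  | zero =>
    have : M.P (fun x => ∃ k < 0, s k x) ≤ M.P (fun _ => False) := M.P_mono (by simp)
    refine this.trans ?_
    unfold P
    simp [M.const]
  | succ n ih =>
    rw [sum_range_succ]
    refine le_trans ?_ ((M.P_or (fun x => ∃ k < n, s k x) (s n)).trans (by linarith))
    apply M.P_mono
    rintro x ⟨k, hk, hs⟩
    rcases Nat.lt_succ_iff_lt_or_eq.mp hk with h | rfl
    · exact Or.inl ⟨k, h, hs⟩
    · exact Or.inr hs

lemma markov (f : α → ℝ) (hf : ∀ x, 0 ≤ f x) (s : α → Prop) (y : ℝ) (hs : ∀ x, s x → y ≤ f x) :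
    y * M.P s ≤ M.E f := by
  classical
  unfold P
  rw [← M.smul]
  apply M.mono
  intro x
  by_cases h1 : s x
  · simp [h1, hs x h1]
  · simp [h1, hf x]

/-- Chebyshev's inequality. -/
lemma chebyshev (f : α → ℝ) (s : α → Prop) (y : ℝ) (hs : ∀ x, s x → y ^ 2 ≤ (f x - M.E f) ^ 2) :
    y ^ 2 * M.P s ≤ M.var f :=
  M.markov (fun x => (f x - M.E f) ^ 2) (fun _ => sq_nonneg _) s (y ^ 2) hs

/-- point mass -/
def dirac (x : α) : Mean α where
  E f := f x
  add' _ _ := rfl
  smul' _ _ := rfl
  mono' _ _ h := h x
  one' := rfl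

/-- push-forward -/
def map (φ : α → β) : Mean β where
  E f := M.E (fun x => f (φ x))
  add' f g := M.add _ _
  smul' c f := M.smul _ _
  mono' f g h := M.mono fun x => h _
  one' := M.one'

/-- composition -/
def bind (k : α → Mean β) : Mean β where
  E f := M.E (fun x => (k x).E f)
  add' f g := by
    rw [← M.add]
    congr 1
    funext x
    exact (k x).add _ _
  smul' c f := by
    rw [← M.smul]
    congr 1
    funext x
    exact (k x).smul _ _
  mono' f g h := M.mono fun x => (k x).mono h
  one' := by
    have : (fun x => (k x).E (fun _ => 1)) = fun _ => (1 : ℝ) := by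
      funext x; exact (k x).one'
    rw [this, M.one']

@[simp] lemma dirac_E (x : α) (f : α → ℝ) : (dirac x).E f = f x := rfl
@[simp] lemma map_E (φ : α → β) (f : β → ℝ) : (M.map φ).E f = M.E (fun x => f (φ x)) := rfl
@[simp] lemma bind_E (k : α → Mean β) (f : β → ℝ) : (M.bind k).E f = M.E (fun x => (k x).E f) := rfl

end Mean

/-- Independent product over a list. -/
def listM {α : Type} : List (Mean α) → Mean (List α)
  | [] => Mean.dirac []
  | (w :: ws) => w.bind fun e => (listM ws).map fun l => e :: l

@[simp] lemma listM_nil {α : Type} (f : List α → ℝ) : (listM ([] : List (Mean α))).E f = f [] := rfl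

@[simp] lemma listM_cons {α : Type} (w : Mean α) (ws : List (Mean α)) (f : List α → ℝ) :
    (listM (w :: ws)).E f = w.E (fun e => (listM ws).E (fun l => f (e :: l))) := rfl

lemma listM_append {α : Type} (ws ws' : List (Mean α)) (f : List α → ℝ) :
    (listM (ws ++ ws')).E f = (listM ws).E (fun l => (listM ws').E (fun l' => f (l ++ l'))) := by
  induction ws generalizing f with
  | nil => simp
  | cons w ws ih =>
    rw [List.cons_append, listM_cons, listM_cons]
    congr 1
    funext e
    rw [ih]
    rfl

/-- `listM ws` only sees lists of the right length -/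
lemma listM_congr {α : Type} (ws : List (Mean α)) (f g : List α → ℝ)
    (h : ∀ l : List α, l.length = ws.length → f l = g l) : (listM ws).E f = (listM ws).E g := by
  induction ws generalizing f g with
  | nil => exact h [] rfl
  | cons w ws ih =>
    rw [listM_cons, listM_cons]
    congr 1
    funext e
    exact ih _ _ fun l hl => h (e :: l) (by simp [hl])

lemma listM_mono {α : Type} (ws : List (Mean α)) (f g : List α → ℝ)
    (h : ∀ l : List α, l.length = ws.length → f l ≤ g l) : (listM ws).E f ≤ (listM ws).E g := by
  induction ws generalizing f g with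
  | nil => exact h [] rfl
  | cons w ws ih =>
    rw [listM_cons, listM_cons]
    exact w.mono fun e => ih _ _ fun l hl => h (e :: l) (by simp [hl])

/-- Efron-Stein inequality with a default value `z`. -/
theorem efron_stein {α : Type} (z : α) (ws : List (Mean α)) (F : List α → ℝ) :
    (listM ws).var F ≤ (listM ws).E (fun l => ∑ k ∈ range l.length, (F l - F (l.set k z)) ^ 2) := by
  induction ws generalizing F with
  | nil => simp [Mean.var]
  | cons w ws ih =>
    have hv : (listM (w :: ws)).var F = w.E (fun e => (listM ws).var (fun l => F (e :: l))) +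
        w.var (fun e => (listM ws).E (fun l => F (e :: l))) := by
      rw [Mean.var_eq, Mean.var_eq, listM_cons, listM_cons]
      have : (fun e => (listM ws).var (fun l => F (e :: l))) = fun e =>
          (listM ws).E (fun l => F (e :: l) ^ 2) - ((listM ws).E (fun l => F (e :: l))) ^ 2 := by
        funext e
        rw [Mean.var_eq]
      rw [this, w.sub]
      ring
    have h1 : w.E (fun e => (listM ws).var (fun l => F (e :: l))) ≤
        w.E (fun e => (listM ws).E (fun l => ∑ k ∈ range l.length,
          (F (e :: l) - F (e :: l.set k z)) ^ 2)) :=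
      w.mono fun e => ih (fun l => F (e :: l))
    have h2 : w.var (fun e => (listM ws).E (fun l => F (e :: l))) ≤
        w.E (fun e => (listM ws).E (fun l => (F (e :: l) - F (z :: l)) ^ 2)) := by
      set g : α → ℝ := fun e => (listM ws).E (fun l => F (e :: l)) with hg
      have h3 : w.var g ≤ w.E (fun e => (g e - g z) ^ 2) := by
        have e1 : w.E (fun e => (g e - g z) ^ 2) = w.var g + (w.E g - g z) ^ 2 := by
          have e2 : (fun e => (g e - g z) ^ 2) = fun e => (g e ^ 2 + (-2 * g z) * g e) + (g z) ^ 2 := by
            funext e; ring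
          rw [e2, w.add_const, w.add, w.smul, w.var_eq]
          ring
        rw [e1]
        nlinarith [sq_nonneg (w.E g - g z)]
      refine h3.trans (w.mono fun e => ?_)
      simp only [hg]
      rw [← Mean.sub]
      exact (listM ws).sq_le _
    rw [hv, listM_cons]
    calc w.E (fun e => (listM ws).var (fun l => F (e :: l))) +
        w.var (fun e => (listM ws).E (fun l => F (e :: l))) ≤
        w.E (fun e => (listM ws).E (fun l => ∑ k ∈ range l.length,
          (F (e :: l) - F (e :: l.set k z)) ^ 2)) +
        w.E (fun e => (listM ws).E (fun l => (F (e :: l) - F (z :: l)) ^ 2)) := add_le_add h1 h2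
      _ = w.E (fun e => (listM ws).E (fun l => ∑ k ∈ range (e :: l).length,
          (F (e :: l) - F ((e :: l).set k z)) ^ 2)) := by
          rw [← w.add]
          congr 1
          funext e
          rw [← Mean.add]
          congr 1
          funext l
          rw [List.length_cons, sum_range_succ']
          simp

/-- A functional is self-bounding with respect to the default value `z`. -/
def SB {α : Type} (z : α) (F : List α → ℝ) : Prop :=
  ∀ l : List α, (∀ k, 0 ≤ F l - F (l.set k z) ∧ F l - F (l.set k z) ≤ 1) ∧
    ∑ k ∈ range l.length, (F l - F (l.set k z)) ≤ F l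

theorem var_le_of_SB {α : Type} (z : α) (ws : List (Mean α)) (F : List α → ℝ) (h : SB z F) :
    (listM ws).var F ≤ (listM ws).E F := by
  refine (efron_stein z ws F).trans (Mean.mono _ fun l => ?_)
  obtain ⟨h1, h2⟩ := h l
  refine (sum_le_sum fun k _ => ?_).trans h2
  have := h1 k
  nlinarith [this.1, this.2]

end Pool.Agent.Lib.MP_6ef346_pr
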