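import Pool.Agent.Lib.MP_6ef346_pr.Link

/-!
Moments of the length of the longest increasing subsequence.
-/

open Finset MeasureTheory ProbabilityTheory Filter Topology

namespace Pool.Agent.Lib.MP_6ef346_pr

open Ev

set_option linter.unusedSectionVars false

lemma run_ZZ_le (m : ℕ) (x : ℕ → ℕ) (n : ℕ) : run (fun _ => 0) (ZZ m x n) m ≤ lis x n :=
  (run_filt_le (fB_filt m) _ _ _).trans (run_le_lis x n m)

lemma run_ZZ_eq (m : ℕ) (x : ℕ → ℕ) (n : ℕ) (h : ∀ k < n, x k < m) :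
    run (fun _ => 0) (ZZ m x n) m = lis x n := by
  have h1 : ZZ m x n = evs x n := by
    unfold ZZ evs
    rw [List.map_map]
    apply List.map_congr_left
    intro k hk
    have := h k (List.mem_range.mp hk)
    simp [fB, this]
  rw [h1, lis_eq_run x n m h]

lemma run_ZZ_eventually (x : ℕ → ℕ) (n : ℕ) :
    ∀ᶠ m in atTop, run (fun _ => 0) (ZZ m x n) m = lis x n := by
  filter_upwards [eventually_ge_atTop ((∑ k ∈ range n, x k) + 1)] with m hm
  apply run_ZZ_eq
  intro k hk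
  have : x k ≤ ∑ k ∈ range n, x k := single_le_sum (f := x) (fun _ _ => Nat.zero_le _) (mem_range.mpr hk)
  omega

section
variable {Ω : Type*} [MeasurableSpace Ω] {μ : Measure Ω} [IsProbabilityMeasure μ]
  {X : ℕ → Ω → ℕ} (hX : ∀ k, Measurable (X k)) (hind : iIndepFun X μ)
  {p : ℕ → ℝ} (hlaw : ∀ k i, μ.real (X k ⁻¹' {i}) = p i)

/-- the length as a real random variable -/
noncomputable def LL (X : ℕ → Ω → ℕ) (n : ℕ) (ω : Ω) : ℝ := (lis (fun k => X k ω) n : ℝ)

lemma LL_nonneg (n : ℕ) (ω : Ω) : 0 ≤ LL X n ω := by unfold LL; positivity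

lemma LL_le (n : ℕ) (ω : Ω) : LL X n ω ≤ n := by unfold LL; exact_mod_cast lis_le _ _

lemma LL_tendsto (n : ℕ) (ω : Ω) :
    Tendsto (fun m => (run (fun _ => 0) (ZZ m (fun k => X k ω) n) m : ℝ)) atTop (𝓝 (LL X n ω)) := by
  apply tendsto_const_nhds.congr'
  filter_upwards [run_ZZ_eventually (fun k => X k ω) n] with m hm
  rw [hm]
  rfl

include hX in
lemma LL_measurable (n : ℕ) : Measurable (LL X n) := by
  apply measurable_of_tendsto_metrizable (f := fun m ω => (run (fun _ => 0) (ZZ m (fun k => X k ω) n) m : ℝ))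
  · intro m
    exact measurable_ZZ hX m n (fun l => (run (fun _ => 0) l m : ℝ))
  · rw [tendsto_pi_nhds]
    intro ω
    exact LL_tendsto n ω

include hX in
lemma LL_integrable (n : ℕ) : Integrable (LL X n) μ :=
  Integrable.of_bound (LL_measurable hX n).aestronglyMeasurable n
    (Eventually.of_forall fun ω => by
      rw [Real.norm_eq_abs, abs_of_nonneg (LL_nonneg n ω)]
      exact LL_le n ω)

include hX in
lemma LL_memLp (n : ℕ) : MemLp (LL X n) 2 μ :=
  MemLp.of_bound (LL_measurable hX n).aestronglyMeasurable n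
    (Eventually.of_forall fun ω => by
      rw [Real.norm_eq_abs, abs_of_nonneg (LL_nonneg n ω)]
      exact LL_le n ω)

include hX in
lemma LL_integral_tendsto (n : ℕ) (g : ℝ → ℝ) (hg : Continuous g) (C : ℝ)
    (hC : ∀ y : ℝ, 0 ≤ y → y ≤ n → |g y| ≤ C) :
    Tendsto (fun m => ∫ ω, g (run (fun _ => 0) (ZZ m (fun k => X k ω) n) m : ℝ) ∂μ) atTop
      (𝓝 (∫ ω, g (LL X n ω) ∂μ)) := by
  apply tendsto_integral_of_dominated_convergence (fun _ => C)
  · intro m
    exact (measurable_ZZ hX m n (fun l => g (run (fun _ => 0) l m : ℝ))).aestronglyMeasurable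
  · exact integrable_const _
  · intro m
    refine Eventually.of_forall fun ω => ?_
    rw [Real.norm_eq_abs]
    apply hC
    · positivity
    · have h1 := run_ZZ_le m (fun k => X k ω) n
      have h2 := lis_le (fun k => X k ω) n
      exact_mod_cast h1.trans h2
  · refine Eventually.of_forall fun ω => ?_
    exact (hg.tendsto _).comp (LL_tendsto n ω)

include hX in
lemma mean_tendsto (n : ℕ) :
    Tendsto (fun m => ∫ ω, (run (fun _ => 0) (ZZ m (fun k => X k ω) n) m : ℝ) ∂μ) atTop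
      (𝓝 (∫ ω, LL X n ω ∂μ)) :=
  LL_integral_tendsto hX n (fun y => y) continuous_id n fun y h0 h1 => by
    rw [abs_of_nonneg h0]; exact h1

include hX in
lemma sq_tendsto (n : ℕ) :
    Tendsto (fun m => ∫ ω, (run (fun _ => 0) (ZZ m (fun k => X k ω) n) m : ℝ) ^ 2 ∂μ) atTop
      (𝓝 (∫ ω, (LL X n ω) ^ 2 ∂μ)) :=
  LL_integral_tendsto hX n (fun y => y ^ 2) (by fun_prop) (n ^ 2) fun y h0 h1 => by
    rw [abs_of_nonneg (sq_nonneg _)]
    exact pow_le_pow_left₀ h0 h1 2

include hlaw in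
lemma p_nonneg (i : ℕ) : 0 ≤ p i := by
  rw [← hlaw 0 i]
  exact measureReal_nonneg

include hX hlaw in
lemma p_sum_le (m : ℕ) : ∑ i ∈ range m, p i ≤ 1 := by
  have h1 := integral_ind_ge (μ := μ) hX hlaw m 0
  have h2 : 0 ≤ ∫ ω, (if m ≤ X 0 ω then (1 : ℝ) else 0) ∂μ :=
    integral_nonneg fun ω => by
      simp only [Pi.zero_apply]
      split_ifs <;> norm_num
  linarith

include hX hlaw in
lemma p_summable : Summable p :=
  summable_of_sum_range_le (p_nonneg (μ := μ) (X := X) hlaw) (p_sum_le (μ := μ) hX hlaw)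

include hX hlaw in
lemma p_tsum_le : ∑' i, p i ≤ 1 :=
  Real.tsum_le_of_sum_range_le (p_nonneg (μ := μ) (X := X) hlaw) (p_sum_le (μ := μ) hX hlaw)

include hX hind hlaw in
lemma var_le (n : ℕ) : Var[LL X n; μ] ≤ ∫ ω, LL X n ω ∂μ := by
  rw [variance_eq_sub (LL_memLp hX n)]
  have h1 : Tendsto (fun m => (∫ ω, (run (fun _ => 0) (ZZ m (fun k => X k ω) n) m : ℝ) ^ 2 ∂μ) -
      (∫ ω, (run (fun _ => 0) (ZZ m (fun k => X k ω) n) m : ℝ) ∂μ) ^ 2) atTop
      (𝓝 ((∫ ω, (LL X n ω) ^ 2 ∂μ) - (∫ ω, LL X n ω ∂μ) ^ 2)) :=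
    (sq_tendsto hX n).sub ((mean_tendsto hX n).pow 2)
  refine le_of_tendsto_of_tendsto' h1 (mean_tendsto hX n) fun m => ?_
  have hs0 : 0 + ∑ i ∈ range m, p i ≤ 1 := by
    rw [zero_add]; exact p_sum_le (μ := μ) hX hlaw m
  have hp := p_nonneg (μ := μ) (X := X) hlaw
  rw [integral_ZZ hX hind hlaw m hp hs0 n (fun l => (run (fun _ => 0) l m : ℝ) ^ 2),
    integral_ZZ hX hind hlaw m hp hs0 n (fun l => (run (fun _ => 0) l m : ℝ)), ← Mean.var_eq]
  have h2 := var_le_of_SB nul (List.replicate n (evM 0 p m le_rfl hp hs0))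
    (fun l : List Ev => (run (fun _ => 0) (l.map id) m : ℝ)) (run_SB id rfl m)
  simp only [List.map_id_fun, id_eq] at h2
  exact h2

/-- the function to be minimised -/
noncomputable def VV (p : ℕ → ℝ) (n α : ℝ) : ℝ := α * n + ∑' i, p i / (p i + α)

lemma frac_summable (hp : ∀ i, 0 ≤ p i) (hs : Summable p) (α : ℝ) (hα : 0 < α) :
    Summable fun i => p i / (p i + α) := by
  apply Summable.of_nonneg_of_le (fun i => ?_) (fun i => ?_) (hs.div_const α)
  · have := hp i
    positivity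
  · have := hp i
    apply div_le_div_of_nonneg_left this hα (by linarith)

include hX hind hlaw in
lemma mean_le (n : ℕ) (α : ℝ) (hα : 0 < α) :
    ∫ ω, LL X n ω ∂μ ≤ (1 + α) * VV p n α := by
  have hp := p_nonneg (μ := μ) (X := X) hlaw
  refine le_of_tendsto' (mean_tendsto hX n) fun m => ?_
  have hs0 : 0 + ∑ i ∈ range m, p i ≤ 1 := by
    rw [zero_add]; exact p_sum_le (μ := μ) hX hlaw m
  rw [integral_ZZ hX hind hlaw m hp hs0 n (fun l => (run (fun _ => 0) l m : ℝ))]
  refine (upper_fin p m hp hs0 n α hα).trans ?_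
  apply mul_le_mul_of_nonneg_left _ (by positivity)
  unfold VV
  apply add_le_add le_rfl
  exact (frac_summable hp (p_summable (μ := μ) hX hlaw) α hα).sum_le_tsum _ fun i _ => by
    have := hp i
    positivity

/-- truncation of the infimum -/
lemma trunc (hp : ∀ i, 0 ≤ p i) (hs : Summable p) (n : ℕ) (hn : 0 < n) (f : ℝ)
    (hf : ∀ α : ℝ, 0 < α → f ≤ VV p n α) :
    ∃ m, ∀ α : ℝ, 0 < α → f - 2 ≤ α * n + ∑ i ∈ range m, p i / (p i + α) := by
  have hnR : (0 : ℝ) < n := by exact_mod_cast hn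
  have h1 : Tendsto (fun m => ∑' i, p (i + m)) atTop (𝓝 0) := tendsto_sum_nat_add p
  have h2 : ∀ᶠ m in atTop, ∑' i, p (i + m) < 1 / n :=
    h1.eventually (gt_mem_nhds (by positivity))
  obtain ⟨m, hm⟩ := h2.exists
  refine ⟨m, ?_⟩
  have key : ∀ α : ℝ, 1 / n ≤ α → f - 1 ≤ α * n + ∑ i ∈ range m, p i / (p i + α) := by
    intro α hα
    have hα0 : 0 < α := lt_of_lt_of_le (by positivity) hα
    have h3 := hf α hα0
    unfold VV at h3
    have hsm := frac_summable hp hs α hα0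
    rw [← hsm.sum_add_tsum_nat_add m] at h3
    have h4 : ∑' i, p (i + m) / (p (i + m) + α) ≤ ∑' i, p (i + m) * n := by
      apply Summable.tsum_le_tsum _ ((summable_nat_add_iff m).mpr hsm)
        (((summable_nat_add_iff m).mpr hs).mul_right _)
      intro i
      have := hp (i + m)
      rw [div_le_iff₀ (by positivity)]
      have h5 : 1 ≤ (n : ℝ) * α := by
        rw [div_le_iff₀ hnR] at hα
        linarith
      have h6 : 0 ≤ p (i + m) * n * p (i + m) := by positivity
      nlinarith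
    rw [tsum_mul_right] at h4
    have h5 : (∑' i, p (i + m)) * n ≤ 1 := by
      rw [lt_div_iff₀ hnR] at hm
      exact hm.le
    linarith
  intro α hα
  rcases le_total (1 / (n : ℝ)) α with h | h
  · have := key α h
    linarith
  · have h3 := key (1 / n) le_rfl
    have h4 : (1 : ℝ) / n * n = 1 := by field_simp
    rw [h4] at h3
    have h5 : ∑ i ∈ range m, p i / (p i + 1 / n) ≤ ∑ i ∈ range m, p i / (p i + α) := by
      apply sum_le_sum
      intro i _
      have := hp i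
      exact div_le_div_of_nonneg_left this (by positivity) (by linarith)
    have h6 : 0 ≤ α * n := by positivity
    linarith

include hX hind hlaw in
/-- The lower bound for the mean. -/
theorem le_mean (ε : ℝ) (hε : 0 < ε) (hε1 : ε ≤ 1) : ∃ C : ℝ, ∀ (n : ℕ), 0 < n → ∀ f : ℝ,
    (∀ α : ℝ, 0 < α → f ≤ VV p n α) → (1 - ε) * f - C ≤ ∫ ω, LL X n ω ∂μ := by
  obtain ⟨C, hC⟩ := thmB ε hε hε1
  have hp := p_nonneg (μ := μ) (X := X) hlaw
  refine ⟨C + 2, fun n hn f hf => ?_⟩
  obtain ⟨m, hm⟩ := trunc hp (p_summable (μ := μ) hX hlaw) n hn f hf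
  have hs0 : 0 + ∑ i ∈ range m, p i ≤ 1 := by
    rw [zero_add]; exact p_sum_le (μ := μ) hX hlaw m
  have h1 := hC m p hp hs0 n (f - 2) hm
  rw [← integral_ZZ hX hind hlaw m hp hs0 n (fun l => (run (fun _ => 0) l m : ℝ))] at h1
  have h2 : ∫ ω, (run (fun _ => 0) (ZZ m (fun k => X k ω) n) m : ℝ) ∂μ ≤ ∫ ω, LL X n ω ∂μ := by
    apply integral_mono (integrable_ZZ hX m n (fun l => (run (fun _ => 0) l m : ℝ)))
      (LL_integrable hX n)
    intro ω
    simp only [LL]
    exact_mod_cast run_ZZ_le m (fun k => X k ω) n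
  linarith

end

end Pool.Agent.Lib.MP_6ef346_pr
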