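import Pool.Agent.Lib.MP_6ef346_pr.Moments
import Pool.Agent.Lib.MP_6ef346_pr.BC

/-!
Properties of the rate function.
-/

open Finset MeasureTheory ProbabilityTheory Filter Topology
open scoped NNReal ENNReal

namespace Pool.Agent.Lib.MP_6ef346_pr

set_option linter.unusedSectionVars false

section
variable {p : ℕ → ℝ} (hp : ∀ i, 0 ≤ p i) (hs : Summable p)
include hp hs

lemma VV_nonneg (n : ℕ) (α : ℝ) (hα : 0 < α) : 0 ≤ VV p n α := by
  unfold VV
  have : 0 ≤ ∑' i, p i / (p i + α) := tsum_nonneg fun i => by have := hp i; positivity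
  positivity

/-- the value at a positive point -/
lemma val_eq (n : ℕ) (hn : 0 < n) (α : ℝ) (hα : 0 < α) :
    (((α * n).toNNReal : ℝ≥0) : ℝ≥0∞) +
      ∑' i, ENNReal.ofReal ((n : ℝ) * p i / ((n : ℝ) * p i + (((α * n).toNNReal : ℝ≥0) : ℝ))) =
    ENNReal.ofReal (VV p n α) := by
  have hnR : (0 : ℝ) < n := by exact_mod_cast hn
  have h1 : ∀ i, (n : ℝ) * p i / ((n : ℝ) * p i + (((α * n).toNNReal : ℝ≥0) : ℝ)) =
      p i / (p i + α) := by
    intro i
    have : 0 < p i + α := by have := hp i; linarith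
    have h2 : (((α * n).toNNReal : ℝ≥0) : ℝ) = n * α := by
      rw [Real.coe_toNNReal _ (by positivity)]
      ring
    rw [h2, ← mul_add, mul_div_mul_left _ _ hnR.ne']
  simp only [h1]
  unfold VV
  rw [ENNReal.ofReal_add (by positivity) (tsum_nonneg fun i => by have := hp i; positivity),
    ENNReal.ofReal_tsum_of_nonneg (fun i => by have := hp i; positivity) (frac_summable hp hs α hα)]
  rfl

lemma fRate_le (n : ℕ) (hn : 0 < n) (α : ℝ) (hα : 0 < α) : fRate p n ≤ VV p n α := by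
  unfold fRate
  have h1 := iInf_le (fun x : ℝ≥0 => ((x : ℝ≥0∞) +
    ∑' i, ENNReal.ofReal ((n : ℝ) * p i / ((n : ℝ) * p i + (x : ℝ))))) (α * n).toNNReal
  simp only [val_eq hp hs n hn α hα] at h1
  have h2 := ENNReal.toReal_mono ENNReal.ofReal_ne_top h1
  rwa [ENNReal.toReal_ofReal (VV_nonneg hp hs n α hα)] at h2

lemma fRate_ne_top (n : ℕ) (hn : 0 < n) : (⨅ x : ℝ≥0, ((x : ℝ≥0∞) +
    ∑' i, ENNReal.ofReal ((n : ℝ) * p i / ((n : ℝ) * p i + (x : ℝ))))) ≠ ⊤ := by
  have h1 := iInf_le (fun x : ℝ≥0 => ((x : ℝ≥0∞) +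
    ∑' i, ENNReal.ofReal ((n : ℝ) * p i / ((n : ℝ) * p i + (x : ℝ))))) ((1 : ℝ) * n).toNNReal
  simp only [val_eq hp hs n hn 1 one_pos] at h1
  exact ne_top_of_le_ne_top ENNReal.ofReal_ne_top h1

lemma exists_near (n : ℕ) (hn : 0 < n) (η : ℝ) (hη : 0 < η) :
    ∃ α : ℝ, 0 < α ∧ VV p n α ≤ fRate p n + η := by
  have hnR : (0 : ℝ) < n := by exact_mod_cast hn
  have hf0 : 0 ≤ fRate p n := ENNReal.toReal_nonneg
  have h1 : (⨅ x : ℝ≥0, ((x : ℝ≥0∞) +
      ∑' i, ENNReal.ofReal ((n : ℝ) * p i / ((n : ℝ) * p i + (x : ℝ))))) <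
      ENNReal.ofReal (fRate p n + η / 2) := by
    rw [← ENNReal.ofReal_toReal (fRate_ne_top hp hs n hn)]
    change ENNReal.ofReal (fRate p n) < _
    rw [ENNReal.ofReal_lt_ofReal_iff (by positivity)]
    linarith
  obtain ⟨x, hx⟩ := iInf_lt_iff.mp h1
  have hx0 : (0 : ℝ) ≤ x := x.2
  set α : ℝ := (x + η / 2) / n with hα
  have hα0 : 0 < α := by positivity
  refine ⟨α, hα0, ?_⟩
  have h2 := val_eq hp hs n hn α hα0
  have hαn : α * n = x + η / 2 := by rw [hα]; field_simp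
  have h3 : ENNReal.ofReal (VV p n α) ≤ ENNReal.ofReal (fRate p n + η) := by
    rw [← h2]
    have h4 : (((α * n).toNNReal : ℝ≥0) : ℝ≥0∞) = (x : ℝ≥0∞) + ENNReal.ofReal (η / 2) := by
      have h5 : (((α * n).toNNReal : ℝ≥0) : ℝ≥0∞) = ENNReal.ofReal (α * n) := rfl
      rw [h5, hαn, ENNReal.ofReal_add hx0 (by positivity), ENNReal.ofReal_coe_nnreal]
    have h6 : ∑' i, ENNReal.ofReal ((n : ℝ) * p i /
        ((n : ℝ) * p i + (((α * n).toNNReal : ℝ≥0) : ℝ))) ≤
        ∑' i, ENNReal.ofReal ((n : ℝ) * p i / ((n : ℝ) * p i + (x : ℝ))) := by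
      apply ENNReal.tsum_le_tsum
      intro i
      apply ENNReal.ofReal_le_ofReal
      rcases (hp i).eq_or_lt with h | h
      · rw [← h]; simp
      · apply div_le_div_of_nonneg_left (by positivity) (by positivity)
        rw [Real.coe_toNNReal _ (by positivity), hαn]
        linarith
    rw [h4]
    calc (x : ℝ≥0∞) + ENNReal.ofReal (η / 2) + ∑' i, ENNReal.ofReal ((n : ℝ) * p i /
        ((n : ℝ) * p i + (((α * n).toNNReal : ℝ≥0) : ℝ))) ≤
        (x : ℝ≥0∞) + ENNReal.ofReal (η / 2) +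
        ∑' i, ENNReal.ofReal ((n : ℝ) * p i / ((n : ℝ) * p i + (x : ℝ))) := by gcongr
      _ = ((x : ℝ≥0∞) + ∑' i, ENNReal.ofReal ((n : ℝ) * p i / ((n : ℝ) * p i + (x : ℝ)))) +
        ENNReal.ofReal (η / 2) := by ring
      _ ≤ ENNReal.ofReal (fRate p n + η / 2) + ENNReal.ofReal (η / 2) := by gcongr
      _ = ENNReal.ofReal (fRate p n + η) := by
        rw [← ENNReal.ofReal_add (by positivity) (by positivity)]
        congr 1
        ring
  exact (ENNReal.ofReal_le_ofReal_iff (by positivity)).mp h3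

lemma le_fRate (n : ℕ) (hn : 0 < n) (f : ℝ) (hf : ∀ α : ℝ, 0 < α → f ≤ VV p n α) :
    f ≤ fRate p n := by
  apply le_of_forall_pos_le_add
  intro η hη
  obtain ⟨α, h1, h2⟩ := exists_near hp hs n hn η hη
  exact (hf α h1).trans h2

lemma fRate_le_sqrt (hs1 : ∑' i, p i ≤ 1) (n : ℕ) (hn : 0 < n) :
    fRate p n ≤ 2 * Real.sqrt n := by
  have hnR : (0 : ℝ) < n := by exact_mod_cast hn
  have hsq : 0 < Real.sqrt n := Real.sqrt_pos.mpr hnR
  have h1 := fRate_le hp hs n hn (1 / Real.sqrt n) (by positivity)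
  refine h1.trans ?_
  unfold VV
  have h2 : 1 / Real.sqrt n * n = Real.sqrt n := by
    rw [div_mul_eq_mul_div, one_mul, div_eq_iff hsq.ne']
    exact (Real.mul_self_sqrt hnR.le).symm
  have h3 : ∑' i, p i / (p i + 1 / Real.sqrt n) ≤ ∑' i, p i * Real.sqrt n := by
    apply Summable.tsum_le_tsum _ (frac_summable hp hs _ (by positivity)) (hs.mul_right _)
    intro i
    have h4 := hp i
    rw [div_le_iff₀ (by positivity)]
    have h5 : p i * Real.sqrt n * (p i + 1 / Real.sqrt n) = p i * Real.sqrt n * p i + p i := by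
      field_simp
    rw [h5]
    have : 0 ≤ p i * Real.sqrt n * p i := by positivity
    linarith
  rw [tsum_mul_right] at h3
  rw [h2]
  have h4 : (∑' i, p i) * Real.sqrt n ≤ 1 * Real.sqrt n := mul_le_mul_of_nonneg_right hs1 hsq.le
  linarith

/-- lower bound by a finite set of letters -/
lemma fRate_ge (A : Finset ℕ) (c : ℝ) (hc : 0 < c) (hA : ∀ i ∈ A, c ≤ p i) (n : ℕ) (hn : 0 < n) :
    (A.card : ℝ) * (n * c / (n * c + A.card)) ≤ fRate p n := by
  have hnR : (0 : ℝ) < n := by exact_mod_cast hn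
  apply le_fRate hp hs n hn
  intro α hα
  unfold VV
  have ht : 0 ≤ ∑' i, p i / (p i + α) := tsum_nonneg fun i => by have := hp i; positivity
  have hcard : (0 : ℝ) ≤ A.card := by positivity
  rcases le_total (A.card : ℝ) (α * n) with h | h
  · have h1 : (n : ℝ) * c / (n * c + A.card) ≤ 1 := by
      rw [div_le_one (by positivity)]; linarith
    nlinarith
  · have h1 : ∑ i ∈ A, p i / (p i + α) ≤ ∑' i, p i / (p i + α) :=
      (frac_summable hp hs α hα).sum_le_tsum _ fun i _ => by have := hp i; positivity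
    have h2 : ∑ i ∈ A, (n * c / (n * c + A.card)) ≤ ∑ i ∈ A, p i / (p i + α) := by
      apply sum_le_sum
      intro i hi
      have h3 := hA i hi
      have h4 := hp i
      rw [div_le_div_iff₀ (by positivity) (by linarith)]
      have h5 : c * (α * n) ≤ p i * A.card := mul_le_mul h3 h (by positivity) h4
      nlinarith
    rw [sum_const, nsmul_eq_mul] at h2
    have h3 : 0 ≤ α * n := by positivity
    linarith

end

/-- asymptotic equivalence of mean and rate -/
lemma ratio_tendsto (e f b : ℕ → ℝ) (hf : Tendsto f atTop atTop) (hb : Tendsto b atTop (𝓝 0))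
    (hU : ∀ᶠ n in atTop, e n ≤ (1 + b n) * (f n + 1))
    (hL : ∀ ε : ℝ, 0 < ε → ε ≤ 1 → ∃ C : ℝ, ∀ᶠ n in atTop, (1 - ε) * f n - C ≤ e n) :
    Tendsto (fun n => e n / f n) atTop (𝓝 1) := by
  rw [tendsto_order]
  have hfinv : Tendsto (fun n => (f n)⁻¹) atTop (𝓝 0) := hf.inv_tendsto_atTop
  constructor
  · intro c hc
    set ε : ℝ := min ((1 - c) / 3) 1 with hε
    have hε0 : 0 < ε := lt_min (by linarith) one_pos
    have hε1 : ε ≤ 1 := min_le_right _ _
    have hε2 : ε ≤ (1 - c) / 3 := min_le_left _ _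
    obtain ⟨C, hC⟩ := hL ε hε0 hε1
    have h1 : Tendsto (fun n => C * (f n)⁻¹) atTop (𝓝 0) := by
      simpa using hfinv.const_mul C
    filter_upwards [hC, hf.eventually_gt_atTop 0, h1.eventually (gt_mem_nhds hε0)] with n h2 h3 h4
    rw [lt_div_iff₀ h3]
    have h5 : C < ε * f n := by
      rw [← div_eq_mul_inv, div_lt_iff₀ h3] at h4
      exact h4
    nlinarith
  · intro c hc
    have h1 : Tendsto (fun n => (1 + b n) * (1 + (f n)⁻¹)) atTop (𝓝 ((1 + 0) * (1 + 0))) :=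
      (tendsto_const_nhds.add hb).mul (tendsto_const_nhds.add hfinv)
    have h2 : ∀ᶠ n in atTop, (1 + b n) * (1 + (f n)⁻¹) < c :=
      h1.eventually (gt_mem_nhds (by linarith))
    filter_upwards [hU, hf.eventually_gt_atTop 0, h2] with n h3 h4 h5
    rw [div_lt_iff₀ h4]
    calc e n ≤ (1 + b n) * (f n + 1) := h3
      _ = ((1 + b n) * (1 + (f n)⁻¹)) * f n := by field_simp
      _ < c * f n := mul_lt_mul_of_pos_right h5 h4

end Pool.Agent.Lib.MP_6ef346_pr
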