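import Pool.Agent.Lib.MP_6ef346_pr.Margins

/-!
Concentration of the functionals used in the exit point argument.
-/

open Finset

namespace Pool.Agent.Lib.MP_6ef346_pr

open Ev

section
variable (a : ℝ) (q : ℕ → ℝ) (m T : ℕ) (ha : 0 < a) (hq : ∀ i, 0 ≤ q i)

/-- the law of the initial configuration -/
noncomputable def cfg : Mean (List Bool) := cfgM (rho q a) m (rho_nonneg hq ha) (rho_le_one hq ha)

lemma cfg_E (f : List Bool → ℝ) : (cfg a q m ha hq).E f = EB (rho q a) m f := rfl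

/-- the total expected value -/
noncomputable def FF (a : ℝ) (q : ℕ → ℝ) (m T : ℕ) : ℝ := a * T + ∑ i ∈ range m, rho q a i

lemma cfg_hf_mean (j : ℕ) (hj : j ≤ m) :
    (cfg a q m ha hq).E (fun η => (hf 0 η j : ℝ)) = ∑ i ∈ range j, rho q a i := by
  rw [cfg_E, EB_hf _ _ _ _ hj]
  simp

lemma cfg_hf_var (j : ℕ) (hj : j ≤ m) :
    (cfg a q m ha hq).var (fun η => (hf 0 η j : ℝ)) ≤ ∑ i ∈ range j, rho q a i := by
  have h1 := var_le_of_SB nul (sites (rho q a) (rho_nonneg hq ha) (rho_le_one hq ha) 0 m)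
    (fun l : List Ev => (run (fun _ => 0) (l.map id) j : ℝ)) (run_SB id rfl j)
  simp only [List.map_id_fun, id_eq] at h1
  have h2 : ∀ f : List Ev → ℝ,
      (listM (sites (rho q a) (rho_nonneg hq ha) (rho_le_one hq ha) 0 m)).E f =
      (cfg a q m ha hq).E (fun η => f (enc 0 η)) := fun f => listM_sites m _ _ _ 0 f
  unfold Mean.var at h1 ⊢
  rw [h2, h2] at h1
  simp only [run_enc_zero] at h1
  rw [cfg_hf_mean a q m ha hq j hj] at h1 ⊢
  exact h1

variable (hs : a + ∑ i ∈ range m, q i ≤ 1)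

/-- the joint law of initial configuration and events -/
noncomputable def JM : Mean (List Bool × List Ev) :=
  prodM (cfg a q m ha hq) (iid (evM a q m ha.le hq hs) T)

lemma JM_enc (f : List Ev → ℝ) : (JM a q m T ha hq hs).E (fun x => f (enc 0 x.1 ++ x.2)) =
    (listM (sites (rho q a) (rho_nonneg hq ha) (rho_le_one hq ha) 0 m ++
      List.replicate T (evM a q m ha.le hq hs))).E f := by
  rw [listM_append, listM_sites]
  rfl

lemma H_mean : (JM a q m T ha hq hs).E (fun x => (run (hf 0 x.1) x.2 m : ℝ)) = FF a q m T := by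
  have := stationary_mean a ha q hq m hs T 0
  rw [Nat.cast_zero, zero_add] at this
  exact this

lemma H_var : (JM a q m T ha hq hs).var (fun x => (run (hf 0 x.1) x.2 m : ℝ)) ≤ FF a q m T := by
  have h1 := var_le_of_SB nul (sites (rho q a) (rho_nonneg hq ha) (rho_le_one hq ha) 0 m ++
      List.replicate T (evM a q m ha.le hq hs))
    (fun l : List Ev => (run (fun _ => 0) (l.map id) m : ℝ)) (run_SB id rfl m)
  simp only [List.map_id_fun, id_eq] at h1
  unfold Mean.var at h1 ⊢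
  rw [← JM_enc, ← JM_enc a q m T ha hq hs] at h1
  simp only [run_append, run_enc_zero] at h1
  rw [H_mean a q m T ha hq hs] at h1 ⊢
  exact h1

lemma A_var (hs0 : 0 + ∑ i ∈ range m, q i ≤ 1) (t : ℕ) :
    (iid (evM a q m ha.le hq hs) t).var (fun l => (run (fun _ => 0) (l.map fL) m : ℝ)) ≤
    (iid (evM a q m ha.le hq hs) t).E (fun l => (run (fun _ => 0) (l.map fL) m : ℝ)) :=
  var_le_of_SB nul _ _ (run_SB fL rfl m)

lemma AG_var (j t : ℕ) :
    (iid (evM a q m ha.le hq hs) t).var (fun l => (run (fun _ => 0) (l.map (fG j)) m : ℝ)) ≤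
    (iid (evM a q m ha.le hq hs) t).E (fun l => (run (fun _ => 0) (l.map (fG j)) m : ℝ)) :=
  var_le_of_SB nul _ _ (run_SB (fG j) rfl m)

end

section bounds
variable (a : ℝ) (q : ℕ → ℝ) (m T : ℕ) (ha : 0 < a) (hq : ∀ i, 0 ≤ q i)
  (hs2 : 2 * a + ∑ i ∈ range m, q i ≤ 1) (hs : a + ∑ i ∈ range m, q i ≤ 1)
  (hT : (T : ℝ) = ∑ i ∈ range m, sg q a i) (hT0 : 0 < T)

include ha hq in
lemma sumrho_le (j : ℕ) (hj : j ≤ m) : ∑ i ∈ range j, rho q a i ≤ FF a q m T := by
  unfold FF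
  have h1 : ∑ i ∈ range j, rho q a i ≤ ∑ i ∈ range m, rho q a i :=
    sum_le_sum_of_subset_of_nonneg (range_subset_range.mpr hj) fun i _ _ => rho_nonneg hq ha i
  have h2 : 0 ≤ a * T := by positivity
  linarith

include ha hq in
lemma az_le (z : ℕ) (hz : z ≤ T) : a * z ≤ FF a q m T := by
  unfold FF
  have h1 : 0 ≤ ∑ i ∈ range m, rho q a i := sum_nonneg fun i _ => rho_nonneg hq ha i
  have h2 : (z : ℝ) ≤ T := by exact_mod_cast hz
  nlinarith

/-- probability bound for the number of sources -/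
lemma P_N (z : ℕ) (hz : z ≤ T) (y : ℝ) (hy : 0 ≤ y) :
    y ^ 2 * (iid (evM a q m ha.le hq hs) T).P (fun l => a * z + y ≤ (ns (l.take z) : ℝ)) ≤
      FF a q m T := by
  apply Mean.cheb_upper _ _ _ _ _ _ _ hy
  · rw [iid_take_var _ T z hz (fun l => (ns l : ℝ))]
    exact (ns_var_le a q m ha.le hq hs z).trans (az_le a q m T ha hq z hz)
  · rw [iid_take _ T z hz (fun l => (ns l : ℝ)), ns_mean]

include hs2 hT hT0 in
/-- probability bound for the letters after time `z` -/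
lemma P_A (z : ℕ) (hz : z ≤ T) (y : ℝ) (hy : 0 ≤ y) :
    y ^ 2 * (iid (evM a q m ha.le hq hs) T).P (fun l =>
      FF a q m T - a * z - a * z ^ 2 / (4 * T) + y ≤ (run (fun _ => 0) ((l.drop z).map fL) m : ℝ)) ≤
      FF a q m T := by
  have hs0 : 0 + ∑ i ∈ range m, q i ≤ 1 := by linarith
  have h1 : (iid (evM a q m ha.le hq hs) (T - z)).E
      (fun l => (run (fun _ => 0) (l.map fL) m : ℝ)) ≤
      FF a q m T - a * z - a * z ^ 2 / (4 * T) := by
    rw [← iid_map _ fL _ (fun l => (run (fun _ => 0) l m : ℝ)), evM_map_fL a q m ha.le hq hs hs0]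
    exact margin_z a q m T ha hq hs2 hs0 hT hT0 z hz
  apply Mean.cheb_upper _ _ _ _ _ _ _ hy
  · rw [iid_drop_var _ T z hz (fun l => (run (fun _ => 0) (l.map fL) m : ℝ))]
    refine (A_var a q m ha hq hs hs0 (T - z)).trans (h1.trans ?_)
    have h2 : 0 ≤ a * z := by positivity
    have h3 : 0 ≤ a * (z : ℝ) ^ 2 / (4 * T) := by positivity
    linarith
  · rw [iid_drop _ T z hz (fun l => (run (fun _ => 0) (l.map fL) m : ℝ))]
    exact h1

include hs2 hT hT0 in
/-- probability bound for the letters above `j` -/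
lemma P_G (j : ℕ) (hj : j ≤ m) (y : ℝ) (hy : 0 ≤ y) :
    y ^ 2 * (iid (evM a q m ha.le hq hs) T).P (fun l =>
      FF a q m T - ∑ i ∈ range j, rho q a i - a * (∑ i ∈ range j, sg q a i) ^ 2 / (8 * T) + y ≤
        (run (fun _ => 0) (l.map (fG j)) m : ℝ)) ≤
      FF a q m T := by
  have hs0 : 0 + ∑ i ∈ range m, qG q j i ≤ 1 := by
    have hqs : ∑ i ∈ range m, qG q j i ≤ ∑ i ∈ range m, q i := sum_le_sum fun i _ => qG_le hq j i
    linarith
  have h1 : (iid (evM a q m ha.le hq hs) T).E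
      (fun l => (run (fun _ => 0) (l.map (fG j)) m : ℝ)) ≤
      FF a q m T - ∑ i ∈ range j, rho q a i - a * (∑ i ∈ range j, sg q a i) ^ 2 / (8 * T) := by
    rw [← iid_map _ (fG j) _ (fun l => (run (fun _ => 0) l m : ℝ)), evM_map_fG a q m j ha.le hq hs hs0]
    exact margin_j a q m T ha hq hs2 hT hT0 j hj hs0
  apply Mean.cheb_upper _ _ _ _ _ _ _ hy
  · refine (AG_var a q m ha hq hs j T).trans (h1.trans ?_)
    have h2 : 0 ≤ ∑ i ∈ range j, rho q a i := sum_nonneg fun i _ => rho_nonneg hq ha i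
    have h3 : 0 ≤ a * (∑ i ∈ range j, sg q a i) ^ 2 / (8 * T) := by positivity
    linarith
  · exact h1

lemma P_B1 (j : ℕ) (hj : j ≤ m) (y : ℝ) (hy : 0 ≤ y) :
    y ^ 2 * (cfg a q m ha hq).P (fun η => ∑ i ∈ range j, rho q a i + y ≤ (hf 0 η j : ℝ)) ≤
      FF a q m T := by
  apply Mean.cheb_upper _ _ _ _ _ _ _ hy
  · exact (cfg_hf_var a q m ha hq j hj).trans (sumrho_le a q m T ha hq j hj)
  · rw [cfg_hf_mean a q m ha hq j hj]

lemma P_B2 (j : ℕ) (hj : j ≤ m) (y : ℝ) (hy : 0 ≤ y) :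
    y ^ 2 * (cfg a q m ha hq).P (fun η => (hf 0 η j : ℝ) ≤ ∑ i ∈ range j, rho q a i - y) ≤
      FF a q m T := by
  apply Mean.cheb_lower _ _ _ _ _ _ _ hy
  · exact (cfg_hf_var a q m ha hq j hj).trans (sumrho_le a q m T ha hq j hj)
  · rw [cfg_hf_mean a q m ha hq j hj]

lemma P_H (y : ℝ) (hy : 0 ≤ y) :
    y ^ 2 * (JM a q m T ha hq hs).P (fun x => (run (hf 0 x.1) x.2 m : ℝ) ≤ FF a q m T - y) ≤
      FF a q m T := by
  apply Mean.cheb_lower _ _ _ _ _ _ _ hy
  · exact H_var a q m T ha hq hs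
  · rw [H_mean]

end bounds

end Pool.Agent.Lib.MP_6ef346_pr
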