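import Pool.Agent.Lib.MP_6ef346_pr.Reg1

/-!
The exit point argument: pathwise part.
-/

open Finset

namespace Pool.Agent.Lib.MP_6ef346_pr

open Ev

section
variable (a : ℝ) (q : ℕ → ℝ) (m : ℕ)

/-- partial sums of `sg` -/
noncomputable def ww (a : ℝ) (q : ℕ → ℝ) (j : ℕ) : ℝ := ∑ i ∈ range j, sg q a i

open Classical in
/-- the letters collected greedily -/
noncomputable def AA (W Λ : ℝ) : Finset ℕ :=
  (range m).filter fun i => ww a q (i + 1) ≤ W ∧ a < q i ∧ 1 / q i ≤ Λ

open Classical in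
/-- the rare letters which are skipped -/
noncomputable def DD (W Λ : ℝ) : Finset ℕ :=
  (range m).filter fun i => ww a q (i + 1) ≤ W ∧ a < q i ∧ Λ < 1 / q i

open Classical in
/-- the indicator of the letters with small density -/
noncomputable def cB (W : ℝ) (i : ℕ) : ℝ := if ww a q (i + 1) ≤ W ∧ q i ≤ a then 1 else 0

end

section
variable {a : ℝ} {q : ℕ → ℝ} {m : ℕ} (ha : 0 < a) (hq : ∀ i, 0 ≤ q i)
include ha hq

lemma ww_mono {j j' : ℕ} (h : j ≤ j') : ww a q j ≤ ww a q j' :=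
  sum_le_sum_of_subset_of_nonneg (range_subset_range.mpr h) fun i _ _ => sg_nonneg hq ha i

lemma ww_nonneg (j : ℕ) : 0 ≤ ww a q j := sum_nonneg fun i _ => sg_nonneg hq ha i

/-- the sum over an initial segment -/
lemma low_sum (W : ℝ) (hW : 0 ≤ W) (S : Finset ℕ) (hS : ∀ i ∈ S, ww a q (i + 1) ≤ W) :
    ∑ i ∈ S, sg q a i ≤ W := by
  rcases S.eq_empty_or_nonempty with h | h
  · subst h; simpa using hW
  · have h1 := hS _ (S.max'_mem h)
    refine le_trans ?_ h1
    unfold ww
    apply sum_le_sum_of_subset_of_nonneg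
    · intro i hi
      have := S.le_max' i hi
      simp only [mem_range]
      omega
    · intro i _ _
      exact sg_nonneg hq ha i

lemma inv_le_sg (i : ℕ) (h : a < q i) : 1 / q i ≤ 4 * sg q a i := by
  have _ := hq
  have hqi : 0 < q i := ha.trans h
  unfold sg
  rw [← mul_div_assoc, div_le_div_iff₀ hqi (by positivity)]
  nlinarith

lemma cost_AA (W Λ : ℝ) (hW : 0 ≤ W) : ∑ i ∈ AA a q m W Λ, 1 / q i ≤ 4 * W := by
  classical
  have h1 : ∑ i ∈ AA a q m W Λ, 1 / q i ≤ ∑ i ∈ AA a q m W Λ, 4 * sg q a i := by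
    apply sum_le_sum
    intro i hi
    simp only [AA, mem_filter] at hi
    exact inv_le_sg ha hq i hi.2.2.1
  refine h1.trans ?_
  rw [← mul_sum]
  have := low_sum ha hq W hW (AA a q m W Λ) (fun i hi => by
    simp only [AA, mem_filter] at hi
    exact hi.2.1)
  linarith

lemma card_DD (W Λ : ℝ) (hW : 0 ≤ W) : ((DD a q m W Λ).card : ℝ) * Λ ≤ 4 * W := by
  classical
  have h1 : ((DD a q m W Λ).card : ℝ) * Λ ≤ ∑ i ∈ DD a q m W Λ, 4 * sg q a i := by
    rw [← nsmul_eq_mul, ← sum_const]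
    apply sum_le_sum
    intro i hi
    simp only [DD, mem_filter] at hi
    exact hi.2.2.2.le.trans (inv_le_sg ha hq i hi.2.2.1)
  refine h1.trans ?_
  rw [← mul_sum]
  have := low_sum ha hq W hW (DD a q m W Λ) (fun i hi => by
    simp only [DD, mem_filter] at hi
    exact hi.2.1)
  linarith

lemma cB_mean (W : ℝ) (hW : 0 ≤ W) : (cfg a q m ha hq).E (wsum (cB a q W)) ≤ 2 * (a * W) := by
  classical
  rw [cfg_E, EB_wsum]
  have h1 : ∑ i ∈ range m, cB a q W i * rho q a i ≤
      ∑ i ∈ (range m).filter (fun i => ww a q (i + 1) ≤ W), 2 * (a * sg q a i) := by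
    rw [sum_filter]
    apply sum_le_sum
    intro i _
    unfold cB
    by_cases h2 : ww a q (i + 1) ≤ W
    · by_cases h3 : q i ≤ a
      · rw [if_pos ⟨h2, h3⟩, if_pos h2, one_mul, a_mul_sg hq ha]
        have h4 : rho q a i ≤ 1 / 2 := by
          unfold rho
          rw [div_le_iff₀ (by have := hq i; linarith)]
          linarith
        have h5 := rho_nonneg hq ha i
        nlinarith
      · rw [if_neg (fun h => h3 h.2), if_pos h2, zero_mul]
        have := sg_nonneg hq ha i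
        positivity
    · rw [if_neg (fun h => h2 h.1), if_neg h2, zero_mul]
  refine h1.trans ?_
  rw [← mul_sum, ← mul_sum]
  have := low_sum ha hq W hW ((range m).filter (fun i => ww a q (i + 1) ≤ W)) (fun i hi => by
    simp only [mem_filter] at hi
    exact hi.2)
  have h2 : a * ∑ i ∈ (range m).filter (fun i => ww a q (i + 1) ≤ W), sg q a i ≤ a * W :=
    mul_le_mul_of_nonneg_left this ha.le
  linarith

/-- the number of particles in a low block. -/
lemma hf_le_low (W Λ : ℝ) (η : List Bool) (hη : η.length = m) (j : ℕ) (hj : j ≤ m)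
    (hw : ww a q j ≤ W) :
    (hf 0 η j : ℝ) ≤ (((AA a q m W Λ).filter (· < j)).card : ℝ) + ((DD a q m W Λ).card : ℝ) +
      wsum (cB a q W) η := by
  classical
  rw [hf_eq_wsum, Nat.cast_zero, zero_add]
  let c1 : ℕ → ℝ := fun i => if i ∈ (AA a q m W Λ).filter (· < j) then 1 else 0
  let c2 : ℕ → ℝ := fun i => if i ∈ DD a q m W Λ then 1 else 0
  have h1 : wsum (fun i => if i < j then (1 : ℝ) else 0) η ≤
      wsum (fun i => (c1 i + c2 i) + cB a q W i) η := by
    apply wsum_mono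
    intro i
    have n1 : 0 ≤ c1 i := by simp only [c1]; split_ifs <;> norm_num
    have n2 : 0 ≤ c2 i := by simp only [c2]; split_ifs <;> norm_num
    have n3 : 0 ≤ cB a q W i := by unfold cB; split_ifs <;> norm_num
    by_cases hij : i < j
    · rw [if_pos hij]
      have hwi : ww a q (i + 1) ≤ W := (ww_mono ha hq (by omega)).trans hw
      by_cases h2 : q i ≤ a
      · have : cB a q W i = 1 := by unfold cB; rw [if_pos ⟨hwi, h2⟩]
        rw [this]; linarith
      · rw [not_le] at h2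
        by_cases h3 : 1 / q i ≤ Λ
        · have : c1 i = 1 := by
            simp only [c1]
            rw [if_pos]
            simp only [AA, mem_filter, mem_range]
            exact ⟨⟨by omega, hwi, h2, h3⟩, hij⟩
          rw [this]; linarith
        · rw [not_le] at h3
          have : c2 i = 1 := by
            simp only [c2]
            rw [if_pos]
            simp only [DD, mem_filter, mem_range]
            exact ⟨by omega, hwi, h2, h3⟩
          rw [this]; linarith
    · rw [if_neg hij]; linarith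
  refine h1.trans ?_
  rw [wsum_add, wsum_add]
  have hc1 : wsum c1 η ≤ (((AA a q m W Λ).filter (· < j)).card : ℝ) := by
    refine (wsum_le_sum (fun i => ?_) η).trans ?_
    · simp only [c1]; split_ifs <;> norm_num
    · rw [hη]
      simp only [c1]
      rw [sum_ite_mem]
      simp only [sum_const, nsmul_eq_mul, mul_one]
      exact_mod_cast card_le_card inter_subset_right
  have hc2 : wsum c2 η ≤ ((DD a q m W Λ).card : ℝ) := by
    refine (wsum_le_sum (fun i => ?_) η).trans ?_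
    · simp only [c2]; split_ifs <;> norm_num
    · rw [hη]
      simp only [c2]
      rw [sum_ite_mem]
      simp only [sum_const, nsmul_eq_mul, mul_one]
      exact_mod_cast card_le_card inter_subset_right
  linarith

/-- The deterministic exit point estimate. -/
theorem path_bound (T M : ℕ) (hT0 : 0 < T) (δ ω κ Λ F : ℝ)
    (hδ : 0 ≤ δ) (hω : 0 ≤ ω) (hκ : κ * F ≤ a * T) (hF : 0 < F) (haT : a * T ≤ F)
    (hc : 8 * (3 * δ + 1 / M) ≤ κ * ω ^ 2)
    (η : List Bool) (l g : List Ev) (hη : η.length = m) (hl : l.length = T)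
    (hz : ∀ z ≤ T, ∃ z₀ z₁ : ℕ, z₀ ≤ z ∧ z ≤ z₁ ∧ a * (z₁ : ℝ) ≤ a * z₀ + F / M ∧
      (ns (l.take z₁) : ℝ) < a * z₁ + δ * F ∧
      (run (fun _ => 0) ((l.drop z₀).map fL) m : ℝ) < F - a * z₀ - a * z₀ ^ 2 / (4 * T) + δ * F)
    (hj : ∀ j ≤ m, ∃ j₀ j₁ : ℕ, j₀ ≤ j ∧ j ≤ j₁ ∧
      ∑ i ∈ range j₁, rho q a i ≤ ∑ i ∈ range j₀, rho q a i + F / M ∧
      (hf 0 η j₁ : ℝ) < ∑ i ∈ range j₁, rho q a i + δ * F ∧
      ∑ i ∈ range j₀, rho q a i - δ * F < (hf 0 η j₀ : ℝ) ∧
      (run (fun _ => 0) (l.map (fG j₀)) m : ℝ) < F - ∑ i ∈ range j₀, rho q a i -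
        a * (∑ i ∈ range j₀, sg q a i) ^ 2 / (8 * T) + δ * F)
    (hH : F - δ * F < (run (hf 0 η) l m : ℝ))
    (hg : grem ((AA a q m (ω * T) Λ).sort (· ≤ ·)) g = []) :
    F - (3 * δ + ω + 1 / M) * F - ((DD a q m (ω * T) Λ).card : ℝ) ≤
      (run (fun _ => 0) (g ++ l.map fL) m : ℝ) + wsum (cB a q (ω * T)) η := by
  classical
  have hTR : (0 : ℝ) < T := by exact_mod_cast hT0
  have hB0 : 0 ≤ wsum (cB a q (ω * T)) η :=
    wsum_nonneg (fun i => by unfold cB; split_ifs <;> norm_num) η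
  have hD0 : (0 : ℝ) ≤ ((DD a q m (ω * T) Λ).card : ℝ) := by positivity
  have hFM : F / M = (1 / M) * F := by ring
  have hkey : (3 * δ + 1 / M) * F ≤ ω ^ 2 * (a * T) / 8 := by
    have h1 : (3 * δ + 1 / M) * F ≤ κ * ω ^ 2 / 8 * F :=
      mul_le_mul_of_nonneg_right (by linarith) hF.le
    have h2 : ω ^ 2 * (κ * F) ≤ ω ^ 2 * (a * T) := mul_le_mul_of_nonneg_left hκ (sq_nonneg _)
    nlinarith
  have hδF : 0 ≤ δ * F := by positivity
  rcases exit_decomp (hf 0 η) (by simp) l m with ⟨z, hzl, h1⟩ | ⟨j, hjm, h1⟩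
  · rw [hl] at hzl
    obtain ⟨z₀, z₁, hz0, hz1, h2, h3, h4⟩ := hz z hzl
    have h1R : (run (hf 0 η) l m : ℝ) ≤ (ns (l.take z) : ℝ) +
        (run (fun _ => 0) ((l.drop z).map fL) m : ℝ) := by exact_mod_cast h1
    have h5 : (ns (l.take z) : ℝ) ≤ (ns (l.take z₁) : ℝ) := by exact_mod_cast ns_take_mono l hz1
    have h6 : (run (fun _ => 0) ((l.drop z).map fL) m : ℝ) ≤
        (run (fun _ => 0) ((l.drop z₀).map fL) m : ℝ) := by exact_mod_cast run_drop_anti l hz0 m
    have h7 : a * (z₀ : ℝ) ^ 2 / (4 * T) ≤ (3 * δ + 1 / M) * F := by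
      rw [hFM] at h2
      nlinarith
    have h8 : (z₀ : ℝ) ≤ ω * T := by
      have h9 : a * (z₀ : ℝ) ^ 2 / (4 * T) ≤ ω ^ 2 * (a * T) / 8 := h7.trans hkey
      rw [div_le_div_iff₀ (by positivity) (by norm_num)] at h9
      have h10 : (z₀ : ℝ) ^ 2 * (8 * a) ≤ (ω * T) ^ 2 * (8 * a) := by
        have : 0 ≤ ω ^ 2 * (a * T) * T := by positivity
        nlinarith
      have h11 : (z₀ : ℝ) ^ 2 ≤ (ω * T) ^ 2 := le_of_mul_le_mul_right h10 (by positivity)
      exact abs_le_of_sq_le_sq' h11 (by positivity) |>.2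
    have h9 : (run (fun _ => 0) ((l.drop z).map fL) m : ℝ) ≤
        (run (fun _ => 0) (l.map fL) m : ℝ) := by
      have := run_drop_anti l (Nat.zero_le z) m
      rw [List.drop_zero] at this
      exact_mod_cast this
    have h10 : (run (fun _ => 0) (l.map fL) m : ℝ) ≤
        (run (fun _ => 0) (g ++ l.map fL) m : ℝ) := by
      rw [run_append]
      exact_mod_cast run_mono _ (fun _ => Nat.zero_le _) m
    have h11 : a * (z₀ : ℝ) ≤ ω * F := by
      calc a * (z₀ : ℝ) ≤ a * (ω * T) := mul_le_mul_of_nonneg_left h8 ha.le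
        _ = ω * (a * T) := by ring
        _ ≤ ω * F := mul_le_mul_of_nonneg_left haT hω
    rw [hFM] at h2
    nlinarith
  · obtain ⟨j₀, j₁, hj0, hj1, h2, h3, h4, h5⟩ := hj j hjm
    have hj0m : j₀ ≤ m := hj0.trans hjm
    have h1R : (run (hf 0 η) l m : ℝ) ≤ (hf 0 η j : ℝ) +
        (run (fun _ => 0) (l.map (fG j)) m : ℝ) := by exact_mod_cast h1
    have h6 : (hf 0 η j : ℝ) ≤ (hf 0 η j₁ : ℝ) := by exact_mod_cast hf_monotone 0 η hj1
    have h7 : (run (fun _ => 0) (l.map (fG j)) m : ℝ) ≤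
        (run (fun _ => 0) (l.map (fG j₀)) m : ℝ) := by exact_mod_cast run_fG_anti l hj0 m
    have h8 : a * (∑ i ∈ range j₀, sg q a i) ^ 2 / (8 * T) ≤ (3 * δ + 1 / M) * F := by
      rw [hFM] at h2
      nlinarith
    have h9 : ww a q j₀ ≤ ω * T := by
      have h9 : a * (∑ i ∈ range j₀, sg q a i) ^ 2 / (8 * T) ≤ ω ^ 2 * (a * T) / 8 :=
        h8.trans hkey
      rw [div_le_div_iff₀ (by positivity) (by norm_num)] at h9
      have h10 : (∑ i ∈ range j₀, sg q a i) ^ 2 * (8 * a) ≤ (ω * T) ^ 2 * (8 * a) := by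
        nlinarith
      have h11 : (∑ i ∈ range j₀, sg q a i) ^ 2 ≤ (ω * T) ^ 2 :=
        le_of_mul_le_mul_right h10 (by positivity)
      exact abs_le_of_sq_le_sq' h11 (by positivity) |>.2
    have h10 := hf_le_low ha hq (ω * T) Λ η hη j₀ hj0m h9
    have h11 : ((AA a q m (ω * T) Λ).filter (· < j₀)).card ≤ run (fun _ => 0) g j₀ := by
      have hs : ((AA a q m (ω * T) Λ).sort (· ≤ ·)).Pairwise (· < ·) :=
        Finset.sortedLT_sort (AA a q m (ω * T) Λ) |>.pairwise
      have h12 := greedy_path g (fun _ => 0) [] _ (by simp) (by simp) hs hg j₀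
      rw [List.nil_append] at h12
      refine le_trans (le_of_eq ?_) h12
      rw [← List.toFinset_card_of_nodup]
      · congr 1
        ext i
        simp
      · exact (Finset.sort_nodup (AA a q m (ω * T) Λ) (· ≤ ·)).filter _
    have h12 : run (fun _ => 0) g j₀ + run (fun _ => 0) (l.map (fG j₀)) m ≤
        run (fun _ => 0) (g ++ l.map fL) m := by
      rw [run_append]
      have h13 := le_run_fG (run (fun _ => 0) g) (run_monotone g (fun _ _ _ => le_rfl))
        (l.map fL) j₀ m hj0m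
      rw [List.map_map] at h13
      have : fG j₀ ∘ fL = fG j₀ := by
        funext e
        cases e <;> simp [fG, fL]
      rw [this] at h13
      exact h13
    have h11R : (((AA a q m (ω * T) Λ).filter (· < j₀)).card : ℝ) ≤ (run (fun _ => 0) g j₀ : ℝ) := by
      exact_mod_cast h11
    have h12R : (run (fun _ => 0) g j₀ : ℝ) + (run (fun _ => 0) (l.map (fG j₀)) m : ℝ) ≤
        (run (fun _ => 0) (g ++ l.map fL) m : ℝ) := by exact_mod_cast h12
    have hωF : 0 ≤ ω * F := by positivity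
    rw [hFM] at h2
    have e1 : F - (3 * δ + ω + 1 / M) * F = F - 3 * (δ * F) - ω * F - (1 / M) * F := by ring
    rw [e1]
    linarith

end

end Pool.Agent.Lib.MP_6ef346_pr
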