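import Pool.Agent.Lib.MP_6ef346_pr.Reg1b

/-!
The lower bound in the first regime.
-/

open Finset

namespace Pool.Agent.Lib.MP_6ef346_pr

open Ev

lemma Mean.P_cells {α : Type} (M : Mean α) (n : ℕ) (s : ℕ → α → Prop) (c V : ℝ) (hc : 0 ≤ c)
    (h : ∀ k, c * M.P (s k) ≤ V) : c * M.P (fun x => ∃ k < n, s k x) ≤ n * V := by
  calc c * M.P (fun x => ∃ k < n, s k x) ≤ c * ∑ k ∈ range n, M.P (s k) :=
        mul_le_mul_of_nonneg_left (M.P_exists_lt n s) hc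
    _ = ∑ k ∈ range n, c * M.P (s k) := by rw [mul_sum]
    _ ≤ ∑ k ∈ range n, V := sum_le_sum fun k _ => h k
    _ = n * V := by rw [sum_const, card_range, nsmul_eq_mul]

/-- the probability that the greedy strategy fails -/
lemma greedy_fail (a : ℝ) (q : ℕ → ℝ) (m : ℕ) (ha : 0 < a) (hq : ∀ i, 0 ≤ q i)
    (hs0 : 0 + ∑ i ∈ range m, q i ≤ 1) (W δ₂ : ℝ) (hW : 0 ≤ W) (hδ₂ : 0 < δ₂)
    (n₁ : ℕ) (hn₁ : 8 * W ≤ n₁) (hn0 : 0 < n₁) :
    (iid (evM 0 q m le_rfl hq hs0) n₁).P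
      (fun g => grem ((AA a q m W (δ₂ * n₁ / 4)).sort (· ≤ ·)) g ≠ []) ≤ δ₂ := by
  classical
  set Λ : ℝ := δ₂ * n₁ / 4 with hΛ
  have hnR : (0 : ℝ) < n₁ := by exact_mod_cast hn0
  have hΛ0 : 0 ≤ Λ := by positivity
  set A := AA a q m W Λ with hA
  set as := A.sort (· ≤ ·) with has
  have hWc : Wc q as = ∑ a ∈ A, 1 / q a := by
    unfold Wc
    rw [has, ← Finset.sum_map_toList A (fun a => 1 / q a)]
    exact ((Finset.sort_perm_toList A (· ≤ ·)).map _).sum_eq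
  have hcost := cost_AA (m := m) ha hq W Λ hW
  have hmem : ∀ i ∈ as, i < m ∧ 0 < q i ∧ 1 / q i ≤ Λ := by
    intro i hi
    have hi' : i ∈ A := by simpa [has] using hi
    simp only [hA, AA, mem_filter, mem_range] at hi'
    exact ⟨hi'.1, ha.trans hi'.2.2.1, hi'.2.2.2⟩
  have hD : (n₁ : ℝ) / 2 ≤ 0 + n₁ - Wc q as := by
    rw [hWc]
    linarith
  have h1 := greedy_prob q hq m hs0 Λ hΛ0 n₁ as 0 hmem (le_trans (by positivity) hD)
  have h2 : (iid (evM 0 q m le_rfl hq hs0) n₁).P (fun g => grem as g ≠ []) =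
      (iid (evM 0 q m le_rfl hq hs0) n₁).E (fun l => if grem as l ≠ [] then (1 : ℝ) else 0) := by
    unfold Mean.P
    congr 1
    funext l
    split_ifs <;> rfl
  rw [h2]
  set p := (iid (evM 0 q m le_rfl hq hs0) n₁).E
    (fun l => if grem as l ≠ [] then (1 : ℝ) else 0) with hp
  have hp0 : 0 ≤ p := Mean.nonneg _ fun l => by split_ifs <;> norm_num
  have h3 : ((n₁ : ℝ) / 2) ^ 2 ≤ (0 + n₁ - Wc q as) ^ 2 := pow_le_pow_left₀ (by positivity) hD 2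
  have h4 : p * ((n₁ : ℝ) / 2) ^ 2 ≤ δ₂ * ((n₁ : ℝ) / 2) ^ 2 := by
    calc p * ((n₁ : ℝ) / 2) ^ 2 ≤ p * (0 + n₁ - Wc q as) ^ 2 := by gcongr
      _ ≤ 0 ^ 2 + Λ * n₁ := h1
      _ = δ₂ * ((n₁ : ℝ) / 2) ^ 2 := by rw [hΛ]; ring
  exact le_of_mul_le_mul_right h4 (by positivity)

/-- The lower bound when the source intensity is not negligible. -/
theorem regime1 (a : ℝ) (q : ℕ → ℝ) (m T : ℕ) (ha : 0 < a) (hq : ∀ i, 0 ≤ q i)
    (hs2 : 2 * a + ∑ i ∈ range m, q i ≤ 1) (hs0 : 0 + ∑ i ∈ range m, q i ≤ 1)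
    (hT : (T : ℝ) = ∑ i ∈ range m, sg q a i) (hT0 : 0 < T)
    (M : ℕ) (hM : 0 < M) (δ ω κ δ₂ : ℝ) (hδ : 0 < δ) (hω : 0 ≤ ω) (hδ₂ : 0 < δ₂)
    (hκ : κ * FF a q m T ≤ a * T) (hc : 8 * (3 * δ + 1 / M) ≤ κ * ω ^ 2)
    (n₁ : ℕ) (hn₁ : 8 * (ω * T) ≤ n₁) (hn0 : 0 < n₁) :
    FF a q m T * (1 - (3 * δ + 3 * ω + 1 / M + δ₂)) - 2 / δ₂ - (5 * M + 6) / δ ^ 2 ≤
      (iid (evM 0 q m le_rfl hq hs0) (n₁ + T)).E (fun l => (run (fun _ => 0) l m : ℝ)) := by
  classical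
  have hs : a + ∑ i ∈ range m, q i ≤ 1 := by linarith
  have hTR : (0 : ℝ) < T := by exact_mod_cast hT0
  have hnR : (0 : ℝ) < n₁ := by exact_mod_cast hn0
  have haT0 : 0 < a * T := by positivity
  have hρ0 : 0 ≤ ∑ i ∈ range m, rho q a i := sum_nonneg fun i _ => rho_nonneg hq ha i
  set F := FF a q m T with hFdef
  have haT : a * T ≤ F := by rw [hFdef]; unfold FF; linarith
  have hF : 0 < F := by linarith
  have hδF : 0 ≤ δ * F := by positivity
  set Λ : ℝ := δ₂ * n₁ / 4 with hΛ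
  set W : ℝ := ω * T with hW
  have hW0 : 0 ≤ W := by positivity
  -- the cells
  obtain ⟨loz, hiz, hcz, hcz'⟩ := cells (fun z => a * (z : ℝ)) T M F hF hM
    (fun z hz => ⟨by positivity, az_le a q m T ha hq z hz⟩)
  obtain ⟨loj, hij, hcj, hcj'⟩ := cells (fun j => ∑ i ∈ range j, rho q a i) m M F hF hM
    (fun j hj => ⟨sum_nonneg fun i _ => rho_nonneg hq ha i, sumrho_le a q m T ha hq j hj⟩)
  set w1 := evM a q m ha.le hq hs with hw1
  set w0 := evM 0 q m le_rfl hq hs0 with hw0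
  set JJ := JM a q m T ha hq hs with hJJ
  set MM := prodM (iid w0 n₁) JJ with hMM
  -- the events
  let B1 : List Ev → Prop := fun g => grem ((AA a q m W Λ).sort (· ≤ ·)) g ≠ []
  let B2 : List Bool × List Ev → Prop := fun x => (run (hf 0 x.1) x.2 m : ℝ) ≤ F - δ * F
  let B3 : ℕ → List Ev → Prop := fun k l => a * (hiz k : ℝ) + δ * F ≤ (ns (l.take (hiz k)) : ℝ)
  let B4 : ℕ → List Ev → Prop := fun k l =>
    F - a * (loz k : ℝ) - a * (loz k : ℝ) ^ 2 / (4 * T) + δ * F ≤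
      (run (fun _ => 0) ((l.drop (loz k)).map fL) m : ℝ)
  let B5 : ℕ → List Bool → Prop := fun k η =>
    ∑ i ∈ range (hij k), rho q a i + δ * F ≤ (hf 0 η (hij k) : ℝ)
  let B6 : ℕ → List Bool → Prop := fun k η =>
    (hf 0 η (loj k) : ℝ) ≤ ∑ i ∈ range (loj k), rho q a i - δ * F
  let B7 : ℕ → List Ev → Prop := fun k l =>
    F - ∑ i ∈ range (loj k), rho q a i - a * (∑ i ∈ range (loj k), sg q a i) ^ 2 / (8 * T) + δ * F ≤
      (run (fun _ => 0) (l.map (fG (loj k))) m : ℝ)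
  let Bad : List Ev × (List Bool × List Ev) → Prop := fun x =>
    B1 x.1 ∨ B2 x.2 ∨ (∃ k < M + 1, B3 k x.2.2) ∨ (∃ k < M + 1, B4 k x.2.2) ∨
      (∃ k < M + 1, B5 k x.2.1) ∨ (∃ k < M + 1, B6 k x.2.1) ∨ (∃ k < M + 1, B7 k x.2.2)
  have hP1 : MM.P (fun x => B1 x.1) ≤ δ₂ := by
    rw [hMM, prodM_P_fst]
    exact greedy_fail a q m ha hq hs0 W δ₂ hW0 hδ₂ n₁ hn₁ hn0
  have hc2 : 0 ≤ (δ * F) ^ 2 := sq_nonneg _
  have hP2 : (δ * F) ^ 2 * MM.P (fun x => B2 x.2) ≤ F := by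
    rw [hMM, prodM_P_snd]
    exact P_H a q m T ha hq hs (δ * F) hδF
  have hP3 : (δ * F) ^ 2 * MM.P (fun x => ∃ k < M + 1, B3 k x.2.2) ≤ (M + 1 : ℕ) * F := by
    rw [hMM, prodM_P_snd (iid w0 n₁) JJ (fun x => ∃ k < M + 1, B3 k x.2), hJJ, JM,
      prodM_P_snd _ _ (fun x => ∃ k < M + 1, B3 k x)]
    exact Mean.P_cells _ _ _ _ _ hc2 fun k => P_N a q m T ha hq hs (hiz k) (hcz k).2.1 _ hδF
  have hP4 : (δ * F) ^ 2 * MM.P (fun x => ∃ k < M + 1, B4 k x.2.2) ≤ (M + 1 : ℕ) * F := by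
    rw [hMM, prodM_P_snd (iid w0 n₁) JJ (fun x => ∃ k < M + 1, B4 k x.2), hJJ, JM,
      prodM_P_snd _ _ (fun x => ∃ k < M + 1, B4 k x)]
    exact Mean.P_cells _ _ _ _ _ hc2 fun k =>
      P_A a q m T ha hq hs2 hs hT hT0 (loz k) (hcz k).1 _ hδF
  have hP5 : (δ * F) ^ 2 * MM.P (fun x => ∃ k < M + 1, B5 k x.2.1) ≤ (M + 1 : ℕ) * F := by
    rw [hMM, prodM_P_snd (iid w0 n₁) JJ (fun x => ∃ k < M + 1, B5 k x.1), hJJ, JM,
      prodM_P_fst _ _ (fun x => ∃ k < M + 1, B5 k x)]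
    exact Mean.P_cells _ _ _ _ _ hc2 fun k => P_B1 a q m T ha hq (hij k) (hcj k).2.1 _ hδF
  have hP6 : (δ * F) ^ 2 * MM.P (fun x => ∃ k < M + 1, B6 k x.2.1) ≤ (M + 1 : ℕ) * F := by
    rw [hMM, prodM_P_snd (iid w0 n₁) JJ (fun x => ∃ k < M + 1, B6 k x.1), hJJ, JM,
      prodM_P_fst _ _ (fun x => ∃ k < M + 1, B6 k x)]
    exact Mean.P_cells _ _ _ _ _ hc2 fun k => P_B2 a q m T ha hq (loj k) (hcj k).1 _ hδF
  have hP7 : (δ * F) ^ 2 * MM.P (fun x => ∃ k < M + 1, B7 k x.2.2) ≤ (M + 1 : ℕ) * F := by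
    rw [hMM, prodM_P_snd (iid w0 n₁) JJ (fun x => ∃ k < M + 1, B7 k x.2), hJJ, JM,
      prodM_P_snd _ _ (fun x => ∃ k < M + 1, B7 k x)]
    exact Mean.P_cells _ _ _ _ _ hc2 fun k =>
      P_G a q m T ha hq hs2 hs hT hT0 (loj k) (hcj k).1 _ hδF
  have hBad : MM.P Bad ≤ MM.P (fun x => B1 x.1) + (MM.P (fun x => B2 x.2) +
      (MM.P (fun x => ∃ k < M + 1, B3 k x.2.2) + (MM.P (fun x => ∃ k < M + 1, B4 k x.2.2) +
      (MM.P (fun x => ∃ k < M + 1, B5 k x.2.1) + (MM.P (fun x => ∃ k < M + 1, B6 k x.2.1) +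
      MM.P (fun x => ∃ k < M + 1, B7 k x.2.2)))))) := by
    refine (MM.P_or (fun x => B1 x.1) _).trans (add_le_add le_rfl ?_)
    refine (MM.P_or (fun x => B2 x.2) _).trans (add_le_add le_rfl ?_)
    refine (MM.P_or (fun x => ∃ k < M + 1, B3 k x.2.2) _).trans (add_le_add le_rfl ?_)
    refine (MM.P_or (fun x => ∃ k < M + 1, B4 k x.2.2) _).trans (add_le_add le_rfl ?_)
    refine (MM.P_or (fun x => ∃ k < M + 1, B5 k x.2.1) _).trans (add_le_add le_rfl ?_)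
    exact MM.P_or (fun x => ∃ k < M + 1, B6 k x.2.1) _
  have hFP : F * MM.P Bad ≤ δ₂ * F + (5 * M + 6) / δ ^ 2 := by
    have h1 : (δ * F) ^ 2 * MM.P Bad ≤ (δ * F) ^ 2 * δ₂ + (5 * M + 6) * F := by
      have h2 := mul_le_mul_of_nonneg_left hBad hc2
      have h3 := mul_le_mul_of_nonneg_left hP1 hc2
      push_cast at hP3 hP4 hP5 hP6 hP7
      nlinarith
    have h2 : (F * MM.P Bad) * (δ ^ 2 * F) ≤ (δ₂ * F + (5 * M + 6) / δ ^ 2) * (δ ^ 2 * F) := by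
      calc (F * MM.P Bad) * (δ ^ 2 * F) = (δ * F) ^ 2 * MM.P Bad := by ring
        _ ≤ (δ * F) ^ 2 * δ₂ + (5 * M + 6) * F := h1
        _ = (δ₂ * F + (5 * M + 6) / δ ^ 2) * (δ ^ 2 * F) := by field_simp
    exact le_of_mul_le_mul_right h2 (by positivity)
  -- the expectation
  set R := (iid w0 (n₁ + T)).E (fun l => (run (fun _ => 0) l m : ℝ)) with hR
  have hR0 : 0 ≤ R := Mean.nonneg _ fun l => by positivity
  have hRE : MM.E (fun x => (run (fun _ => 0) (x.1 ++ x.2.2.map fL) m : ℝ)) = R := by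
    rw [hMM, prodM_E, hR, iid_add]
    congr 1
    funext g
    rw [hJJ, JM]
    rw [prodM_snd (cfg a q m ha hq) (iid w1 T)
      (fun l => (run (fun _ => 0) (g ++ l.map fL) m : ℝ))]
    rw [← iid_map w1 fL T (fun l => (run (fun _ => 0) (g ++ l) m : ℝ)), hw1,
      evM_map_fL a q m ha.le hq hs hs0]
  have hBE : MM.E (fun x => wsum (cB a q W) x.2.1) ≤ 2 * ω * F := by
    rw [hMM, prodM_snd (iid w0 n₁) JJ (fun x => wsum (cB a q W) x.1), hJJ, JM,
      prodM_fst]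
    refine (cB_mean ha hq W hW0).trans ?_
    rw [hW]
    nlinarith [mul_le_mul_of_nonneg_left haT hω]
  have hDD : ((DD a q m W Λ).card : ℝ) ≤ 2 / δ₂ := by
    have h1 := card_DD (m := m) ha hq W Λ hW0
    rw [le_div_iff₀ hδ₂]
    have h2 : ((DD a q m W Λ).card : ℝ) * δ₂ * (n₁ / 4) ≤ 2 * ((n₁ : ℝ) / 4) := by
      calc ((DD a q m W Λ).card : ℝ) * δ₂ * (n₁ / 4) = ((DD a q m W Λ).card : ℝ) * Λ := by
            rw [hΛ]; ring
        _ ≤ 4 * W := h1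
        _ ≤ 2 * ((n₁ : ℝ) / 4) := by linarith
    exact le_of_mul_le_mul_right h2 (by positivity)
  set V : ℝ := F - (3 * δ + ω + 1 / M) * F - ((DD a q m W Λ).card : ℝ) with hV
  have hMR : (0 : ℝ) < M := by exact_mod_cast hM
  have hcardnn : (0 : ℝ) ≤ ((DD a q m W Λ).card : ℝ) := by positivity
  have hVF : V ≤ F := by
    have : 0 ≤ (3 * δ + ω + 1 / M) * F := by positivity
    rw [hV]; linarith
  have hPB := MM.P_nonneg Bad
  have hmain : V - F * MM.P Bad ≤ R + 2 * ω * F := by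
    by_cases hV0 : 0 ≤ V
    · have h1 : MM.E (fun x => V * (1 - @ite ℝ (Bad x) (Classical.propDecidable _) 1 0)) ≤
          MM.E (fun x => (run (fun _ => 0) (x.1 ++ x.2.2.map fL) m : ℝ) +
            wsum (cB a q W) x.2.1) := by
        rw [hMM, prodM_E, prodM_E]
        apply Mean.mono
        intro g
        rw [hJJ, JM, prodM_E, prodM_E, cfg_E, cfg_E]
        apply EB_mono' _ _ (rho_nonneg hq ha) (rho_le_one hq ha)
        intro η hη
        apply iid_mono_length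
        intro l hl
        have hnn : 0 ≤ (run (fun _ => 0) (g ++ l.map fL) m : ℝ) + wsum (cB a q W) η := by
          have : 0 ≤ wsum (cB a q W) η :=
            wsum_nonneg (fun i => by unfold cB; split_ifs <;> norm_num) η
          positivity
        by_cases hb : Bad (g, (η, l))
        · simp only [hb, if_true, sub_self, mul_zero]
          exact hnn
        · simp only [hb, if_false, sub_zero, mul_one]
          simp only [Bad, not_or] at hb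
          obtain ⟨b1, b2, b3, b4, b5, b6, b7⟩ := hb
          push Not at b3 b4 b5 b6 b7
          simp only [B1, not_not] at b1
          apply path_bound ha hq T M hT0 δ ω κ Λ F hδ.le hω hκ hF haT hc η l g hη hl _ _ _ b1
          · intro z hz
            obtain ⟨k, hk, h1, h2⟩ := hcz' z hz
            exact ⟨loz k, hiz k, h1, h2, (hcz k).2.2, not_le.mp (b3 k hk), not_le.mp (b4 k hk)⟩
          · intro j hj
            obtain ⟨k, hk, h1, h2⟩ := hcj' j hj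
            exact ⟨loj k, hij k, h1, h2, (hcj k).2.2, not_le.mp (b5 k hk), not_le.mp (b6 k hk),
              not_le.mp (b7 k hk)⟩
          · exact not_le.mp b2
      rw [Mean.smul, Mean.sub, Mean.const, Mean.add, hRE] at h1
      have h2 : MM.E (fun x => @ite ℝ (Bad x) (Classical.propDecidable _) 1 0) = MM.P Bad := rfl
      rw [h2] at h1
      have h3 : V * MM.P Bad ≤ F * MM.P Bad := mul_le_mul_of_nonneg_right hVF hPB
      linarith
    · push Not at hV0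
      have h1 : 0 ≤ F * MM.P Bad := by positivity
      have h2 : 0 ≤ 2 * ω * F := by positivity
      linarith
  have e1 : F * (1 - (3 * δ + 3 * ω + 1 / M + δ₂)) = F - (3 * δ + ω + 1 / M) * F - 2 * ω * F - δ₂ * F := by
    ring
  rw [e1]
  linarith

end Pool.Agent.Lib.MP_6ef346_pr
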