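import Pool.Agent.Lib.MP_6ef346_pr.Reg1c

/-!
The second regime, and the lower bound at a critical source intensity.
-/

open Finset

namespace Pool.Agent.Lib.MP_6ef346_pr

open Ev

/-- The lower bound when the source intensity is negligible. -/
theorem regime2 (a : ℝ) (q : ℕ → ℝ) (m T : ℕ) (ha : 0 < a) (hq : ∀ i, 0 ≤ q i)
    (hs0 : 0 + ∑ i ∈ range m, q i ≤ 1)
    (hT : (T : ℝ) = ∑ i ∈ range m, sg q a i)
    (K κ θ δ₂ : ℝ) (hK : 0 < K) (hκ : a * T ≤ κ * FF a q m T) (hθ : 0 < θ)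
    (hδ₂ : 0 < δ₂) (hδθ : δ₂ ≤ θ ^ 2) (n : ℕ) (hn0 : 0 < n)
    (hn : (1 + 1 / K) ^ 2 * T ≤ (1 - θ) * n) :
    (FF a q m T * (1 - (K + 2) * κ) - 1 / δ₂) * (1 - δ₂ / θ ^ 2) ≤
      (iid (evM 0 q m le_rfl hq hs0) n).E (fun l => (run (fun _ => 0) l m : ℝ)) := by
  classical
  have hnR : (0 : ℝ) < n := by exact_mod_cast hn0
  set F := FF a q m T with hF
  set Λ : ℝ := δ₂ * n with hΛ
  set B := (range m).filter (fun i => K * a < q i) with hB
  set A := B.filter (fun i => 1 / q i ≤ Λ) with hA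
  have hBmem : ∀ i ∈ B, i < m ∧ K * a < q i := by
    intro i hi
    simpa [hB] using hi
  have hpos : ∀ i ∈ B, 0 < q i := fun i hi => lt_of_le_of_lt (by positivity) (hBmem i hi).2
  have hinv : ∀ i ∈ B, 1 / q i ≤ (1 + 1 / K) ^ 2 * sg q a i := by
    intro i hi
    have h1 := hpos i hi
    have h2 := (hBmem i hi).2
    unfold sg
    rw [← mul_div_assoc, div_le_div_iff₀ h1 (by positivity)]
    have h3 : q i + a ≤ (1 + 1 / K) * q i := by
      have : a ≤ 1 / K * q i := by
        rw [div_mul_eq_mul_div, le_div_iff₀ hK, one_mul]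
        linarith
      linarith
    have h4 : (q i + a) ^ 2 ≤ ((1 + 1 / K) * q i) ^ 2 := pow_le_pow_left₀ (by positivity) h3 2
    nlinarith
  have hcostB : ∑ i ∈ B, 1 / q i ≤ (1 + 1 / K) ^ 2 * T := by
    calc ∑ i ∈ B, 1 / q i ≤ ∑ i ∈ B, (1 + 1 / K) ^ 2 * sg q a i := sum_le_sum hinv
      _ ≤ ∑ i ∈ range m, (1 + 1 / K) ^ 2 * sg q a i := by
          apply sum_le_sum_of_subset_of_nonneg (filter_subset _ _)
          intro i _ _
          have := sg_nonneg hq ha i
          positivity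
      _ = (1 + 1 / K) ^ 2 * T := by rw [← mul_sum, ← hT]
  -- the number of big letters
  have hcardB : F * (1 - (K + 2) * κ) ≤ B.card := by
    have h1 : ∑ i ∈ range m, rho q a i ≤ B.card + (K + 1) * (a * T) := by
      have h2 : ∑ i ∈ range m, rho q a i ≤
          ∑ i ∈ range m, ((if K * a < q i then (1 : ℝ) else 0) + (K + 1) * (a * sg q a i)) := by
        apply sum_le_sum
        intro i _
        have h3 := rho_nonneg hq ha i
        have h4 := rho_le_one hq ha i
        have h5 := sg_nonneg hq ha i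
        by_cases h6 : K * a < q i
        · rw [if_pos h6]
          have : 0 ≤ (K + 1) * (a * sg q a i) := by positivity
          linarith
        · rw [if_neg h6, zero_add, a_mul_sg hq ha]
          push Not at h6
          have h7 : 1 ≤ (K + 1) * (1 - rho q a i) := by
            unfold rho
            have h8 : 0 < q i + a := by have := hq i; linarith
            have h9 : (K + 1) * (1 - q i / (q i + a)) = (K + 1) * a / (q i + a) := by
              field_simp
              ring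
            rw [h9, le_div_iff₀ h8]
            linarith
          nlinarith
      refine h2.trans (le_of_eq ?_)
      rw [sum_add_distrib, ← mul_sum, ← mul_sum, ← hT, sum_boole]
    have h2 : F = a * T + ∑ i ∈ range m, rho q a i := rfl
    have h3 : (K + 2) * (a * T) ≤ (K + 2) * (κ * F) := mul_le_mul_of_nonneg_left hκ (by linarith)
    nlinarith
  have hcardA : (B.card : ℝ) - 1 / δ₂ ≤ A.card := by
    have h1 : B.card = A.card + (B.filter (fun i => ¬ 1 / q i ≤ Λ)).card := by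
      rw [hA, card_filter_add_card_filter_not]
    have h2 : ((B.filter (fun i => ¬ 1 / q i ≤ Λ)).card : ℝ) * Λ ≤ n := by
      calc ((B.filter (fun i => ¬ 1 / q i ≤ Λ)).card : ℝ) * Λ =
          ∑ i ∈ B.filter (fun i => ¬ 1 / q i ≤ Λ), Λ := by rw [sum_const, nsmul_eq_mul]
        _ ≤ ∑ i ∈ B.filter (fun i => ¬ 1 / q i ≤ Λ), 1 / q i := by
            apply sum_le_sum
            intro i hi
            exact (not_le.mp (mem_filter.mp hi).2).le
        _ ≤ ∑ i ∈ B, 1 / q i := by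
            apply sum_le_sum_of_subset_of_nonneg (filter_subset _ _)
            intro i hi _
            have := hpos i hi
            positivity
        _ ≤ (1 + 1 / K) ^ 2 * T := hcostB
        _ ≤ (1 - θ) * n := hn
        _ ≤ n := by nlinarith
    have h3 : ((B.filter (fun i => ¬ 1 / q i ≤ Λ)).card : ℝ) ≤ 1 / δ₂ := by
      rw [le_div_iff₀ hδ₂]
      have h4 : ((B.filter (fun i => ¬ 1 / q i ≤ Λ)).card : ℝ) * δ₂ * n ≤ 1 * n := by
        rw [hΛ] at h2
        linarith
      exact le_of_mul_le_mul_right h4 hnR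
    have h5 : (B.card : ℝ) = A.card + ((B.filter (fun i => ¬ 1 / q i ≤ Λ)).card : ℝ) := by
      exact_mod_cast h1
    linarith
  have hΛ0 : 0 ≤ Λ := by positivity
  have h1 := greedy_mean q hq m hs0 Λ hΛ0 n hn0 θ hθ A
    (fun i hi => by
      rw [hA, mem_filter] at hi
      exact ⟨(hBmem i hi.1).1, hpos i hi.1, hi.2⟩)
    (by
      refine le_trans ?_ (hcostB.trans hn)
      apply sum_le_sum_of_subset_of_nonneg (filter_subset _ _)
      intro i hi _
      have := hpos i hi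
      positivity)
  have h2 : Λ / (θ ^ 2 * n) = δ₂ / θ ^ 2 := by
    rw [hΛ]
    field_simp
  rw [h2] at h1
  refine le_trans ?_ h1
  apply mul_le_mul_of_nonneg_right
  · linarith
  · have : δ₂ / θ ^ 2 ≤ 1 := by
      rw [div_le_one (by positivity)]
      exact hδθ
    linarith

/-- The lower bound at a critical source intensity. -/
theorem thmA (ε : ℝ) (hε : 0 < ε) (hε1 : ε ≤ 1) : ∃ C : ℝ, ∀ (m : ℕ) (q : ℕ → ℝ) (a : ℝ) (T n : ℕ)
    (_ : 0 < a) (hq : ∀ i, 0 ≤ q i) (_ : 2 * a + ∑ i ∈ range m, q i ≤ 1)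
    (hs0 : 0 + ∑ i ∈ range m, q i ≤ 1), (T : ℝ) = ∑ i ∈ range m, sg q a i → 0 < T →
    (1 + ε) * T ≤ n →
    (1 - ε) * FF a q m T - C ≤
      (iid (evM 0 q m le_rfl hq hs0) n).E (fun l => (run (fun _ => 0) l m : ℝ)) := by
  set K : ℝ := 8 / ε with hK
  have hK0 : 0 < K := by positivity
  set κ : ℝ := ε / (4 * (K + 2)) with hκ
  have hκ0 : 0 < κ := by positivity
  set ω : ℝ := ε / 8 with hω
  have hω0 : 0 < ω := by positivity
  set δ : ℝ := κ * ω ^ 2 / 48 with hδ
  have hδ0 : 0 < δ := by positivity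
  obtain ⟨M, hM⟩ := exists_nat_gt (16 / (κ * ω ^ 2))
  have hM0 : 0 < M := by
    have : (0 : ℝ) < M := lt_trans (by positivity) hM
    exact_mod_cast this
  have hMR : (0 : ℝ) < M := by exact_mod_cast hM0
  have hM1 : 1 / (M : ℝ) ≤ κ * ω ^ 2 / 16 := by
    rw [div_le_iff₀ hMR]
    rw [div_lt_iff₀ (by positivity)] at hM
    linarith
  set δ₂ : ℝ := (ε / 4) ^ 2 * (ε / 4) with hδ₂
  have hδ₂0 : 0 < δ₂ := by positivity
  have hκ1 : κ ≤ 1 := by
    rw [hκ, div_le_one (by positivity)]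
    linarith
  refine ⟨1 / δ₂ + (2 / (ε / 4) + (5 * M + 6) / δ ^ 2), ?_⟩
  intro m q a T n ha hq hs2 hs0 hT hT0 hn
  have hTR : (0 : ℝ) < T := by exact_mod_cast hT0
  have hnR : (0 : ℝ) < n := lt_of_lt_of_le (by positivity) hn
  have hn0 : 0 < n := by exact_mod_cast hnR
  have hρ0 : 0 ≤ ∑ i ∈ range m, rho q a i := sum_nonneg fun i _ => rho_nonneg hq ha i
  have hF0 : 0 ≤ FF a q m T := by unfold FF; positivity
  have hconst : 0 ≤ 2 / (ε / 4) + (5 * M + 6) / δ ^ 2 := by positivity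
  have hconst' : 0 ≤ 1 / δ₂ := by positivity
  have hεε : ε ^ 2 ≤ ε := by
    have := mul_le_mul_of_nonneg_left hε1 hε.le
    linarith
  have hδθ : δ₂ ≤ (ε / 4) ^ 2 := by
    rw [hδ₂]
    exact mul_le_of_le_one_right (sq_nonneg _) (by linarith)
  have harith1 : (1 + ε / 8) ^ 2 ≤ (1 - ε / 4) * (1 + ε) := by linarith
  have harith2 : 1 - ε ≤ (1 - ε / 4) ^ 2 := by linarith [sq_nonneg ε]
  have h3δ : 3 * δ = κ * ω ^ 2 / 16 := by rw [hδ]; ring
  have h8ω : 8 * (ω * (T : ℝ)) = ε * T := by rw [hω]; ring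
  have e1 : (K + 2) * κ = ε / 4 := by
    rw [hκ]; field_simp
  have e2 : δ₂ / (ε / 4) ^ 2 = ε / 4 := by rw [hδ₂]; field_simp
  have e3 : 1 / K = ε / 8 := by rw [hK]; field_simp
  have hκω : κ * ω ^ 2 ≤ ε := by
    have h5 : ω ^ 2 ≤ ε := by rw [hω]; linarith
    calc κ * ω ^ 2 ≤ 1 * ω ^ 2 := mul_le_mul_of_nonneg_right hκ1 (sq_nonneg _)
      _ ≤ ε := by linarith
  have h6 : 3 * ω = 3 * ε / 8 := by rw [hω]; ring
  clear_value K κ ω δ δ₂
  rcases le_total (a * T) (κ * FF a q m T) with hcase | hcase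
  · have h1 := regime2 a q m T ha hq hs0 hT K κ (ε / 4) δ₂ hK0 hcase (by positivity) hδ₂0
      hδθ n hn0 (by
        rw [e3]
        calc (1 + ε / 8) ^ 2 * (T : ℝ) ≤ (1 - ε / 4) * (1 + ε) * T :=
              mul_le_mul_of_nonneg_right harith1 hTR.le
          _ = (1 - ε / 4) * ((1 + ε) * T) := by ring
          _ ≤ (1 - ε / 4) * n := mul_le_mul_of_nonneg_left hn (by linarith))
    rw [e1, e2] at h1
    refine le_trans ?_ h1
    have h4 : (FF a q m T * (1 - ε / 4) - 1 / δ₂) * (1 - ε / 4) =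
        FF a q m T * (1 - ε / 4) ^ 2 - 1 / δ₂ * (1 - ε / 4) := by ring
    rw [h4]
    have h5 : 1 / δ₂ * (1 - ε / 4) ≤ 1 / δ₂ := mul_le_of_le_one_right hconst' (by linarith)
    have h6 : (1 - ε) * FF a q m T ≤ FF a q m T * (1 - ε / 4) ^ 2 := by
      rw [mul_comm]
      exact mul_le_mul_of_nonneg_left harith2 hF0
    linarith
  · obtain ⟨n₁, rfl⟩ : ∃ n₁, n = n₁ + T := by
      have : T ≤ n := by
        have h1 : (T : ℝ) ≤ n := by
          have : 0 ≤ ε * (T : ℝ) := by positivity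
          linarith
        exact_mod_cast h1
      exact ⟨n - T, by omega⟩
    have hn₁ : ε * T ≤ n₁ := by
      push_cast at hn
      linarith
    have hn₁0 : 0 < n₁ := by
      have : (0 : ℝ) < n₁ := lt_of_lt_of_le (by positivity) hn₁
      exact_mod_cast this
    have h1 := regime1 a q m T ha hq hs2 hs0 hT hT0 M hM0 δ ω κ (ε / 4) hδ0 hω0.le
      (by positivity) hcase (by rw [h3δ]; linarith) n₁ (by rw [h8ω]; exact hn₁) hn₁0
    refine le_trans ?_ h1
    have h2 : 3 * δ + 3 * ω + 1 / M + ε / 4 ≤ ε := by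
      rw [h3δ, h6]
      linarith
    have h3 : (1 - ε) * FF a q m T ≤
        FF a q m T * (1 - (3 * δ + 3 * ω + 1 / M + ε / 4)) := by
      rw [mul_comm]
      exact mul_le_mul_of_nonneg_left (by linarith) hF0
    linarith

end Pool.Agent.Lib.MP_6ef346_pr
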