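import Pool.Agent.Lib.MP_6ef346_pr.Greedy

/-!
Encoding of the initial configuration by events, product means, variance bounds.
-/

open Finset

namespace Pool.Agent.Lib.MP_6ef346_pr

open Ev

/-- encode a configuration as a list of events. -/
def enc : ℕ → List Bool → List Ev
  | _, [] => []
  | k, (b :: η) => (if b then el k else nul) :: enc (k + 1) η

lemma run_enc (η : List Bool) : ∀ (h : ℕ → ℕ) (k c : ℕ), (∀ j, k ≤ j → h j = c) →
    ∀ j, run h (enc k η) j = if j ≤ k then h j else hf c η (j - k) := by
  induction η with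
  | nil =>
    intro h k c hc j
    simp only [enc, run_nil, hf_nil]
    split_ifs with hj
    · rfl
    · exact hc j (by omega)
  | cons b η ih =>
    intro h k c hc j
    rw [enc, run_cons]
    cases b with
    | false =>
      simp only [Bool.false_eq_true, if_false, step_nul]
      rw [ih h (k + 1) c (fun j hj => hc j (by omega)) j]
      rcases lt_trichotomy j (k + 1) with h1 | h1 | h1
      · rw [if_pos (by omega), if_pos (by omega)]
      · subst h1
        rw [if_pos le_rfl, if_neg (by omega), hc _ (by omega)]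
        rw [show k + 1 - k = 0 + 1 by omega, hf_cons]
        simp
      · rw [if_neg (by omega), if_neg (by omega)]
        rw [show j - k = (j - (k + 1)) + 1 by omega, hf_cons]
        simp
    | true =>
      simp only [if_true]
      rw [ih (step (el k) h) (k + 1) (c + 1) (fun j hj => ?_) j]
      · rcases lt_trichotomy j (k + 1) with h1 | h1 | h1
        · rw [if_pos (by omega), if_pos (by omega)]
          simp only [step]
          rw [if_neg (by omega)]
        · subst h1
          rw [if_pos le_rfl, if_neg (by omega)]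
          simp only [step]
          rw [if_pos (by omega), hc _ (by omega), hc _ le_rfl]
          rw [show k + 1 - k = 0 + 1 by omega, hf_cons]
          simp
        · rw [if_neg (by omega), if_neg (by omega)]
          rw [show j - k = (j - (k + 1)) + 1 by omega, hf_cons]
          simp
      · simp only [step]
        rw [if_pos (by omega), hc _ (by omega), hc _ le_rfl]
        simp

lemma run_enc_zero (η : List Bool) : run (fun _ => 0) (enc 0 η) = hf 0 η := by
  funext j
  rw [run_enc η (fun _ => 0) 0 0 (fun _ _ => rfl) j]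
  split_ifs with h
  · have : j = 0 := by omega
    subst this
    simp
  · simp

/-- the list of laws of the sites. -/
noncomputable def sites : (ρ : ℕ → ℝ) → (∀ i, 0 ≤ ρ i) → (∀ i, ρ i ≤ 1) → ℕ → ℕ → List (Mean Ev)
  | _, _, _, _, 0 => []
  | ρ, h0, h1, k, (m + 1) => bern (ρ 0) (h0 0) (h1 0) (el k) nul ::
      sites (fun i => ρ (i + 1)) (fun i => h0 (i + 1)) (fun i => h1 (i + 1)) (k + 1) m

lemma listM_sites (m : ℕ) : ∀ (ρ : ℕ → ℝ) (h0 : ∀ i, 0 ≤ ρ i) (h1 : ∀ i, ρ i ≤ 1) (k : ℕ)
    (f : List Ev → ℝ), (listM (sites ρ h0 h1 k m)).E f = EB ρ m (fun η => f (enc k η)) := by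
  induction m with
  | zero => intro ρ h0 h1 k f; rfl
  | succ m ih =>
    intro ρ h0 h1 k f
    rw [sites, listM_cons, bern_E]
    simp only [EB, enc, if_true, Bool.false_eq_true, if_false]
    rw [ih, ih]

/-- independent product of two means -/
def prodM {α β : Type} (M : Mean α) (M' : Mean β) : Mean (α × β) :=
  M.bind fun x => M'.map fun y => (x, y)

section prod
variable {α β : Type} (M : Mean α) (M' : Mean β)

lemma prodM_E (f : α × β → ℝ) : (prodM M M').E f = M.E (fun x => M'.E (fun y => f (x, y))) := rfl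

lemma prodM_fst (f : α → ℝ) : (prodM M M').E (fun x => f x.1) = M.E f := by
  rw [prodM_E]
  simp only [Mean.const]

lemma prodM_snd (f : β → ℝ) : (prodM M M').E (fun x => f x.2) = M'.E f := by
  rw [prodM_E]
  simp only [Mean.const]

lemma prodM_P_fst (s : α → Prop) : (prodM M M').P (fun x => s x.1) = M.P s := by
  unfold Mean.P
  exact prodM_fst M M' (fun x => @ite ℝ (s x) (Classical.propDecidable _) 1 0)

lemma prodM_P_snd (s : β → Prop) : (prodM M M').P (fun x => s x.2) = M'.P s := by
  unfold Mean.P
  exact prodM_snd M M' (fun x => @ite ℝ (s x) (Classical.propDecidable _) 1 0)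

end prod

namespace Mean

variable {α : Type} (M : Mean α)

/-- one-sided Chebyshev bounds -/
lemma cheb_upper (f : α → ℝ) (V e y : ℝ) (hV : M.var f ≤ V) (he : M.E f ≤ e) (hy : 0 ≤ y) :
    y ^ 2 * M.P (fun x => e + y ≤ f x) ≤ V := by
  refine (M.chebyshev f _ y fun x hx => ?_).trans hV
  apply pow_le_pow_left₀ hy
  linarith

lemma cheb_lower (f : α → ℝ) (V e y : ℝ) (hV : M.var f ≤ V) (he : e ≤ M.E f) (hy : 0 ≤ y) :
    y ^ 2 * M.P (fun x => f x ≤ e - y) ≤ V := by
  refine (M.chebyshev f _ y fun x hx => ?_).trans hV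
  have h1 : f x - M.E f ≤ -y := by linarith
  nlinarith

lemma map_var {β : Type} (φ : α → β) (f : β → ℝ) : (M.map φ).var f = M.var (fun x => f (φ x)) := rfl

end Mean

/-! ### Laws of the pieces of an iid list -/

lemma iid_length (w : Mean Ev) (T : ℕ) (f g : List Ev → ℝ)
    (h : ∀ l : List Ev, l.length = T → f l = g l) : (iid w T).E f = (iid w T).E g := by
  apply listM_congr
  intro l hl
  exact h l (by simpa using hl)

lemma iid_mono_length (w : Mean Ev) (T : ℕ) (f g : List Ev → ℝ)
    (h : ∀ l : List Ev, l.length = T → f l ≤ g l) : (iid w T).E f ≤ (iid w T).E g := by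
  apply listM_mono
  intro l hl
  exact h l (by simpa using hl)

lemma iid_take (w : Mean Ev) (T z : ℕ) (hz : z ≤ T) (f : List Ev → ℝ) :
    (iid w T).E (fun l => f (l.take z)) = (iid w z).E f := by
  obtain ⟨T', rfl⟩ := Nat.exists_eq_add_of_le hz
  rw [iid_add]
  apply iid_length
  intro l hl
  have : ∀ l' : List Ev, (l ++ l').take z = l := by
    intro l'
    rw [← hl, List.take_left']
    rfl
  simp only [this, Mean.const]

lemma iid_drop (w : Mean Ev) (T z : ℕ) (hz : z ≤ T) (f : List Ev → ℝ) :
    (iid w T).E (fun l => f (l.drop z)) = (iid w (T - z)).E f := by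
  obtain ⟨T', rfl⟩ := Nat.exists_eq_add_of_le hz
  rw [iid_add]
  have h1 : (iid w z).E (fun l => (iid w T').E (fun l' => f ((l ++ l').drop z))) =
      (iid w z).E (fun _ => (iid w T').E f) := by
    apply iid_length
    intro l hl
    have : ∀ l' : List Ev, (l ++ l').drop z = l' := by
      intro l'
      rw [← hl, List.drop_left']
      rfl
    simp only [this]
  rw [h1, Mean.const, Nat.add_sub_cancel_left]

lemma iid_take_var (w : Mean Ev) (T z : ℕ) (hz : z ≤ T) (f : List Ev → ℝ) :
    (iid w T).var (fun l => f (l.take z)) = (iid w z).var f := by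
  unfold Mean.var
  rw [iid_take w T z hz]
  exact iid_take w T z hz (fun l => (f l - (iid w z).E f) ^ 2)

lemma iid_drop_var (w : Mean Ev) (T z : ℕ) (hz : z ≤ T) (f : List Ev → ℝ) :
    (iid w T).var (fun l => f (l.drop z)) = (iid w (T - z)).var f := by
  unfold Mean.var
  rw [iid_drop w T z hz]
  exact iid_drop w T z hz (fun l => (f l - (iid w (T - z)).E f) ^ 2)

lemma ns_mean (a : ℝ) (q : ℕ → ℝ) (m : ℕ) (ha : 0 ≤ a) (hq : ∀ i, 0 ≤ q i)
    (hs : a + ∑ i ∈ range m, q i ≤ 1) (T : ℕ) :
    (iid (evM a q m ha hq hs) T).E (fun l => (ns l : ℝ)) = a * T := by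
  induction T with
  | zero => simp [iid, ns]
  | succ T ih =>
    rw [iid_succ]
    have h1 : ∀ e : Ev, (iid (evM a q m ha hq hs) T).E (fun l => (ns (e :: l) : ℝ)) =
        (ns [e] : ℝ) + a * T := by
      intro e
      rw [← ih, ← Mean.const_add]
      congr 1
      funext l
      have := ns_append [e] l
      rw [List.singleton_append] at this
      rw [this]
      push_cast
      ring
    simp only [h1]
    rw [Mean.add_const, evM_E]
    have h2 : ns [src] = 1 := by simp [ns, fS, step]
    have h3 : ∀ i, ns [el i] = 0 := fun i => by simp [ns, fS, step]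
    have h4 : ns [nul] = 0 := by simp [ns, fS, step]
    simp only [h2, h3, h4]
    push_cast
    simp
    ring

lemma ns_var_le (a : ℝ) (q : ℕ → ℝ) (m : ℕ) (ha : 0 ≤ a) (hq : ∀ i, 0 ≤ q i)
    (hs : a + ∑ i ∈ range m, q i ≤ 1) (T : ℕ) :
    (iid (evM a q m ha hq hs) T).var (fun l => (ns l : ℝ)) ≤ a * T := by
  rw [← ns_mean a q m ha hq hs T]
  exact var_le_of_SB nul _ _ (run_SB fS rfl 0)

end Pool.Agent.Lib.MP_6ef346_pr
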