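import Pool.Agent.Lib.MP_6ef346_pr.Dyn2

/-!
Stationarity of the product Bernoulli measure.
-/

open Finset

namespace Pool.Agent.Lib.MP_6ef346_pr

open Ev

/-- particle configuration update -/
def upd : Ev → List Bool → List Bool
  | nul, l => l
  | _, [] => []
  | src, (true :: l) => false :: l
  | src, (false :: l) => false :: upd src l
  | el 0, (true :: l) => true :: l
  | el 0, (false :: l) => true :: upd src l
  | el (i + 1), (b :: l) => b :: upd (el i) l

@[simp] lemma upd_nul (l : List Bool) : upd nul l = l := by cases l <;> rfl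
@[simp] lemma upd_src_nil : upd src [] = [] := rfl
@[simp] lemma upd_src_true (l : List Bool) : upd src (true :: l) = false :: l := by
  simp [upd]
@[simp] lemma upd_src_false (l : List Bool) : upd src (false :: l) = false :: upd src l := by
  simp [upd]
@[simp] lemma upd_zero_true (l : List Bool) : upd (el 0) (true :: l) = true :: l := by
  simp [upd]
@[simp] lemma upd_zero_false (l : List Bool) : upd (el 0) (false :: l) = true :: upd src l := by
  simp [upd]
@[simp] lemma upd_succ (i : ℕ) (b : Bool) (l : List Bool) :
    upd (el (i + 1)) (b :: l) = b :: upd (el i) l := by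
  simp [upd]

/-- height function of a configuration. -/
def hf (N : ℕ) : List Bool → ℕ → ℕ
  | [], _ => N
  | _ :: _, 0 => N
  | b :: l, (j + 1) => hf (N + if b then 1 else 0) l j

@[simp] lemma hf_nil (N j : ℕ) : hf N [] j = N := by cases j <;> rfl
@[simp] lemma hf_zero (N : ℕ) (l : List Bool) : hf N l 0 = N := by cases l <;> rfl
@[simp] lemma hf_cons (N : ℕ) (b : Bool) (l : List Bool) (j : ℕ) :
    hf N (b :: l) (j + 1) = hf (N + if b then 1 else 0) l j := rfl

lemma le_hf (N : ℕ) (l : List Bool) (j : ℕ) : N ≤ hf N l j := by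
  induction l generalizing N j with
  | nil => simp
  | cons b l ih =>
    cases j with
    | zero => simp
    | succ j => rw [hf_cons]; have := ih (N + if b then 1 else 0) j; omega

lemma hf_monotone (N : ℕ) (l : List Bool) : Monotone (hf N l) := by
  apply monotone_nat_of_le_succ
  intro j
  induction l generalizing N j with
  | nil => simp
  | cons b l ih =>
    cases j with
    | zero => rw [hf_zero, hf_cons]; have := le_hf (N + if b then 1 else 0) l 0; omega
    | succ j => rw [hf_cons, hf_cons]; exact ih _ _

lemma step_src_hf (N : ℕ) (l : List Bool) (j : ℕ) : step src (hf N l) j = hf (N + 1) (upd src l) j := by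
  induction l generalizing N j with
  | nil => simp [step]
  | cons b l ih =>
    cases j with
    | zero => cases b <;> simp [step]
    | succ j =>
      cases b with
      | true =>
        simp only [step, hf_cons, hf_zero, upd_src_true, if_true, Bool.false_eq_true, if_false,
          add_zero]
        exact max_eq_left (le_hf _ _ _)
      | false =>
        simp only [upd_src_false, hf_cons, Bool.false_eq_true, if_false, add_zero]
        rw [← ih]
        simp [step]

lemma step_el_hf (N : ℕ) (l : List Bool) (i : ℕ) (hi : i < l.length) (j : ℕ) :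
    step (el i) (hf N l) j = hf N (upd (el i) l) j := by
  induction l generalizing N i j with
  | nil => simp at hi
  | cons b l ih =>
    cases i with
    | zero =>
      cases j with
      | zero => simp [step]
      | succ j =>
        cases b with
        | true =>
          simp only [step, hf_cons, hf_zero, upd_zero_true, if_true, Nat.succ_pos, if_true]
          exact max_eq_left (le_hf _ _ _)
        | false =>
          simp only [upd_zero_false, hf_cons, if_true]
          rw [← step_src_hf]
          simp [step]
    | succ i =>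
      cases j with
      | zero => simp [step]
      | succ j =>
        rw [upd_succ, hf_cons, ← ih _ i (by simpa using hi)]
        simp only [step, hf_cons, Nat.add_lt_add_iff_right]

/-- length is preserved -/
lemma upd_length (e : Ev) (l : List Bool) : (upd e l).length = l.length := by
  induction l generalizing e with
  | nil => cases e <;> simp [upd]
  | cons b l ih =>
    cases e with
    | nul => simp
    | src => cases b <;> simp [ih]
    | el i =>
      cases i with
      | zero => cases b <;> simp [ih]
      | succ i => simp [ih]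

/-! ### Means -/

/-- The weights of a Bernoulli parameter. -/
def bern (ρ : ℝ) (h0 : 0 ≤ ρ) (h1 : ρ ≤ 1) {α : Type} (x y : α) : Mean α where
  E f := ρ * f x + (1 - ρ) * f y
  add' f g := by ring
  smul' c f := by ring
  mono' f g h := by
    have := h x
    have := h y
    have : 0 ≤ 1 - ρ := by linarith
    gcongr
  one' := by ring

@[simp] lemma bern_E (ρ : ℝ) (h0 : 0 ≤ ρ) (h1 : ρ ≤ 1) {α : Type} (x y : α) (f : α → ℝ) :
    (bern ρ h0 h1 x y).E f = ρ * f x + (1 - ρ) * f y := rfl

/-- law of an event: source with probability `a`, letter `i < m` with probability `q i`. -/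
def evM (a : ℝ) (q : ℕ → ℝ) (m : ℕ) (ha : 0 ≤ a) (hq : ∀ i, 0 ≤ q i)
    (hs : a + ∑ i ∈ range m, q i ≤ 1) : Mean Ev where
  E f := a * f src + ∑ i ∈ range m, q i * f (el i) + (1 - a - ∑ i ∈ range m, q i) * f nul
  add' f g := by
    simp only [mul_add, sum_add_distrib]; ring
  smul' c f := by
    have : ∀ i, q i * (c * f (el i)) = c * (q i * f (el i)) := fun i => by ring
    simp only [this, ← mul_sum]; ring
  mono' f g h := by
    have h1 : a * f src ≤ a * g src := mul_le_mul_of_nonneg_left (h _) ha
    have h2 : ∑ i ∈ range m, q i * f (el i) ≤ ∑ i ∈ range m, q i * g (el i) :=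
      sum_le_sum fun i _ => mul_le_mul_of_nonneg_left (h _) (hq i)
    have h3 : (1 - a - ∑ i ∈ range m, q i) * f nul ≤ (1 - a - ∑ i ∈ range m, q i) * g nul :=
      mul_le_mul_of_nonneg_left (h _) (by linarith)
    linarith
  one' := by simp only [mul_one]; ring

@[simp] lemma evM_E (a : ℝ) (q : ℕ → ℝ) (m : ℕ) (ha : 0 ≤ a) (hq : ∀ i, 0 ≤ q i)
    (hs : a + ∑ i ∈ range m, q i ≤ 1) (f : Ev → ℝ) : (evM a q m ha hq hs).E f =
    a * f src + ∑ i ∈ range m, q i * f (el i) + (1 - a - ∑ i ∈ range m, q i) * f nul := rfl

/-- The product Bernoulli expectation of configurations of length `m`. -/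
noncomputable def EB : (ℕ → ℝ) → ℕ → (List Bool → ℝ) → ℝ
  | _, 0, f => f []
  | ρ, (m + 1), f => ρ 0 * EB (fun i => ρ (i + 1)) m (fun l => f (true :: l)) +
      (1 - ρ 0) * EB (fun i => ρ (i + 1)) m (fun l => f (false :: l))

lemma EB_add (ρ : ℕ → ℝ) (m : ℕ) (f g : List Bool → ℝ) :
    EB ρ m (fun l => f l + g l) = EB ρ m f + EB ρ m g := by
  induction m generalizing ρ f g with
  | zero => rfl
  | succ m ih => simp only [EB]; rw [ih, ih]; ring

lemma EB_smul (ρ : ℕ → ℝ) (m : ℕ) (c : ℝ) (f : List Bool → ℝ) :
    EB ρ m (fun l => c * f l) = c * EB ρ m f := by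
  induction m generalizing ρ f with
  | zero => rfl
  | succ m ih => simp only [EB]; rw [ih, ih]; ring

lemma EB_one (ρ : ℕ → ℝ) (m : ℕ) : EB ρ m (fun _ => 1) = 1 := by
  induction m generalizing ρ with
  | zero => rfl
  | succ m ih => simp only [EB]; rw [ih]; ring

lemma EB_mono (ρ : ℕ → ℝ) (m : ℕ) (h0 : ∀ i, 0 ≤ ρ i) (h1 : ∀ i, ρ i ≤ 1) (f g : List Bool → ℝ)
    (h : ∀ l, f l ≤ g l) : EB ρ m f ≤ EB ρ m g := by
  induction m generalizing ρ f g with
  | zero => exact h []
  | succ m ih =>
    simp only [EB]
    have h2 := ih (fun i => ρ (i + 1)) (fun i => h0 _) (fun i => h1 _) (fun l => f (true :: l))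
      (fun l => g (true :: l)) (fun l => h _)
    have h3 := ih (fun i => ρ (i + 1)) (fun i => h0 _) (fun i => h1 _) (fun l => f (false :: l))
      (fun l => g (false :: l)) (fun l => h _)
    have h4 : 0 ≤ 1 - ρ 0 := by linarith [h1 0]
    exact add_le_add (mul_le_mul_of_nonneg_left h2 (h0 0)) (mul_le_mul_of_nonneg_left h3 h4)

lemma EB_sum (ρ : ℕ → ℝ) (m : ℕ) {ι : Type} (s : Finset ι) (f : ι → List Bool → ℝ) :
    EB ρ m (fun l => ∑ i ∈ s, f i l) = ∑ i ∈ s, EB ρ m (f i) := by
  classical
  induction s using Finset.induction_on with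
  | empty =>
    simp only [sum_empty]
    have := EB_smul ρ m 0 (fun _ => 1)
    simpa using this
  | insert a s ha ih =>
    rw [Finset.sum_insert ha, ← ih, ← EB_add]
    congr 1
    funext x
    rw [Finset.sum_insert ha]

/-- The mean on configurations of length `m` with product Bernoulli law. -/
noncomputable def cfgM (ρ : ℕ → ℝ) (m : ℕ) (h0 : ∀ i, 0 ≤ ρ i) (h1 : ∀ i, ρ i ≤ 1) :
    Mean (List Bool) where
  E f := EB ρ m f
  add' f g := EB_add ρ m f g
  smul' c f := EB_smul ρ m c f
  mono' f g h := EB_mono ρ m h0 h1 f g h
  one' := EB_one ρ m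

@[simp] lemma cfgM_E (ρ : ℕ → ℝ) (m : ℕ) (h0 : ∀ i, 0 ≤ ρ i) (h1 : ∀ i, ρ i ≤ 1)
    (f : List Bool → ℝ) : (cfgM ρ m h0 h1).E f = EB ρ m f := rfl

/-- One-step stationarity. -/
theorem stationary_step (a : ℝ) (ha : 0 < a) (m : ℕ) : ∀ (q : ℕ → ℝ) (_ : ∀ i, 0 ≤ q i)
    (f : List Bool → ℝ),
    EB (fun i => q i / (q i + a)) m (fun l => a * f (upd src l) +
      ∑ i ∈ range m, q i * f (upd (el i) l) + (1 - a - ∑ i ∈ range m, q i) * f l) =
    EB (fun i => q i / (q i + a)) m f := by
  induction m with
  | zero =>
    intro q hq f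
    simp only [EB, range_zero, sum_empty, upd_src_nil]
    ring
  | succ m ih =>
    intro q hq f
    set ρ : ℕ → ℝ := fun i => q (i + 1) / (q (i + 1) + a) with hρ
    set s : ℝ := ∑ i ∈ range m, q (i + 1) with hs
    have hq0 : 0 < q 0 + a := by have := hq 0; linarith
    -- induction hypothesis for both branches
    have key : ∀ g : List Bool → ℝ, EB ρ m (fun l => ∑ i ∈ range m, q (i + 1) * g (upd (el i) l)) =
        (a + s) * EB ρ m g - a * EB ρ m (fun l => g (upd src l)) := by
      intro g
      have h := ih (fun i => q (i + 1)) (fun i => hq _) g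
      rw [EB_add, EB_add, EB_smul, EB_smul] at h
      linarith
    have hsum : ∀ (g : Ev → ℝ), ∑ i ∈ range (m + 1), q i * g (el i) =
        ∑ i ∈ range m, q (i + 1) * g (el (i + 1)) + q 0 * g (el 0) := by
      intro g; rw [sum_range_succ']
    have hsq : ∑ i ∈ range (m + 1), q i = s + q 0 := by rw [sum_range_succ']
    have hT : EB ρ m (fun l => a * f (upd src (true :: l)) +
        ∑ i ∈ range (m + 1), q i * f (upd (el i) (true :: l)) +
        (1 - a - ∑ i ∈ range (m + 1), q i) * f (true :: l)) =
        a * EB ρ m (fun l => f (false :: l)) + q 0 * EB ρ m (fun l => f (true :: l)) +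
        ((a + s) * EB ρ m (fun l => f (true :: l)) -
          a * EB ρ m (fun l => f (true :: upd src l))) +
        (1 - a - s - q 0) * EB ρ m (fun l => f (true :: l)) := by
      have e : (fun l => a * f (upd src (true :: l)) +
        ∑ i ∈ range (m + 1), q i * f (upd (el i) (true :: l)) +
        (1 - a - ∑ i ∈ range (m + 1), q i) * f (true :: l)) = fun l =>
          ((a * f (false :: l) + q 0 * f (true :: l)) +
          ∑ i ∈ range m, q (i + 1) * f (true :: upd (el i) l)) +
          (1 - a - s - q 0) * f (true :: l) := by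
        funext l
        rw [hsum (fun e => f (upd e (true :: l))), hsq]
        simp only [upd_src_true, upd_succ, upd_zero_true]
        ring
      rw [e, EB_add, EB_add, EB_add, EB_smul, EB_smul, EB_smul, key (fun l => f (true :: l))]
    have hF : EB ρ m (fun l => a * f (upd src (false :: l)) +
        ∑ i ∈ range (m + 1), q i * f (upd (el i) (false :: l)) +
        (1 - a - ∑ i ∈ range (m + 1), q i) * f (false :: l)) =
        a * EB ρ m (fun l => f (false :: upd src l)) + q 0 * EB ρ m (fun l => f (true :: upd src l)) +
        ((a + s) * EB ρ m (fun l => f (false :: l)) -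
          a * EB ρ m (fun l => f (false :: upd src l))) +
        (1 - a - s - q 0) * EB ρ m (fun l => f (false :: l)) := by
      have e : (fun l => a * f (upd src (false :: l)) +
        ∑ i ∈ range (m + 1), q i * f (upd (el i) (false :: l)) +
        (1 - a - ∑ i ∈ range (m + 1), q i) * f (false :: l)) = fun l =>
          ((a * f (false :: upd src l) + q 0 * f (true :: upd src l)) +
          ∑ i ∈ range m, q (i + 1) * f (false :: upd (el i) l)) +
          (1 - a - s - q 0) * f (false :: l) := by
        funext l
        rw [hsum (fun e => f (upd e (false :: l))), hsq]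
        simp only [upd_src_false, upd_succ, upd_zero_false]
        ring
      rw [e, EB_add, EB_add, EB_add, EB_smul, EB_smul, EB_smul, key (fun l => f (false :: l))]
    simp only [EB]
    rw [← hρ, hT, hF]
    have hr : q 0 / (q 0 + a) * a = (1 - q 0 / (q 0 + a)) * q 0 := by
      field_simp
      ring
    set r : ℝ := q 0 / (q 0 + a) with hrdef
    linear_combination (EB ρ m (fun l => f (false :: l)) - EB ρ m (fun l => f (true :: upd src l))) * hr

end Pool.Agent.Lib.MP_6ef346_pr
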