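import Pool.Agent.Lib.MP_6ef346_pr.Stat

/-!
Expected values in the stationary model and the upper bound.
-/

open Finset

namespace Pool.Agent.Lib.MP_6ef346_pr

open Ev

@[ext] lemma Mean.ext' {α : Type} {M M' : Mean α} (h : ∀ f, M.E f = M'.E f) : M = M' := by
  cases M; cases M'
  congr
  funext f
  exact h f

lemma EB_congr (ρ : ℕ → ℝ) (m : ℕ) (f g : List Bool → ℝ) (h : ∀ l : List Bool, l.length = m → f l = g l) :
    EB ρ m f = EB ρ m g := by
  induction m generalizing ρ f g with
  | zero => exact h [] rfl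
  | succ m ih =>
    simp only [EB]
    rw [ih _ _ _ fun l hl => h (true :: l) (by simp [hl]),
      ih _ _ _ fun l hl => h (false :: l) (by simp [hl])]

lemma EB_mono' (ρ : ℕ → ℝ) (m : ℕ) (h0 : ∀ i, 0 ≤ ρ i) (h1 : ∀ i, ρ i ≤ 1) (f g : List Bool → ℝ)
    (h : ∀ l : List Bool, l.length = m → f l ≤ g l) : EB ρ m f ≤ EB ρ m g := by
  induction m generalizing ρ f g with
  | zero => exact h [] rfl
  | succ m ih =>
    simp only [EB]
    have h2 := ih (fun i => ρ (i + 1)) (fun i => h0 _) (fun i => h1 _) (fun l => f (true :: l))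
      (fun l => g (true :: l)) (fun l hl => h _ (by simp [hl]))
    have h3 := ih (fun i => ρ (i + 1)) (fun i => h0 _) (fun i => h1 _) (fun l => f (false :: l))
      (fun l => g (false :: l)) (fun l hl => h _ (by simp [hl]))
    have h4 : 0 ≤ 1 - ρ 0 := by linarith [h1 0]
    exact add_le_add (mul_le_mul_of_nonneg_left h2 (h0 0)) (mul_le_mul_of_nonneg_left h3 h4)

/-- weighted count of particles. -/
def wsum : (ℕ → ℝ) → List Bool → ℝ
  | _, [] => 0
  | c, (b :: l) => (if b then c 0 else 0) + wsum (fun i => c (i + 1)) l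

lemma EB_wsum (ρ : ℕ → ℝ) (m : ℕ) (c : ℕ → ℝ) : EB ρ m (wsum c) = ∑ i ∈ range m, c i * ρ i := by
  induction m generalizing ρ c with
  | zero => simp [EB, wsum]
  | succ m ih =>
    simp only [EB, wsum, if_true, Bool.false_eq_true, if_false, zero_add]
    have h1 : EB (fun i => ρ (i + 1)) m (fun l => c 0 + wsum (fun i => c (i + 1)) l) =
        c 0 + EB (fun i => ρ (i + 1)) m (wsum (fun i => c (i + 1))) := by
      have := EB_add (fun i => ρ (i + 1)) m (fun _ => c 0) (wsum (fun i => c (i + 1)))
      rw [this]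
      congr 1
      have h2 := EB_smul (fun i => ρ (i + 1)) m (c 0) (fun _ => 1)
      rw [EB_one] at h2
      simpa using h2
    rw [h1, ih, sum_range_succ']
    ring

lemma wsum_mono {c c' : ℕ → ℝ} (h : ∀ i, c i ≤ c' i) (l : List Bool) : wsum c l ≤ wsum c' l := by
  induction l generalizing c c' with
  | nil => exact le_rfl
  | cons b l ih =>
    simp only [wsum]
    have h1 := ih (c := fun i => c (i + 1)) (c' := fun i => c' (i + 1)) (fun i => h _)
    split_ifs
    · linarith [h 0]
    · linarith

lemma wsum_add (c c' : ℕ → ℝ) (l : List Bool) :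
    wsum (fun i => c i + c' i) l = wsum c l + wsum c' l := by
  induction l generalizing c c' with
  | nil => simp [wsum]
  | cons b l ih =>
    simp only [wsum]
    rw [ih (fun i => c (i + 1)) (fun i => c' (i + 1))]
    split_ifs <;> ring

lemma wsum_nonneg {c : ℕ → ℝ} (h : ∀ i, 0 ≤ c i) (l : List Bool) : 0 ≤ wsum c l := by
  induction l generalizing c with
  | nil => exact le_rfl
  | cons b l ih =>
    simp only [wsum]
    have h1 := ih (c := fun i => c (i + 1)) (fun i => h _)
    split_ifs
    · linarith [h 0]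
    · linarith

lemma wsum_le_sum {c : ℕ → ℝ} (h : ∀ i, 0 ≤ c i) (l : List Bool) :
    wsum c l ≤ ∑ i ∈ range l.length, c i := by
  induction l generalizing c with
  | nil => simp [wsum]
  | cons b l ih =>
    simp only [wsum, List.length_cons]
    rw [sum_range_succ']
    have h1 := ih (c := fun i => c (i + 1)) (fun i => h _)
    split_ifs
    · linarith
    · linarith [h 0]

lemma hf_eq_wsum (N : ℕ) (l : List Bool) (j : ℕ) :
    (hf N l j : ℝ) = N + wsum (fun i => if i < j then 1 else 0) l := by
  induction l generalizing N j with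
  | nil => simp [wsum]
  | cons b l ih =>
    cases j with
    | zero =>
      have : wsum (fun i => if i < 0 then 1 else 0) (b :: l) = 0 := by
        have h1 : ∀ l : List Bool, wsum (fun i => if i < 0 then (1 : ℝ) else 0) l = 0 := by
          intro l
          induction l with
          | nil => rfl
          | cons b l ih => simp only [wsum, Nat.not_lt_zero, if_false] at ih ⊢; simp [ih]
        exact h1 _
      rw [this, hf_zero]
      simp
    | succ j =>
      rw [hf_cons, ih]
      simp only [wsum, Nat.add_lt_add_iff_right, Nat.succ_pos, if_true]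
      cases b <;> simp
      ring

lemma EB_hf (ρ : ℕ → ℝ) (m : ℕ) (N j : ℕ) (hj : j ≤ m) :
    EB ρ m (fun l => (hf N l j : ℝ)) = N + ∑ i ∈ range j, ρ i := by
  have e : (fun l => (hf N l j : ℝ)) = fun l => (fun _ => (N : ℝ)) l + wsum (fun i => if i < j then 1 else 0) l := by
    funext l; rw [hf_eq_wsum]
  rw [e, EB_add, EB_wsum]
  congr 1
  · have h2 := EB_smul ρ m N (fun _ => 1)
    rw [EB_one] at h2
    simpa using h2
  · simp only [ite_mul, one_mul, zero_mul]
    rw [← sum_filter]
    congr 1
    ext i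
    simp only [mem_filter, mem_range]
    omega

/-- `listM` of identical means -/
noncomputable abbrev iid (w : Mean Ev) (T : ℕ) : Mean (List Ev) := listM (List.replicate T w)

lemma iid_succ (w : Mean Ev) (T : ℕ) (f : List Ev → ℝ) :
    (iid w (T + 1)).E f = w.E (fun e => (iid w T).E (fun l => f (e :: l))) := by
  unfold iid
  rw [List.replicate_succ, listM_cons]

lemma iid_add (w : Mean Ev) (T T' : ℕ) (f : List Ev → ℝ) :
    (iid w (T + T')).E f = (iid w T).E (fun l => (iid w T').E (fun l' => f (l ++ l'))) := by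
  unfold iid
  rw [List.replicate_add, listM_append]

/-- Stationary expectation. -/
theorem stationary_mean (a : ℝ) (ha : 0 < a) (q : ℕ → ℝ) (hq : ∀ i, 0 ≤ q i) (m : ℕ)
    (hs : a + ∑ i ∈ range m, q i ≤ 1) (T : ℕ) : ∀ N : ℕ,
    EB (fun i => q i / (q i + a)) m (fun η => (iid (evM a q m ha.le hq hs) T).E
      (fun l => (run (hf N η) l m : ℝ))) = N + a * T + ∑ i ∈ range m, q i / (q i + a) := by
  induction T with
  | zero =>
    intro N
    have : (fun η => (iid (evM a q m ha.le hq hs) 0).E (fun l => (run (hf N η) l m : ℝ))) =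
        fun η => (hf N η m : ℝ) := by
      funext η
      simp [iid]
    rw [this, EB_hf _ _ _ _ le_rfl]
    simp
  | succ T ih =>
    intro N
    set w := evM a q m ha.le hq hs with hw
    set ρ : ℕ → ℝ := fun i => q i / (q i + a) with hρ
    let G : List Bool → ℝ := fun η => (iid w T).E (fun l => (run (hf N η) l m : ℝ))
    have h1 : ∀ η : List Bool, η.length = m → (iid w (T + 1)).E (fun l => (run (hf N η) l m : ℝ)) =
        a + (a * G (upd src η) + ∑ i ∈ range m, q i * G (upd (el i) η) +
          (1 - a - ∑ i ∈ range m, q i) * G η) := by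
      intro η hη
      rw [iid_succ, hw, evM_E, ← hw]
      simp only [run_cons]
      have e1 : (iid w T).E (fun l => (run (step src (hf N η)) l m : ℝ)) = 1 + G (upd src η) := by
        have : (fun l => (run (step src (hf N η)) l m : ℝ)) = fun l => 1 + (run (hf N (upd src η)) l m : ℝ) := by
          funext l
          have h2 : step src (hf N η) = fun k => 1 + hf N (upd src η) k := by
            funext k
            rw [step_src_hf]
            have h3 : (hf (N + 1) (upd src η) k : ℝ) = ((1 + hf N (upd src η) k : ℕ) : ℝ) := by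
              push_cast
              rw [hf_eq_wsum, hf_eq_wsum]; push_cast; ring
            exact_mod_cast h3
          rw [h2, run_add]
          push_cast
          ring
        rw [this, Mean.const_add]
      have e2 : ∀ i ∈ range m, q i * (iid w T).E (fun l => (run (step (el i) (hf N η)) l m : ℝ)) =
          q i * G (upd (el i) η) := by
        intro i hi
        have h2 : step (el i) (hf N η) = hf N (upd (el i) η) := by
          funext k
          exact step_el_hf N η i (by rw [hη]; exact mem_range.mp hi) k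
        rw [h2]
      rw [e1, sum_congr rfl e2]
      simp only [step_nul]
      change a * (1 + G (upd src η)) + ∑ i ∈ range m, q i * G (upd (el i) η) +
        (1 - a - ∑ i ∈ range m, q i) * G η = _
      ring
    rw [EB_congr _ _ _ _ h1]
    have h2 : EB ρ m (fun η => a + (a * G (upd src η) + ∑ i ∈ range m, q i * G (upd (el i) η) +
          (1 - a - ∑ i ∈ range m, q i) * G η)) = a + EB ρ m G := by
      have := EB_add ρ m (fun _ => a) (fun η => (a * G (upd src η) + ∑ i ∈ range m, q i * G (upd (el i) η) +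
          (1 - a - ∑ i ∈ range m, q i) * G η))
      rw [this, stationary_step a ha m q hq G]
      congr 1
      have h2 := EB_smul ρ m a (fun _ => 1)
      rw [EB_one] at h2
      simpa using h2
    rw [h2]
    have h3 := ih N
    change a + EB ρ m G = _
    rw [show EB ρ m G = N + a * T + ∑ i ∈ range m, q i / (q i + a) from h3]
    push_cast
    ring

/-! ### Changing the law by filters -/

lemma listM_map (ws : List (Mean Ev)) (φ : Ev → Ev) (f : List Ev → ℝ) :
    (listM (ws.map fun w => w.map φ)).E f = (listM ws).E (fun l => f (l.map φ)) := by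
  induction ws generalizing f with
  | nil => rfl
  | cons w ws ih =>
    rw [List.map_cons, listM_cons, listM_cons, Mean.map_E]
    congr 1
    funext e
    rw [ih]
    rfl

lemma iid_map (w : Mean Ev) (φ : Ev → Ev) (T : ℕ) (f : List Ev → ℝ) :
    (iid (w.map φ) T).E f = (iid w T).E (fun l => f (l.map φ)) := by
  unfold iid
  rw [← listM_map, List.map_replicate]

/-- restricted letter weights -/
noncomputable def qG (q : ℕ → ℝ) (j : ℕ) : ℕ → ℝ := fun i => if j ≤ i then q i else 0

lemma qG_nonneg {q : ℕ → ℝ} (hq : ∀ i, 0 ≤ q i) (j i : ℕ) : 0 ≤ qG q j i := by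
  unfold qG; split_ifs
  · exact hq i
  · exact le_rfl

lemma qG_le {q : ℕ → ℝ} (hq : ∀ i, 0 ≤ q i) (j i : ℕ) : qG q j i ≤ q i := by
  unfold qG; split_ifs
  · exact le_rfl
  · exact hq i

lemma evM_map_fL (a : ℝ) (q : ℕ → ℝ) (m : ℕ) (ha : 0 ≤ a) (hq : ∀ i, 0 ≤ q i)
    (hs : a + ∑ i ∈ range m, q i ≤ 1) (hs0 : 0 + ∑ i ∈ range m, q i ≤ 1) :
    (evM a q m ha hq hs).map fL = evM 0 q m le_rfl hq hs0 := by
  ext f
  simp only [Mean.map_E, evM_E, fL]
  ring

lemma evM_map_fG (a : ℝ) (q : ℕ → ℝ) (m j : ℕ) (ha : 0 ≤ a) (hq : ∀ i, 0 ≤ q i)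
    (hs : a + ∑ i ∈ range m, q i ≤ 1) (hs0 : 0 + ∑ i ∈ range m, qG q j i ≤ 1) :
    (evM a q m ha hq hs).map (fG j) = evM 0 (qG q j) m le_rfl (qG_nonneg hq j) hs0 := by
  ext f
  simp only [Mean.map_E, evM_E, fG]
  have h1 : ∀ i, q i * f (if j ≤ i then el i else nul) =
      qG q j i * f (el i) + (q i - qG q j i) * f nul := by
    intro i
    unfold qG
    split_ifs <;> ring
  simp only [h1, sum_add_distrib, ← sum_mul, sum_sub_distrib]
  ring

/-- The upper bound on the mean length. -/
theorem mean_upper (q : ℕ → ℝ) (hq : ∀ i, 0 ≤ q i) (m : ℕ) (hs0 : 0 + ∑ i ∈ range m, q i ≤ 1)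
    (a : ℝ) (ha : 0 < a) (hs : a + ∑ i ∈ range m, q i ≤ 1) (T : ℕ) :
    (iid (evM 0 q m le_rfl hq hs0) T).E (fun l => (run (fun _ => 0) l m : ℝ)) ≤
      a * T + ∑ i ∈ range m, q i / (q i + a) := by
  have hρ0 : ∀ i, 0 ≤ q i / (q i + a) := fun i => div_nonneg (hq i) (by have := hq i; linarith)
  have hρ1 : ∀ i, q i / (q i + a) ≤ 1 := fun i => by
    rw [div_le_one (by have := hq i; linarith)]
    linarith
  have h1 := stationary_mean a ha q hq m hs T 0
  rw [← evM_map_fL a q m ha.le hq hs hs0, iid_map]
  have h2 : EB (fun i => q i / (q i + a)) m (fun η => (iid (evM a q m ha.le hq hs) T).E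
      (fun l => (run (fun _ => 0) (l.map fL) m : ℝ))) ≤
      EB (fun i => q i / (q i + a)) m (fun η => (iid (evM a q m ha.le hq hs) T).E
      (fun l => (run (hf 0 η) l m : ℝ))) := by
    apply EB_mono _ _ hρ0 hρ1
    intro η
    apply Mean.mono
    intro l
    exact_mod_cast (run_filt_le fL_filt l _ m).trans (run_mono l (fun _ => Nat.zero_le _) m)
  have h3 : EB (fun i => q i / (q i + a)) m (fun η => (iid (evM a q m ha.le hq hs) T).E
      (fun l => (run (fun _ => 0) (l.map fL) m : ℝ))) = (iid (evM a q m ha.le hq hs) T).E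
      (fun l => (run (fun _ => 0) (l.map fL) m : ℝ)) := by
    have h2 := EB_smul (fun i => q i / (q i + a)) m ((iid (evM a q m ha.le hq hs) T).E
      (fun l => (run (fun _ => 0) (l.map fL) m : ℝ))) (fun _ => 1)
    rw [EB_one] at h2
    simpa using h2
  rw [h3, h1] at h2
  simpa using h2

end Pool.Agent.Lib.MP_6ef346_pr
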