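import Pool.Agent.Lib.MP_6ef346_pr.Reg2

/-!
Thinning.
-/

open Finset

namespace Pool.Agent.Lib.MP_6ef346_pr

open Ev

/-- independent thinning of a list -/
noncomputable def thinM (b : ℝ) (h0 : 0 ≤ b) (h1 : b ≤ 1) (l : List Ev) : Mean (List Ev) :=
  listM (l.map fun e => bern b h0 h1 e nul)

section
variable (b : ℝ) (h0 : 0 ≤ b) (h1 : b ≤ 1)

lemma thinM_nil (f : List Ev → ℝ) : (thinM b h0 h1 []).E f = f [] := rfl

lemma thinM_cons (e : Ev) (l : List Ev) (f : List Ev → ℝ) :
    (thinM b h0 h1 (e :: l)).E f = b * (thinM b h0 h1 l).E (fun l' => f (e :: l')) +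
      (1 - b) * (thinM b h0 h1 l).E (fun l' => f (nul :: l')) := rfl

lemma thinM_snoc (e : Ev) (l : List Ev) (f : List Ev → ℝ) :
    (thinM b h0 h1 (l ++ [e])).E f = (thinM b h0 h1 l).E
      (fun l' => b * f (l' ++ [e]) + (1 - b) * f (l' ++ [nul])) := by
  unfold thinM
  rw [List.map_append, listM_append]
  rfl

lemma thin_step (p : ℕ → ℝ) (m : ℕ) (hp : ∀ i, 0 ≤ p i) (hs0 : 0 + ∑ i ∈ range m, p i ≤ 1)
    (hb : ∀ i, 0 ≤ b * p i) (hs0' : 0 + ∑ i ∈ range m, b * p i ≤ 1) (g : Ev → ℝ) :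
    (evM 0 (fun i => b * p i) m le_rfl hb hs0').E g =
      (evM 0 p m le_rfl hp hs0).E (fun e => b * g e + (1 - b) * g nul) := by
  rw [Mean.add_const, Mean.smul, evM_E, evM_E]
  have : ∑ i ∈ range m, b * p i * g (el i) = b * ∑ i ∈ range m, p i * g (el i) := by
    rw [mul_sum]
    exact sum_congr rfl fun i _ => by ring
  rw [this, ← mul_sum]
  ring

lemma thin_iid (p : ℕ → ℝ) (m : ℕ) (hp : ∀ i, 0 ≤ p i) (hs0 : 0 + ∑ i ∈ range m, p i ≤ 1)
    (hb : ∀ i, 0 ≤ b * p i) (hs0' : 0 + ∑ i ∈ range m, b * p i ≤ 1) (n : ℕ) :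
    ∀ f : List Ev → ℝ, (iid (evM 0 (fun i => b * p i) m le_rfl hb hs0') n).E f =
      (iid (evM 0 p m le_rfl hp hs0) n).E (fun l => (thinM b h0 h1 l).E f) := by
  induction n with
  | zero => intro f; rfl
  | succ n ih =>
    intro f
    rw [iid_succ, iid_succ, thin_step b p m hp hs0 hb hs0']
    congr 1
    funext e
    rw [ih, ih]
    simp only [thinM_cons]
    rw [Mean.add, Mean.smul, Mean.smul]

lemma thin_le (l : List Ev) : ∀ (h : ℕ → ℕ) (j : ℕ),
    (thinM b h0 h1 l).E (fun l' => (run h l' j : ℝ)) ≤ run h l j := by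
  induction l with
  | nil => intro h j; exact le_rfl
  | cons e l ih =>
    intro h j
    rw [thinM_cons]
    simp only [run_cons, step_nul]
    have h2 := ih (step e h) j
    have h3 := ih h j
    have h4 : (run h l j : ℝ) ≤ run (step e h) l j := by
      exact_mod_cast run_mono l (le_step e h) j
    have h5 : 0 ≤ 1 - b := by linarith
    calc b * (thinM b h0 h1 l).E (fun l' => (run (step e h) l' j : ℝ)) +
        (1 - b) * (thinM b h0 h1 l).E (fun l' => (run h l' j : ℝ)) ≤
        b * (run (step e h) l j : ℝ) + (1 - b) * (run (step e h) l j : ℝ) := by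
          apply add_le_add
          · exact mul_le_mul_of_nonneg_left h2 h0
          · exact mul_le_mul_of_nonneg_left (h3.trans h4) h5
      _ = run (step e h) l j := by ring

lemma le_thin (l : List Ev) : ∀ (j : ℕ),
    b * (run (fun _ => 0) l j : ℝ) ≤
      (thinM b h0 h1 l).E (fun l' => (run (fun _ => 0) l' j : ℝ)) := by
  induction l using List.reverseRecOn with
  | nil => intro j; rw [thinM_nil]; simp
  | append_singleton l e ih =>
    intro j
    rw [thinM_snoc]
    simp only [run_snoc, step_nul]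
    have h5 : 0 ≤ 1 - b := by linarith
    rcases step_cases e j with h2 | ⟨c, hc, h2⟩
    · simp only [h2]
      have : (fun l' : List Ev => b * (run (fun _ => 0) l' j : ℝ) +
          (1 - b) * (run (fun _ => 0) l' j : ℝ)) = fun l' => (run (fun _ => 0) l' j : ℝ) := by
        funext l'; ring
      rw [this]
      exact ih j
    · simp only [h2]
      rcases le_total (run (fun _ => 0) l c + 1) (run (fun _ => 0) l j) with h3 | h3
      · rw [max_eq_left h3]
        refine (ih j).trans (Mean.mono _ fun l' => ?_)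
        have h4 : (run (fun _ => 0) l' j : ℝ) ≤
            ((max (run (fun _ => 0) l' j) (run (fun _ => 0) l' c + 1) : ℕ) : ℝ) := by
          exact_mod_cast le_max_left _ _
        nlinarith [mul_le_mul_of_nonneg_left h4 h0]
      · rw [max_eq_right h3]
        have h6 : b * ((run (fun _ => 0) l c + 1 : ℕ) : ℝ) ≤
            (thinM b h0 h1 l).E (fun l' => (run (fun _ => 0) l' c : ℝ) + b) := by
          rw [Mean.add_const]
          push_cast
          have := ih c
          linarith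
        refine h6.trans (Mean.mono _ fun l' => ?_)
        have h4 : (run (fun _ => 0) l' c : ℝ) + 1 ≤
            ((max (run (fun _ => 0) l' j) (run (fun _ => 0) l' c + 1) : ℕ) : ℝ) := by
          exact_mod_cast le_max_right _ _
        have h7 : (run (fun _ => 0) l' c : ℝ) ≤ (run (fun _ => 0) l' j : ℝ) := by
          exact_mod_cast run_monotone l' (fun _ _ _ => le_rfl) hc
        have h8 := mul_le_mul_of_nonneg_left h4 h0
        have h9 := mul_le_mul_of_nonneg_left h7 h5
        linarith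

end

/-- thinning decreases the mean length -/
theorem mean_thin_le (b : ℝ) (h0 : 0 ≤ b) (h1 : b ≤ 1) (p : ℕ → ℝ) (m : ℕ) (hp : ∀ i, 0 ≤ p i)
    (hs0 : 0 + ∑ i ∈ range m, p i ≤ 1)
    (hb : ∀ i, 0 ≤ b * p i) (hs0' : 0 + ∑ i ∈ range m, b * p i ≤ 1) (n : ℕ) :
    (iid (evM 0 (fun i => b * p i) m le_rfl hb hs0') n).E (fun l => (run (fun _ => 0) l m : ℝ)) ≤
      (iid (evM 0 p m le_rfl hp hs0) n).E (fun l => (run (fun _ => 0) l m : ℝ)) := by
  rw [thin_iid b h0 h1 p m hp hs0 hb hs0' n]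
  exact Mean.mono _ fun l => thin_le b h0 h1 l _ m

/-- thinning by `b` decreases the mean length at most by the factor `b` -/
theorem mean_le_thin (b : ℝ) (h0 : 0 ≤ b) (h1 : b ≤ 1) (p : ℕ → ℝ) (m : ℕ) (hp : ∀ i, 0 ≤ p i)
    (hs0 : 0 + ∑ i ∈ range m, p i ≤ 1)
    (hb : ∀ i, 0 ≤ b * p i) (hs0' : 0 + ∑ i ∈ range m, b * p i ≤ 1) (n : ℕ) :
    b * (iid (evM 0 p m le_rfl hp hs0) n).E (fun l => (run (fun _ => 0) l m : ℝ)) ≤
    (iid (evM 0 (fun i => b * p i) m le_rfl hb hs0') n).E (fun l => (run (fun _ => 0) l m : ℝ)) := by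
  rw [thin_iid b h0 h1 p m hp hs0 hb hs0' n, ← Mean.smul]
  exact Mean.mono _ fun l => le_thin b h0 h1 l m

/-- the upper bound for the mean length over a finite alphabet -/
theorem upper_fin (p : ℕ → ℝ) (m : ℕ) (hp : ∀ i, 0 ≤ p i) (hs0 : 0 + ∑ i ∈ range m, p i ≤ 1)
    (n : ℕ) (α : ℝ) (hα : 0 < α) :
    (iid (evM 0 p m le_rfl hp hs0) n).E (fun l => (run (fun _ => 0) l m : ℝ)) ≤
      (1 + α) * (α * n + ∑ i ∈ range m, p i / (p i + α)) := by
  set b : ℝ := 1 / (1 + α) with hb
  have hb0 : 0 < b := by positivity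
  have hb1 : b ≤ 1 := by rw [hb, div_le_one (by positivity)]; linarith
  have hbq : ∀ i, 0 ≤ b * p i := fun i => mul_nonneg hb0.le (hp i)
  have hsum : b * α + ∑ i ∈ range m, b * p i ≤ 1 := by
    rw [← mul_sum, ← mul_add, hb, one_div, inv_mul_le_iff₀ (by positivity)]
    linarith
  have hs0' : 0 + ∑ i ∈ range m, b * p i ≤ 1 := by
    have : 0 ≤ b * α := by positivity
    linarith
  have h1 := mean_le_thin b hb0.le hb1 p m hp hs0 hbq hs0' n
  have h2 := mean_upper (fun i => b * p i) hbq m hs0' (b * α) (by positivity) hsum n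
  have h3 : ∀ i, b * p i / (b * p i + b * α) = p i / (p i + α) := by
    intro i
    rw [← mul_add, mul_div_mul_left _ _ hb0.ne']
  simp only [h3] at h2
  set E := (iid (evM 0 p m le_rfl hp hs0) n).E (fun l => (run (fun _ => 0) l m : ℝ))
  have h4 : b * E ≤ α * n + ∑ i ∈ range m, p i / (p i + α) := by
    refine h1.trans (h2.trans ?_)
    have : b * α * n ≤ α * n := by
      have : b * α ≤ α := by nlinarith
      have hn : (0 : ℝ) ≤ n := by positivity
      nlinarith
    linarith
  have h5 : E = (1 + α) * (b * E) := by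
    rw [hb]; field_simp
  rw [h5]
  exact mul_le_mul_of_nonneg_left h4 (by positivity)

end Pool.Agent.Lib.MP_6ef346_pr
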